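import Mathlib
import Pool.Agent.N20.Sub5

/-!
Integrality of the sums of characters over a set with vanishing sums on `p`-singular elements.
-/

set_option autoImplicit false
set_option linter.style.haveILetI false
set_option linter.unusedSectionVars false

open scoped BigOperators Classical
open Pool.Agent.Helper884 Pool.Agent.H254R3.IN Pool.Agent.N20

noncomputable section

namespace Run7.h179

variable {G : Type} [Group G] [Fintype G]

/-- the sum of the `χ(1) χ` over a finite set of characters -/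
def SJ (J : Finset (G → ℂ)) (g : G) : ℂ := ∑ χ ∈ J, χ 1 * χ g

lemma cu_int (u : G) {θ : CC u → ℂ} (hθ : IsIrr θ) : IsIntegral ℤ (cu u θ) :=
  IsIntegral.of_pow (orderOf_pos u) (by rw [cu_pow u hθ]; exact isIntegral_one)

/-- the average of a character over the translate of a subgroup by a commuting element -/
lemma avg_int (s : G) (P : Subgroup (CC s)) {χ : G → ℂ} (hχ : IsIrr χ) :
    IsIntegral ℤ ((Nat.card P : ℂ)⁻¹ * ∑ x : P, χ (s * ((x : CC s) : G))) := by
  have h1 : ∀ x : P, χ (s * ((x : CC s) : G)) =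
      ∑ θ ∈ IC.Irr (CC s), mm s χ θ * cu s θ * θ (x : CC s) := by
    intro x
    have := val_section s hχ 1 (x : CC s)
    rw [pow_one] at this
    rw [this]
    exact Finset.sum_congr rfl fun θ _ => by rw [pow_one]
  rw [Finset.sum_congr rfl (fun x _ => h1 x), Finset.sum_comm, Finset.mul_sum]
  refine IsIntegral.sum _ fun θ hθ => ?_
  have hθi := mem_Irr.mp hθ
  rw [← Finset.mul_sum]
  obtain ⟨n, hn⟩ := mm_int s hχ hθi
  obtain ⟨m, hm⟩ := Pool.Agent.R389.Virt.pr_int'
    ((virt_of_irr hθi).comp P.subtype)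
    (AddSubgroup.subset_closure (Pool.Agent.R389.lin_irr (1 : P →* ℂˣ)))
  rw [Pool.Agent.W446.AS.pr_eq] at hm
  have h2 : (Nat.card P : ℂ)⁻¹ * ∑ x : P, θ (x : CC s) = m := by
    rw [← hm]
    congr 1
    refine Finset.sum_congr rfl fun x _ => ?_
    simp
  have h3 : (Nat.card P : ℂ)⁻¹ * (mm s χ θ * cu s θ * ∑ x : P, θ (x : CC s)) =
      (n : ℂ) * cu s θ * (m : ℂ) := by
    rw [← h2, hn]
    ring
  rw [h3]
  refine IsIntegral.mul (IsIntegral.mul ?_ (cu_int s hθi)) ?_
  · exact isIntegral_algebraMap (R := ℤ) (x := n)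
  · exact isIntegral_algebraMap (R := ℤ) (x := m)

/-- the order of the product of a `p`-regular element with a commuting nontrivial `p`-element is
divisible by `p` -/
lemma dvd_order {p : ℕ} [hp : Fact p.Prime] {s x : G} (hsx : Commute s x)
    (hx : p ∣ orderOf x) (hs : ¬ p ∣ orderOf s) : p ∣ orderOf (s * x) := by
  by_contra hcon
  -- `x = s⁻¹ * (s x)` would be `p`-regular
  have h1 : Commute s⁻¹ (s * x) := (Commute.refl s).inv_left.mul_right hsx.inv_left
  have h2 : orderOf (s⁻¹ * (s * x)) ∣ Nat.lcm (orderOf s⁻¹) (orderOf (s * x)) :=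
    h1.orderOf_mul_dvd_lcm
  rw [inv_mul_cancel_left, orderOf_inv] at h2
  have h3 : p ∣ Nat.lcm (orderOf s) (orderOf (s * x)) := hx.trans h2
  have h4 : p ∣ orderOf s * orderOf (s * x) := h3.trans (Nat.lcm_dvd_mul _ _)
  rcases hp.out.dvd_mul.mp h4 with h | h
  · exact hs h
  · exact hcon h

section star

variable {O : ValuationSubring ℂ} {p : ℕ} [hp : Fact p.Prime] (hpO : (p : ℂ) ∈ O.nonunits)
  {D : Subgroup G} {B : Set (G → ℂ)} (hB : IsBlock O B) (hD : IsDefectGroup p O B D)
  {J : Finset (G → ℂ)} (hJB : ∀ χ ∈ J, χ ∈ B) (hJ : ∀ g : G, p ∣ orderOf g → SJ J g = 0)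

include hpO hB hD hJB hJ in
/-- the coefficient at `s` of the idempotent of `J` is `|D|⁻¹ |C_G(s)|` times an integral element -/
theorem star (s : G) : (Nat.card D : ℂ) * SJ J s / (Nat.card G * Nat.card (CC s)) ∈ O := by
  by_cases hs : p ∣ orderOf s
  · rw [hJ s hs, mul_zero, zero_div]
    exact O.zero_mem
  obtain ⟨P, hPp, h4⟩ : ∃ P : Subgroup (CC s), IsPGroup p P ∧ ¬ p ∣ P.index :=
    ⟨((default : Sylow p (CC s)) : Subgroup (CC s)), (default : Sylow p (CC s)).isPGroup',
      (default : Sylow p (CC s)).not_dvd_index⟩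
  have hG0 : (Nat.card G : ℂ) ≠ 0 := by exact_mod_cast Nat.card_pos.ne'
  have hP0 : (Nat.card P : ℂ) ≠ 0 := by exact_mod_cast Nat.card_pos.ne'
  have h1 : ∑ x : P, SJ J (s * ((x : CC s) : G)) = SJ J s := by
    rw [Finset.sum_eq_single (1 : P)]
    · simp
    · intro x _ hx
      apply hJ
      have hxc : Commute s ((x : CC s) : G) := mem_CC.mp (x : CC s).2
      refine dvd_order hxc ?_ hs
      rw [Subgroup.orderOf_coe, Subgroup.orderOf_coe]
      obtain ⟨k, hk⟩ := (IsPGroup.iff_orderOf.mp hPp) x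
      rw [hk]
      apply dvd_pow_self
      rintro rfl
      rw [pow_zero, orderOf_eq_one_iff] at hk
      exact hx hk
    · intro h
      exact absurd (Finset.mem_univ _) h
  set α : (G → ℂ) → ℂ := fun χ => (Nat.card P : ℂ)⁻¹ * ∑ x : P, χ (s * ((x : CC s) : G)) with hα
  have h2 : SJ J s = (Nat.card P : ℂ) * ∑ χ ∈ J, χ 1 * α χ := by
    rw [← h1]
    unfold SJ
    rw [Finset.sum_comm, Finset.mul_sum]
    refine Finset.sum_congr rfl fun χ _ => ?_
    rw [← Finset.mul_sum, hα]
    field_simp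
  have h3 : Nat.card P * P.index = Nat.card (CC s) := Subgroup.card_mul_index _
  have hk0 : (P.index : ℂ) ≠ 0 := by
    exact_mod_cast (Subgroup.index_ne_zero_of_finite)
  have h5 : (Nat.card (CC s) : ℂ) = Nat.card P * P.index := by
    exact_mod_cast h3.symm
  have h6 : (Nat.card D : ℂ) * SJ J s / (Nat.card G * Nat.card (CC s)) =
      (∑ χ ∈ J, uu D χ * α χ) * ((P.index : ℂ))⁻¹ := by
    rw [h2, h5, Finset.mul_sum, Finset.mul_sum, Finset.sum_div, Finset.sum_mul]
    refine Finset.sum_congr rfl fun χ _ => ?_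
    unfold uu
    field_simp
  rw [h6]
  refine O.mul_mem _ _ (sum_mem fun χ hχ => ?_) (nat_inv_mem hpO h4)
  exact O.mul_mem _ _ (Pool.Agent.N20.uu_mem hpO hB hD (hJB χ hχ))
    (mem_of_isIntegral (avg_int s P (hB.irr χ (hJB χ hχ))))

lemma SJ_cl {J : Finset (G → ℂ)} (hJi : ∀ χ ∈ J, IsIrr χ) : IsCl (SJ J) := by
  intro g y
  unfold SJ
  exact Finset.sum_congr rfl fun χ hχ => by rw [(hJi χ hχ).conj]

include hpO hB hD hJB hJ in
/-- pairing with a class function with integral values -/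
theorem star_sum {F : G → ℂ} (hF : IsCl F) (hFO : ∀ g, F g ∈ O) :
    (Nat.card D : ℂ) / (Nat.card G) ^ 2 * ∑ g, F g * SJ J g ∈ O := by
  have hG0 : (Nat.card G : ℂ) ≠ 0 := by exact_mod_cast Nat.card_pos.ne'
  have hSc := SJ_cl (fun χ hχ => hB.irr χ (hJB χ hχ))
  rw [sum_classes, Finset.mul_sum]
  refine sum_mem fun K _ => ?_
  have h1 : ∑ g ∈ Finset.univ.filter (fun g => IsConj (rep K) g), F g * SJ J g =
      (Nat.card {y : G // IsConj (rep K) y} : ℂ) * (F (rep K) * SJ J (rep K)) := by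
    rw [Finset.sum_congr rfl (g := fun _ => F (rep K) * SJ J (rep K)) (fun g hg => by
      have hc := (Finset.mem_filter.mp hg).2
      rw [hF.isConj hc, hSc.isConj hc]), Finset.sum_const, nsmul_eq_mul]
    congr 1
    rw [Nat.card_eq_fintype_card, Fintype.card_subtype]
  rw [h1]
  have h2 := card_class_mul (rep K)
  have hC0 : (Nat.card (CC (rep K)) : ℂ) ≠ 0 := by exact_mod_cast Nat.card_pos.ne'
  have h3 : (Nat.card {y : G // IsConj (rep K) y} : ℂ) = Nat.card G / Nat.card (CC (rep K)) := by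
    rw [eq_div_iff hC0]
    exact_mod_cast h2
  have h4 : (Nat.card D : ℂ) / (Nat.card G) ^ 2 *
      ((Nat.card {y : G // IsConj (rep K) y} : ℂ) * (F (rep K) * SJ J (rep K))) =
      F (rep K) * ((Nat.card D : ℂ) * SJ J (rep K) / (Nat.card G * Nat.card (CC (rep K)))) := by
    rw [h3]
    field_simp
  rw [h4]
  exact O.mul_mem _ _ (hFO _) (star hpO hB hD hJB hJ (rep K))

end star

end Run7.h179
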