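import Mathlib
import Pool.Agent.Run7.h179.Har1

/-!
Integrality of the contributions of a set with vanishing sums on `p`-singular elements.
-/

set_option autoImplicit false
set_option linter.style.haveILetI false
set_option linter.unusedSectionVars false

open scoped BigOperators Classical
open Pool.Agent.Helper884 Pool.Agent.H254R3.IN Pool.Agent.N20

noncomputable section

namespace Run7.h179

variable {G : Type} [Group G] [Fintype G]

lemma orderOf_pow' {p k t : ℕ} [hp : Fact p.Prime] {u : G} (hu : orderOf u = p ^ k) :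
    ∃ k', orderOf (u ^ t) = p ^ k' := by
  have h1 : orderOf (u ^ t) ∣ p ^ k := by rw [← hu]; exact orderOf_pow_dvd t
  obtain ⟨k', -, h2⟩ := (Nat.dvd_prime_pow hp.out).mp h1
  exact ⟨k', h2⟩

lemma cent_map_t {p k t : ℕ} [hp : Fact p.Prime] {u : G} (hu : orderOf u = p ^ k)
    (ht : Nat.Coprime t p) (s : CC u) (hs : ¬ p ∣ orderOf s) :
    (Subgroup.centralizer ({s} : Set (CC u))).map (CC u).subtype =
      Subgroup.centralizer ({u ^ t * (s : G)} : Set G) := by
  have hs' : ¬ p ∣ orderOf (s : G) := by rwa [Subgroup.orderOf_coe]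
  obtain ⟨k', hk'⟩ := orderOf_pow' (t := t) hu
  have hCC := CC_pow hu ht
  have hus : Commute (u ^ t) (s : G) := Commute.pow_left (mem_CC.mp s.2 : Commute u (s : G)) t
  ext g
  constructor
  · intro hg
    obtain ⟨c, hc, rfl⟩ := Subgroup.mem_map.mp hg
    have h1 : s * c = c * s := Subgroup.mem_centralizer_iff.mp hc s (Set.mem_singleton s)
    have h2 : Commute (s : G) (c : G) := congrArg Subtype.val h1
    have h3 : Commute (u ^ t) (c : G) := Commute.pow_left (mem_CC.mp c.2 : Commute u (c : G)) t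
    rw [Subgroup.mem_centralizer_iff]
    simp only [Set.mem_singleton_iff, forall_eq, Subgroup.subtype_apply]
    exact h3.mul_left h2
  · intro hg
    have h1 : u ^ t * s * g = g * (u ^ t * s) :=
      Subgroup.mem_centralizer_iff.mp hg _ (Set.mem_singleton _)
    have h2 : Commute g (u ^ t * s) := h1.symm
    obtain ⟨h3, h4⟩ := commute_parts hk' hus hs' h2
    have h5 : g ∈ CC u := by
      rw [← hCC, mem_CC]
      exact h3.symm
    rw [Subgroup.mem_map]
    refine ⟨⟨g, h5⟩, ?_, rfl⟩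
    rw [Subgroup.mem_centralizer_iff]
    simp only [Set.mem_singleton_iff, forall_eq]
    exact Subtype.ext h4.symm

lemma card_cent_t {p k t : ℕ} [hp : Fact p.Prime] {u : G} (hu : orderOf u = p ^ k)
    (ht : Nat.Coprime t p) (s : CC u) (hs : ¬ p ∣ orderOf s) :
    Nat.card (Subgroup.centralizer ({u ^ t * (s : G)} : Set G)) =
      Nat.card (Subgroup.centralizer ({s} : Set (CC u))) := by
  rw [← cent_map_t hu ht s hs]
  exact (Nat.card_congr ((Subgroup.centralizer ({s} : Set (CC u))).equivMapOfInjective _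
      (CC u).subtype_injective).toEquiv).symm

/-- the central element attached to a class function on the section of `u ^ t` -/
def FF (p : ℕ) (u : G) (t : ℕ) (a : CC u → ℂ) (g : G) : ℂ :=
  ∑ L : ConjClasses (CC u), cut p a (rep L)⁻¹ * ind (u ^ t * ((rep L : CC u) : G)) g

lemma FF_cl (p : ℕ) (u : G) (t : ℕ) (a : CC u → ℂ) : IsCl (FF p u t a) := by
  intro g y
  unfold FF
  exact Finset.sum_congr rfl fun L _ => by rw [ind_cl]

lemma FF_mem {O : ValuationSubring ℂ} (p : ℕ) (u : G) (t : ℕ) {a : CC u → ℂ}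
    (ha : ∀ s, a s ∈ O) (g : G) : FF p u t a g ∈ O := by
  refine sum_mem fun L _ => O.mul_mem _ _ ?_ (ind_mem O _ _)
  unfold cut
  split_ifs
  · exact O.zero_mem
  · exact ha _

lemma sum_ind {χ : G → ℂ} (hχ : IsIrr χ) (x : G) :
    ∑ g, ind x g * χ g = (Nat.card {y : G // IsConj x y} : ℂ) * χ x := by
  have h := Om_ind hχ x
  unfold Om omega at h
  rw [div_left_inj' hχ.one_ne] at h
  exact h

theorem FF_sum {p k t : ℕ} [hp : Fact p.Prime] {u : G} (hu : orderOf u = p ^ k)
    (ht : Nat.Coprime t p) {a : CC u → ℂ} (ha : IsCl a) {χ : G → ℂ} (hχ : IsIrr χ) :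
    ∑ g, FF p u t a g * χ g = (Nat.card G : ℂ) * JJ p u t a χ := by
  have hH0 : (Nat.card (CC u) : ℂ) ≠ 0 := by exact_mod_cast Nat.card_pos.ne'
  have h1 : ∑ g, FF p u t a g * χ g = ∑ L : ConjClasses (CC u), cut p a (rep L)⁻¹ *
      ((Nat.card {y : G // IsConj (u ^ t * ((rep L : CC u) : G)) y} : ℂ) *
        χ (u ^ t * ((rep L : CC u) : G))) := by
    unfold FF
    simp only [Finset.sum_mul]
    rw [Finset.sum_comm]
    refine Finset.sum_congr rfl fun L _ => ?_
    rw [← sum_ind hχ, Finset.mul_sum]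
    exact Finset.sum_congr rfl fun g _ => by ring
  have h2 : ∑ s : CC u, cut p a s⁻¹ * χ (u ^ t * s) = ∑ L : ConjClasses (CC u),
      (Nat.card {y : CC u // IsConj (rep L) y} : ℂ) *
        (cut p a (rep L)⁻¹ * χ (u ^ t * ((rep L : CC u) : G))) := by
    rw [sum_classes]
    refine Finset.sum_congr rfl fun L _ => ?_
    have h3 : ∀ s ∈ Finset.univ.filter (fun s => IsConj (rep L) s),
        cut p a s⁻¹ * χ (u ^ t * s) = cut p a (rep L)⁻¹ * χ (u ^ t * (rep L : CC u)) := by
      intro s hs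
      have hs' := (Finset.mem_filter.mp hs).2
      obtain ⟨c, hc⟩ := isConj_iff.mp hs'
      rw [← hc]
      have e1 : (c * rep L * c⁻¹)⁻¹ = c * (rep L)⁻¹ * c⁻¹ := by group
      rw [e1, cut_cl ha]
      congr 1
      have e2 : u ^ t * ((c * rep L * c⁻¹ : CC u) : G) =
          (c : G) * (u ^ t * (rep L : CC u)) * (c : G)⁻¹ := by
        have h3 : u ^ t * (c : G) = c * u ^ t :=
          Commute.pow_left (mem_CC.mp c.2 : Commute u (c : G)) t
        calc u ^ t * ((c * rep L * c⁻¹ : CC u) : G) =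
              (u ^ t * c) * ((rep L : CC u) : G) * (c : G)⁻¹ := by
              simp only [Subgroup.coe_mul, Subgroup.coe_inv, mul_assoc]
          _ = _ := by rw [h3]; simp only [mul_assoc]
      rw [e2, hχ.conj]
    rw [Finset.sum_congr rfl h3, Finset.sum_const, nsmul_eq_mul]
    congr 1
    rw [Nat.card_eq_fintype_card, Fintype.card_subtype]
  rw [h1]
  unfold JJ
  rw [h2, Finset.mul_sum, Finset.mul_sum]
  refine Finset.sum_congr rfl fun L _ => ?_
  by_cases hL : p ∣ orderOf (rep L)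
  · have : cut p a (rep L)⁻¹ = 0 := by
      unfold cut
      rw [orderOf_inv, if_pos hL]
    rw [this]
    ring
  · have e1 := card_class_mul (u ^ t * ((rep L : CC u) : G))
    have e2 := card_class_mul (rep L)
    rw [card_cent_t hu ht (rep L) hL] at e1
    have hZ0 : (Nat.card (Subgroup.centralizer ({rep L} : Set (CC u))) : ℂ) ≠ 0 := by
      exact_mod_cast Nat.card_pos.ne'
    have e3 : (Nat.card {y : G // IsConj (u ^ t * ((rep L : CC u) : G)) y} : ℂ) =
        Nat.card G / Nat.card (Subgroup.centralizer ({rep L} : Set (CC u))) := by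
      rw [eq_div_iff hZ0]
      exact_mod_cast e1
    have e4 : (Nat.card {y : CC u // IsConj (rep L) y} : ℂ) =
        Nat.card (CC u) / Nat.card (Subgroup.centralizer ({rep L} : Set (CC u))) := by
      rw [eq_div_iff hZ0]
      exact_mod_cast e2
    rw [e3, e4]
    field_simp

section main

variable {O : ValuationSubring ℂ} {p : ℕ} [hp : Fact p.Prime] (hpO : (p : ℂ) ∈ O.nonunits)
  {D : Subgroup G} {B : Set (G → ℂ)} (hB : IsBlock O B) (hD : IsDefectGroup p O B D)
  {J : Finset (G → ℂ)} (hJB : ∀ χ ∈ J, χ ∈ B) (hJ : ∀ g : G, p ∣ orderOf g → SJ J g = 0)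

include hpO hB hD hJB hJ in
/-- integrality of the contributions of `J` to pairs of sections -/
theorem pair_mem {u v : G} {k l s t : ℕ} (hu : orderOf u = p ^ k) (hv : orderOf v = p ^ l)
    (hs : Nat.Coprime s p) (ht : Nat.Coprime t p) {a : CC u → ℂ} {c : CC v → ℂ} (ha : IsCl a)
    (hc : IsCl c) (haO : ∀ x, a x ∈ O) (hcO : ∀ x, c x ∈ O) :
    (Nat.card D : ℂ) * ∑ χ ∈ J, JJ p u s a χ * JJ p v t c χ ∈ O := by
  have hG0 : (Nat.card G : ℂ) ≠ 0 := by exact_mod_cast Nat.card_pos.ne'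
  have hJi : ∀ χ ∈ J, IsIrr χ := fun χ hχ => hB.irr χ (hJB χ hχ)
  have h1 := star_sum hpO hB hD hJB hJ ((FF_cl p u s a).conv (FF_cl p v t c))
    (conv_mem (FF_mem p u s haO) (FF_mem p v t hcO))
  have h2 : ∑ g, conv (FF p u s a) (FF p v t c) g * SJ J g =
      (Nat.card G : ℂ) ^ 2 * ∑ χ ∈ J, JJ p u s a χ * JJ p v t c χ := by
    unfold SJ
    simp only [Finset.mul_sum]
    rw [Finset.sum_comm]
    refine Finset.sum_congr rfl fun χ hχ => ?_
    have hχi := hJi χ hχ
    have h0 := hχi.one_ne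
    have h3 := Om_conv hχi (FF_cl p u s a) (FF_cl p v t c)
    unfold Om at h3
    rw [FF_sum hu hs ha hχi, FF_sum hv ht hc hχi] at h3
    have h4 : ∑ g, conv (FF p u s a) (FF p v t c) g * (χ 1 * χ g) =
        χ 1 * ∑ g, conv (FF p u s a) (FF p v t c) g * χ g := by
      rw [Finset.mul_sum]
      exact Finset.sum_congr rfl fun g _ => by ring
    rw [h4, (div_eq_iff h0).mp h3]
    field_simp
  rw [h2] at h1
  have h3 : (Nat.card D : ℂ) / (Nat.card G) ^ 2 * ((Nat.card G : ℂ) ^ 2 *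
      ∑ χ ∈ J, JJ p u s a χ * JJ p v t c χ) =
      (Nat.card D : ℂ) * ∑ χ ∈ J, JJ p u s a χ * JJ p v t c χ := by
    field_simp
  rwa [h3] at h1

end main

/-- the exponent of the inverse -/
lemma conj_JJ {p k : ℕ} [hp : Fact p.Prime] {u : G} (hu : orderOf u = p ^ k) (t : ℕ)
    {θ : CC u → ℂ} (hθ : IsIrr θ) {χ : G → ℂ} (hχ : IsIrr χ) :
    (starRingEnd ℂ) (JJ p u t θ χ) = JJ p u (t * (p ^ (k + 1) - 1)) θ χ := by
  have hpk : 1 ≤ p ^ (k + 1) := Nat.one_le_pow _ _ hp.out.pos
  have h1 : u ^ (t * (p ^ (k + 1) - 1)) = (u ^ t)⁻¹ := by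
    rw [eq_inv_iff_mul_eq_one, ← pow_add, ← Nat.mul_succ, Nat.succ_eq_add_one,
      Nat.sub_add_cancel hpk, mul_comm, pow_mul, pow_succ, pow_mul, ← hu, pow_orderOf_eq_one,
      one_pow, one_pow]
  unfold JJ
  rw [map_mul, map_inv₀, Complex.conj_natCast, map_sum, h1]
  congr 1
  refine Fintype.sum_equiv (Equiv.inv (CC u)) _ _ fun s => ?_
  simp only [Equiv.inv_apply, inv_inv]
  rw [map_mul]
  have h2 : (starRingEnd ℂ) (cut p θ s⁻¹) = cut p θ s := by
    rw [cut_conj (fun s => (Pool.Agent.Y62.conj_char hθ s).symm), inv_inv]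
  have h3 : (starRingEnd ℂ) (χ (u ^ t * s)) = χ ((u ^ t)⁻¹ * ((s⁻¹ : CC u) : G)) := by
    rw [← Pool.Agent.Y62.conj_char hχ (u ^ t * s), mul_inv_rev, Subgroup.coe_inv]
    have h4 : (u ^ t) * (s : G) = s * u ^ t :=
      Commute.pow_left (mem_CC.mp s.2 : Commute u (s : G)) t
    congr 1
    have h5 : Commute (u ^ t) (s : G) := h4
    exact (h5.inv_inv.eq).symm
  rw [h2, h3]

lemma coprime_inv {p k t : ℕ} (hp : p.Prime) (ht : Nat.Coprime t p) :
    Nat.Coprime (t * (p ^ (k + 1) - 1)) p := by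
  refine Nat.Coprime.mul_left ht ?_
  have hpk : 1 ≤ p ^ (k + 1) := Nat.one_le_pow _ _ hp.pos
  rw [Nat.coprime_comm, Nat.Prime.coprime_iff_not_dvd hp]
  intro h
  have h1 : p ∣ p ^ (k + 1) := dvd_pow_self p (Nat.succ_ne_zero k)
  have h2 : p ∣ p ^ (k + 1) - (p ^ (k + 1) - 1) := Nat.dvd_sub h1 h
  have h3 : p ^ (k + 1) - (p ^ (k + 1) - 1) = 1 := by omega
  rw [h3] at h2
  exact hp.one_lt.ne' (Nat.dvd_one.mp h2)

end Run7.h179
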