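import Mathlib
import Pool.Agent.N20.Blk2

/-!
Arithmetic lemmas: norms from cyclotomic fields of prime power conductor, and integral symmetric
matrices of rank one.
-/

set_option autoImplicit false
set_option linter.style.haveILetI false
set_option linter.unusedSectionVars false

open scoped BigOperators Classical
open Pool.Agent.H254R3.IN Pool.Agent.N20

noncomputable section

namespace Run7.h179

lemma prim_pow {p k : ℕ} [hp : Fact p.Prime] {ζ ξ : ℂ} (hζ : IsPrimitiveRoot ζ (p ^ k))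
    (hξ : IsPrimitiveRoot ξ (p ^ k)) : ∃ t, Nat.Coprime t p ∧ ζ ^ t = ξ := by
  rcases k with _ | k
  · rw [pow_zero, IsPrimitiveRoot.one_right_iff] at hζ hξ
    exact ⟨1, Nat.coprime_one_left p, by rw [hζ, hξ, one_pow]⟩
  · haveI : NeZero (p ^ (k + 1)) := ⟨pow_ne_zero _ hp.out.ne_zero⟩
    obtain ⟨i, -, hi, h⟩ := (hζ.isPrimitiveRoot_iff).mp hξ
    exact ⟨i, Nat.Coprime.coprime_dvd_right (dvd_pow_self p (Nat.succ_ne_zero k)) hi, h⟩

/-- the norm argument -/
theorem norm_dich' (K : Type) [Field K] [CharZero K] {O : ValuationSubring ℂ} {p k d : ℕ}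
    [hp : Fact p.Prime] [IsCyclotomicExtension {p ^ k} ℚ K]
    (hpO : (p : ℂ) ∈ O.nonunits) {ζ : ℂ} (hζ : IsPrimitiveRoot ζ (p ^ k)) (P : Polynomial ℤ)
    (hint : ∀ t, Nat.Coprime t p → Polynomial.aeval (ζ ^ t) P / (p : ℂ) ^ d ∈ O)
    (hreal : ∀ t, Nat.Coprime t p → ∃ r : ℝ, 0 ≤ r ∧ r ≤ (p : ℝ) ^ d ∧
      Polynomial.aeval (ζ ^ t) P = (r : ℂ)) :
    (∃ t, Nat.Coprime t p ∧ Polynomial.aeval (ζ ^ t) P = 0) ∨
      ∃ t, Nat.Coprime t p ∧ Polynomial.aeval (ζ ^ t) P = (p : ℂ) ^ d := by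
  haveI : NeZero (p ^ k) := ⟨pow_ne_zero _ hp.out.ne_zero⟩
  haveI : FiniteDimensional ℚ K := IsCyclotomicExtension.finiteDimensional {p ^ k} ℚ K
  have hζK := IsCyclotomicExtension.zeta_spec (p ^ k) ℚ K
  set ζK := IsCyclotomicExtension.zeta (p ^ k) ℚ K with hζKd
  set x : K := Polynomial.aeval ζK P with hx
  have hxi : IsIntegral ℤ x := by
    have h1 : IsIntegral ℤ ζK := hζK.isIntegral (pow_pos hp.out.pos k)
    exact IsIntegral.of_mem_of_fg _ (h1.fg_adjoin_singleton) x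
      (Polynomial.aeval_mem_adjoin_singleton ℤ ζK)
  obtain ⟨n, hn⟩ := IsIntegrallyClosed.isIntegral_iff.mp (Algebra.isIntegral_norm ℚ hxi)
  have hprod := Algebra.norm_eq_prod_embeddings ℚ (L := K) ℂ x
  rw [← hn] at hprod
  have hσ : ∀ σ : K →ₐ[ℚ] ℂ, ∃ t, Nat.Coprime t p ∧ ζ ^ t = σ ζK := by
    intro σ
    exact prim_pow hζ (hζK.map_of_injective σ.injective)
  choose t ht1 ht2 using hσ
  have hσx : ∀ σ : K →ₐ[ℚ] ℂ, σ x = Polynomial.aeval (ζ ^ t σ) P := by
    intro σ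
    rw [ht2, hx]
    have := Polynomial.aeval_algHom_apply (σ.restrictScalars ℤ) ζK P
    exact this.symm
  choose r hr0 hr1 hr2 using fun σ : K →ₐ[ℚ] ℂ => hreal (t σ) (ht1 σ)
  have hcast : (algebraMap ℚ ℂ) ((algebraMap ℤ ℚ) n) = (n : ℂ) := by simp
  rw [hcast] at hprod
  have hprod2 : (n : ℂ) = ((∏ σ : K →ₐ[ℚ] ℂ, r σ : ℝ) : ℂ) := by
    rw [hprod]
    push_cast
    exact Finset.prod_congr rfl fun σ _ => by rw [hσx, hr2]
  have hn2 : (n : ℝ) = ∏ σ : K →ₐ[ℚ] ℂ, r σ := by exact_mod_cast hprod2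
  have hn0 : 0 ≤ n := by
    have : (0 : ℝ) ≤ n := by
      rw [hn2]
      exact Finset.prod_nonneg fun σ _ => hr0 σ
    exact_mod_cast this
  obtain ⟨m, rfl⟩ := Int.eq_ofNat_of_zero_le hn0
  by_cases hm : m = 0
  · left
    have h0 : ∏ σ : K →ₐ[ℚ] ℂ, r σ = 0 := by
      rw [← hn2, hm]
      simp
    obtain ⟨σ, -, hσ⟩ := Finset.prod_eq_zero_iff.mp h0
    exact ⟨t σ, ht1 σ, by rw [hr2, hσ]; simp⟩
  · right
    have hp0 : (p : ℂ) ≠ 0 := by exact_mod_cast hp.out.ne_zero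
    have hO : (m : ℂ) / (p : ℂ) ^ (d * Fintype.card (K →ₐ[ℚ] ℂ)) ∈ O := by
      have h1 : (m : ℂ) / (p : ℂ) ^ (d * Fintype.card (K →ₐ[ℚ] ℂ)) =
          ∏ σ : K →ₐ[ℚ] ℂ, (Polynomial.aeval (ζ ^ t σ) P / (p : ℂ) ^ d) := by
        rw [Finset.prod_div_distrib, Finset.prod_const, Finset.card_univ, ← pow_mul]
        congr 1
        have h2 : ((m : ℤ) : ℂ) = (m : ℂ) := by push_cast; rfl
        rw [← h2, hprod]
        exact Finset.prod_congr rfl fun σ _ => hσx σ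
      rw [h1]
      exact prod_mem fun σ _ => hint _ (ht1 σ)
    have hdvd := dvd_of_div_mem hpO hO
    have hle := Nat.le_of_dvd (Nat.pos_of_ne_zero hm) hdvd
    obtain ⟨σ⟩ : Nonempty (K →ₐ[ℚ] ℂ) := ⟨IsAlgClosed.lift (R := ℚ) (S := K)⟩
    refine ⟨t σ, ht1 σ, ?_⟩
    rw [hr2]
    have hpos : ∀ σ : K →ₐ[ℚ] ℂ, 0 < r σ := by
      intro σ
      rcases (hr0 σ).lt_or_eq with h | h
      · exact h
      · exfalso
        have h2 : ∏ σ : K →ₐ[ℚ] ℂ, r σ = 0 := Finset.prod_eq_zero (Finset.mem_univ σ) h.symm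
        rw [← hn2] at h2
        apply hm
        exact_mod_cast h2
    have heq : r σ = (p : ℝ) ^ d := by
      by_contra hne
      have hlt : r σ < (p : ℝ) ^ d := lt_of_le_of_ne (hr1 σ) hne
      have h1 : ∏ σ : K →ₐ[ℚ] ℂ, r σ < ∏ σ : K →ₐ[ℚ] ℂ, (p : ℝ) ^ d :=
        Finset.prod_lt_prod (fun σ _ => hpos σ) (fun σ _ => hr1 σ) ⟨σ, Finset.mem_univ σ, hlt⟩
      rw [← hn2, Finset.prod_const, Finset.card_univ, ← pow_mul] at h1
      have h2 : ((m : ℕ) : ℝ) < (p : ℝ) ^ (d * Fintype.card (K →ₐ[ℚ] ℂ)) := by simpa using h1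
      have h3 : m < p ^ (d * Fintype.card (K →ₐ[ℚ] ℂ)) := by exact_mod_cast h2
      exact absurd hle (not_le.mpr h3)
    rw [heq]
    push_cast
    rfl

/-- the norm argument -/
theorem norm_dich {O : ValuationSubring ℂ} {p k d : ℕ} [hp : Fact p.Prime]
    (hpO : (p : ℂ) ∈ O.nonunits) {ζ : ℂ} (hζ : IsPrimitiveRoot ζ (p ^ k)) (P : Polynomial ℤ)
    (hint : ∀ t, Nat.Coprime t p → Polynomial.aeval (ζ ^ t) P / (p : ℂ) ^ d ∈ O)
    (hreal : ∀ t, Nat.Coprime t p → ∃ r : ℝ, 0 ≤ r ∧ r ≤ (p : ℝ) ^ d ∧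
      Polynomial.aeval (ζ ^ t) P = (r : ℂ)) :
    (∃ t, Nat.Coprime t p ∧ Polynomial.aeval (ζ ^ t) P = 0) ∨
      ∃ t, Nat.Coprime t p ∧ Polynomial.aeval (ζ ^ t) P = (p : ℂ) ^ d := by
  haveI : NeZero (p ^ k) := ⟨pow_ne_zero _ hp.out.ne_zero⟩
  haveI : NeZero ((p ^ k : ℕ) : ℚ) := ⟨by exact_mod_cast (NeZero.ne (p ^ k))⟩
  haveI : IsCyclotomicExtension {p ^ k} ℚ (CyclotomicField (p ^ k) ℚ) :=
    CyclotomicField.isCyclotomicExtension (p ^ k) ℚ
  exact norm_dich' (CyclotomicField (p ^ k) ℚ) hpO hζ P hint hreal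

/-- nonvanishing at all conjugates -/
theorem conj_ne {p k : ℕ} [hp : Fact p.Prime] {ζ : ℂ} (hζ : IsPrimitiveRoot ζ (p ^ k))
    (P : Polynomial ℤ) (h1 : Polynomial.aeval ζ P ≠ 0) {t : ℕ} (ht : Nat.Coprime t p) :
    Polynomial.aeval (ζ ^ t) P ≠ 0 := by
  intro h0
  apply h1
  have hpos : 0 < p ^ k := pow_pos hp.out.pos k
  have hζt : IsPrimitiveRoot (ζ ^ t) (p ^ k) := hζ.pow_of_coprime t (Nat.Coprime.pow_right k ht)
  have e1 : minpoly ℚ (ζ ^ t) = minpoly ℚ ζ := by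
    rw [← Polynomial.cyclotomic_eq_minpoly_rat hζt hpos, ← Polynomial.cyclotomic_eq_minpoly_rat hζ hpos]
  have e2 : Polynomial.aeval (ζ ^ t) (P.map (algebraMap ℤ ℚ)) = 0 := by
    rw [Polynomial.aeval_map_algebraMap]
    exact h0
  have e3 := minpoly.dvd ℚ _ e2
  rw [e1] at e3
  obtain ⟨Q, hQ⟩ := e3
  have e4 := congrArg (Polynomial.aeval ζ) hQ
  rw [map_mul, minpoly.aeval, zero_mul, Polynomial.aeval_map_algebraMap] at e4
  exact e4

/-- an integral symmetric idempotent-type matrix of trace one -/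
theorem rank_one {ι : Type*} [Fintype ι] {p d : ℕ} (hp : p.Prime) (M : ι → ι → ℤ)
    (hsym : ∀ i j, M i j = M j i) (hsq : ∀ i j, ∑ l, M i l * M l j = p ^ d * M i j)
    (htr : ∑ i, M i i = p ^ d) (i₀ : ι) (hi₀ : ¬ (p : ℤ) ∣ M i₀ i₀) :
    ∃ z : ι → ℤ, ∑ i, ∑ j, z i * z j * M i j = 1 := by
  have hp0 : (0 : ℤ) < p ^ d := by exact_mod_cast pow_pos hp.pos d
  -- rows
  have hrow : ∀ i j, ∑ l, M i l * M j l = p ^ d * M i j := by
    intro i j
    rw [← hsq]
    exact Finset.sum_congr rfl fun l _ => by rw [hsym j l]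
  have hdiff : ∀ i j, ∑ l, (M i i * M j l - M i j * M i l) ^ 2 =
      p ^ d * M i i * (M i i * M j j - M i j * M i j) := by
    intro i j
    have h1 : ∀ l, (M i i * M j l - M i j * M i l) ^ 2 = M i i * M i i * (M j l * M j l) -
        2 * (M i i * M i j) * (M i l * M j l) + M i j * M i j * (M i l * M i l) := by
      intro l; ring
    rw [Finset.sum_congr rfl (fun l _ => h1 l), Finset.sum_add_distrib, Finset.sum_sub_distrib,
      ← Finset.mul_sum, ← Finset.mul_sum, ← Finset.mul_sum, hrow, hrow, hrow]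
    ring
  have hnn : ∀ i, 0 ≤ M i i := by
    intro i
    have h1 := hrow i i
    have h2 : 0 ≤ ∑ l, M i l * M i l := Finset.sum_nonneg fun l _ => mul_self_nonneg _
    rw [h1] at h2
    exact nonneg_of_mul_nonneg_right h2 hp0
  have hmin : ∀ i j, 0 ≤ M i i * M j j - M i j * M i j := by
    intro i j
    rcases (hnn i).lt_or_eq with h | h
    · have h1 : 0 ≤ ∑ l, (M i i * M j l - M i j * M i l) ^ 2 :=
        Finset.sum_nonneg fun l _ => sq_nonneg _
      rw [hdiff] at h1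
      exact nonneg_of_mul_nonneg_right h1 (mul_pos hp0 h)
    · have h1 := hrow i i
      rw [← h, mul_zero, Finset.sum_eq_zero_iff_of_nonneg (fun _ _ => mul_self_nonneg _)] at h1
      have h2 := mul_self_eq_zero.mp (h1 j (Finset.mem_univ j))
      rw [h2, ← h]
      simp
  have hmin0 : ∀ i j, M i i * M j j - M i j * M i j = 0 := by
    have h1 : ∑ i, ∑ j, (M i i * M j j - M i j * M i j) = 0 := by
      have h2 : ∑ i, ∑ j, M i i * M j j = (p : ℤ) ^ d * p ^ d := by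
        rw [← Finset.sum_mul_sum, htr]
      have h3 : ∑ i, ∑ j, M i j * M i j = (p : ℤ) ^ d * p ^ d := by
        rw [Finset.sum_congr rfl (fun i _ => hrow i i), ← Finset.mul_sum, htr]
      simp only [Finset.sum_sub_distrib]
      rw [h2, h3, sub_self]
    intro i j
    rw [Finset.sum_eq_zero_iff_of_nonneg
      (fun i _ => Finset.sum_nonneg fun j _ => hmin i j)] at h1
    have h2 := h1 i (Finset.mem_univ i)
    rw [Finset.sum_eq_zero_iff_of_nonneg (fun j _ => hmin i j)] at h2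
    exact h2 j (Finset.mem_univ j)
  have hrel : ∀ i j l, M i i * M j l = M i j * M i l := by
    intro i j l
    have h1 := hdiff i j
    rw [hmin0, mul_zero, Finset.sum_eq_zero_iff_of_nonneg (fun _ _ => sq_nonneg _)] at h1
    have h2 := pow_eq_zero_iff (two_ne_zero) |>.mp (h1 l (Finset.mem_univ l))
    linarith
  -- the greatest common divisor of a row
  have hm0 : M i₀ i₀ ≠ 0 := fun h => hi₀ (by rw [h]; exact dvd_zero _)
  obtain ⟨g, hg⟩ : ∃ g : ℤ, Ideal.span (Set.range (M i₀)) = Ideal.span {g} :=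
    (IsPrincipalIdealRing.principal (Ideal.span (Set.range (M i₀)))).principal
  have hgd : ∀ j, g ∣ M i₀ j := by
    intro j
    rw [← Ideal.mem_span_singleton, ← hg]
    exact Ideal.subset_span ⟨j, rfl⟩
  have hgz : ∃ z : ι → ℤ, ∑ j, z j * M i₀ j = g := by
    have h1 : g ∈ Ideal.span (Set.range (M i₀)) := by
      rw [hg]
      exact Ideal.mem_span_singleton_self g
    obtain ⟨z, hz⟩ := (Ideal.mem_span_range_iff_exists_fun).mp h1
    exact ⟨z, hz⟩
  obtain ⟨z, hz⟩ := hgz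
  choose w hw using hgd
  have hg0 : g ≠ 0 := by
    rintro rfl
    exact hm0 (by rw [hw i₀, zero_mul])
  have hzw : ∑ j, z j * w j = 1 := by
    have h1 : g * ∑ j, z j * w j = g * 1 := by
      rw [mul_one, Finset.mul_sum]
      conv_rhs => rw [← hz]
      exact Finset.sum_congr rfl fun j _ => by rw [hw j]; ring
    exact mul_left_cancel₀ hg0 h1
  set m : ℤ := ∑ i, ∑ j, z i * z j * M i j with hm
  have h1 : M i₀ i₀ * m = g * g := by
    have h2 : M i₀ i₀ * m = (∑ i, z i * M i₀ i) * ∑ j, z j * M i₀ j := by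
      rw [hm, Finset.mul_sum, Finset.sum_mul_sum]
      refine Finset.sum_congr rfl fun i _ => ?_
      rw [Finset.mul_sum]
      refine Finset.sum_congr rfl fun j _ => ?_
      have := hrel i₀ i j
      calc M i₀ i₀ * (z i * z j * M i j) = z i * z j * (M i₀ i₀ * M i j) := by ring
        _ = _ := by rw [this]; ring
    rw [h2, hz]
  have h2 : w i₀ * m = g := by
    have h3 : g * (w i₀ * m) = g * g := by rw [← h1]; rw [hw i₀]; ring
    exact mul_left_cancel₀ hg0 h3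
  have h3 : ∀ j l, M j l = m * (w j * w l) := by
    intro j l
    have h4 := hrel i₀ j l
    rw [hw j, hw l] at h4
    have h5 : M i₀ i₀ * M j l = M i₀ i₀ * (m * (w j * w l)) := by
      rw [h4]
      calc g * w j * (g * w l) = (g * g) * (w j * w l) := by ring
        _ = _ := by rw [← h1]; ring
    exact mul_left_cancel₀ hm0 h5
  have h4 : m * ∑ i, w i * w i = p ^ d := by
    rw [← htr, Finset.mul_sum]
    exact Finset.sum_congr rfl fun i _ => (h3 i i).symm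
  have h5 : ¬ (p : ℤ) ∣ m := by
    intro h
    apply hi₀
    rw [h3]
    exact h.mul_right _
  have h6 : IsUnit m := by
    have h7 : m ∣ (p : ℤ) ^ d := Dvd.intro _ h4
    have hpp : Prime (p : ℤ) := Nat.prime_iff_prime_int.mp hp
    have h8 : IsCoprime m ((p : ℤ) ^ d) :=
      ((hpp.coprime_iff_not_dvd.mpr h5).symm).pow_right
    exact h8.isUnit_of_dvd' (dvd_refl m) h7
  have h7 : 0 < m := by
    have h8 : 0 < m * ∑ i, w i * w i := by rw [h4]; exact hp0
    have h9 : 0 ≤ ∑ i, w i * w i := Finset.sum_nonneg fun i _ => mul_self_nonneg _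
    by_contra hcon
    push Not at hcon
    have := mul_nonpos_of_nonpos_of_nonneg hcon h9
    linarith
  refine ⟨z, ?_⟩
  rcases Int.isUnit_iff.mp h6 with h | h
  · rw [← hm]; exact h
  · omega

end Run7.h179
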