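import Mathlib
import Pool.Agent.Run7.h179.Har2
import Pool.Agent.Run7.h179.Nt

/-!
Major subsections with one irreducible Brauer character.
-/

set_option autoImplicit false
set_option linter.style.haveILetI false
set_option linter.unusedSectionVars false

open scoped BigOperators Classical
open Pool.Agent.Helper884 Pool.Agent.H254R3.IN Pool.Agent.N20

noncomputable section

namespace Run7.h179

variable {G : Type} [Group G] [Fintype G]

/-- A major subsection with a virtual character of least possible norm. -/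
theorem har_of_vec {p : ℕ} (hp : p.Prime) {O : ValuationSubring ℂ}
    (hpO : (p : ℂ) ∈ O.nonunits) {D : Subgroup G} {B : Set (G → ℂ)} (hB : IsBlock O B)
    (hD : IsDefectGroup p O B D) {u : G} {k : ℕ} (hu : orderOf u = p ^ k)
    {b : Set (CC u → ℂ)} (hb : IsBlock O b) {D' : Subgroup (CC u)}
    (hD' : IsDefectGroup p O b D') (hcard : Nat.card D' = Nat.card D)
    (hbB : Induces O B (CC u) b) (z : {θ // θ ∈ XB b} → ℤ)
    (hz : (Nat.card D : ℂ) * ∑ θ, ∑ η, (z θ : ℂ) * z η *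
      IC.B (cut p (θ : CC u → ℂ)) (η : CC u → ℂ) = 1)
    {J : Finset (G → ℂ)} (hJn : J.Nonempty) (hJB : ∀ χ ∈ J, χ ∈ B)
    (hJ : ∀ g : G, p ∣ orderOf g → SJ J g = 0) : ∀ χ ∈ B, χ ∈ J := by
  haveI : Fact p.Prime := ⟨hp⟩
  haveI := charP_RF hpO
  obtain ⟨d, hd⟩ := IsPGroup.iff_card.mp (Pool.Agent.N20.defect_pgroup hD)
  have hD0 : (Nat.card D : ℂ) ≠ 0 := by exact_mod_cast Nat.card_pos.ne'
  have hDp : (Nat.card D : ℂ) = (p : ℂ) ^ d := by rw [hd]; push_cast; rfl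
  have hDne : (Nat.card D' : ℂ) = Nat.card D := by rw [hcard]
  have hmem : ∀ θ : {θ // θ ∈ XB b}, (θ : CC u → ℂ) ∈ b := fun θ => (mem_XB hb.irr).mp θ.2
  have hirr : ∀ θ : {θ // θ ∈ XB b}, IsIrr (θ : CC u → ℂ) := fun θ => hb.irr _ (hmem θ)
  choose M hM using fun θ η : {θ // θ ∈ XB b} => contr_int hpO hb hD' (hmem θ) (hmem η)
  simp only [hcard] at hM
  have hzM : ∑ θ, ∑ η, (z θ : ℂ) * z η * M θ η = 1 := by
    rw [← hz, Finset.mul_sum]
    refine Finset.sum_congr rfl fun θ _ => ?_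
    rw [Finset.mul_sum]
    refine Finset.sum_congr rfl fun η _ => ?_
    rw [hM]
    ring
  obtain ⟨θ₀, hθ₀⟩ := hb.nonempty
  have hredM : ∀ θ η, ((M θ η : ℤ) : RF O) = red O (uu D' (θ : CC u → ℂ)) * sr p O θ₀ η := by
    intro θ η
    rw [← red_intCast, hM, ← hDne, card_mul_B D' (hirr θ) (fun g y => (hirr η).conj g y),
      red_mul (Pool.Agent.N20.uu_mem hpO hb hD' (hmem θ)) (SS_mem (hirr θ) (hirr η)),
      red_SS (hirr θ) (hirr η), sr_block hb (hmem θ) hθ₀]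
  have hzu : (∑ θ, (z θ : RF O) * red O (uu D' (θ : CC u → ℂ))) ≠ 0 := by
    intro h0
    have h1 : ((∑ θ, ∑ η, z θ * z η * M θ η : ℤ) : RF O) = 1 := by
      have h2 : (∑ θ, ∑ η, z θ * z η * M θ η : ℤ) = 1 := by exact_mod_cast hzM
      rw [h2, Int.cast_one]
    have h2 : ((∑ θ, ∑ η, z θ * z η * M θ η : ℤ) : RF O) =
        (∑ θ, (z θ : RF O) * red O (uu D' (θ : CC u → ℂ))) *
          ∑ η : {θ // θ ∈ XB b}, (z η : RF O) * sr p O θ₀ η := by
      rw [Finset.sum_mul_sum]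
      push_cast
      refine Finset.sum_congr rfl fun θ _ => Finset.sum_congr rfl fun η _ => ?_
      rw [hredM]
      ring
    rw [h2, h0, zero_mul] at h1
    exact zero_ne_one h1
  -- the values on the sections
  set x : ℕ → (G → ℂ) → ℂ := fun t χ =>
    ∑ θ : {θ // θ ∈ XB b}, (z θ : ℂ) * ((Nat.card D : ℂ) * JJ p u t θ χ) with hx
  have hne1 : ∀ χ ∈ B, x 1 χ ≠ 0 := by
    intro χ hχ h0
    have hX := hB.irr χ hχ
    have h1 : uu D χ * ∑ θ : {θ // θ ∈ XB b}, (z θ : ℂ) * TG p u χ θ = 0 := by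
      rw [← h0, hx, Finset.mul_sum]
      refine Finset.sum_congr rfl fun θ _ => ?_
      rw [card_JJ hu D hX (hirr θ)]
      ring
    have h2 := (mul_eq_zero.mp h1).resolve_left (uu_ne hX)
    have h3 := congrArg (red O) h2
    rw [red_zero, red_sum _ _ (fun θ _ => O.mul_mem _ _ (intCast_mem' _)
      (TG_mem hX (hirr θ)))] at h3
    have h4 : (∑ θ, (z θ : RF O) * red O (uu D' (θ : CC u → ℂ))) * ccG O p D χ = 0 := by
      rw [← h3, Finset.sum_mul]
      refine Finset.sum_congr rfl fun θ _ => ?_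
      rw [red_mul (intCast_mem' _) (TG_mem hX (hirr θ)), red_intCast,
        red_TG hpO hB hD hu hb hD' hcard hbB hχ (hmem θ)]
      ring
    exact (mul_ne_zero hzu (Pool.Agent.N20.cc_ne hpO hB hD hχ)) h4
  -- polynomials
  obtain ⟨ζ, hζ⟩ : ∃ ζ : ℂ, IsPrimitiveRoot ζ (p ^ k) :=
    ⟨_, Complex.isPrimitiveRoot_exp (p ^ k) (pow_ne_zero _ hp.ne_zero)⟩
  have hcu : ∀ η : {θ // θ ∈ XB b}, ∃ j : ℕ, ζ ^ j = cu u (η : CC u → ℂ) := by
    intro η
    haveI : NeZero (p ^ k) := ⟨pow_ne_zero _ hp.ne_zero⟩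
    obtain ⟨i, -, hi⟩ := hζ.eq_pow_of_pow_eq_one (by rw [← hu]; exact cu_pow u (hirr η))
    exact ⟨i, hi⟩
  choose jj hjj using hcu
  choose! n hn using fun (χ : G → ℂ) (hχ : IsIrr χ) (η : {θ // θ ∈ XB b}) =>
    mm_int u hχ (hirr η)
  set X : (G → ℂ) → Polynomial ℤ := fun χ => ∑ η : {θ // θ ∈ XB b},
    Polynomial.C ((∑ θ, z θ * M θ η) * n χ η) * Polynomial.X ^ jj η with hX
  have hXv : ∀ (t : ℕ) (χ : G → ℂ), IsIrr χ → Polynomial.aeval (ζ ^ t) (X χ) = x t χ := by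
    intro t χ hχ
    have e1 : ∀ θ : {θ // θ ∈ XB b}, (Nat.card D : ℂ) * JJ p u t θ χ =
        ∑ η : {θ // θ ∈ XB b}, (M θ η : ℂ) * n χ η * cu u (η : CC u → ℂ) ^ t := by
      intro θ
      rw [JJ_eq hpO u hb (hmem θ) hχ t, Finset.mul_sum,
        ← Finset.sum_coe_sort (XB b) (fun η : CC u → ℂ =>
          (Nat.card D : ℂ) * (mm u χ η * cu u η ^ t * IC.B (cut p (θ : CC u → ℂ)) η))]
      refine Finset.sum_congr rfl fun η _ => ?_
      rw [hM, hn χ hχ]
      ring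
    rw [hX, hx]
    simp only [map_sum, map_mul, Polynomial.aeval_C, map_pow, Polynomial.aeval_X]
    simp only [e1, Finset.mul_sum]
    rw [Finset.sum_comm]
    refine Finset.sum_congr rfl fun η _ => ?_
    have e2 : (ζ ^ t) ^ jj η = cu u (η : CC u → ℂ) ^ t := by
      rw [← hjj, ← pow_mul, ← pow_mul, mul_comm]
    rw [e2]
    simp only [algebraMap_int_eq, eq_intCast]
    push_cast
    rw [Finset.sum_mul, Finset.sum_mul]
    exact Finset.sum_congr rfl fun θ _ => by ring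
  have hne : ∀ χ ∈ B, ∀ t, Nat.Coprime t p → x t χ ≠ 0 := by
    intro χ hχ t ht
    have hχi := hB.irr χ hχ
    rw [← hXv t χ hχi]
    refine conj_ne hζ _ ?_ ht
    have := hXv 1 χ hχi
    rw [pow_one] at this
    rw [this]
    exact hne1 χ hχ
  have hconj : ∀ (t : ℕ) (χ : G → ℂ), IsIrr χ →
      (starRingEnd ℂ) (x t χ) = x (t * (p ^ (k + 1) - 1)) χ := by
    intro t χ hχ
    rw [hx]
    simp only [map_sum, map_mul, map_intCast, Complex.conj_natCast]
    refine Finset.sum_congr rfl fun θ _ => ?_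
    rw [conj_JJ hu t (hirr θ) hχ]
  -- the total
  have htot : ∀ t, Nat.Coprime t p →
      ∑ χ ∈ IC.Irr G, (starRingEnd ℂ) (x t χ) * x t χ = Nat.card D := by
    intro t ht
    have h1 : ∀ χ, (starRingEnd ℂ) (x t χ) * x t χ = ∑ θ : {θ // θ ∈ XB b},
        ∑ θ' : {θ // θ ∈ XB b}, (z θ : ℂ) * z θ' * ((Nat.card D : ℂ) * (Nat.card D : ℂ)) *
          ((starRingEnd ℂ) (JJ p u t θ χ) * JJ p u t θ' χ) := by
      intro χ
      rw [hx]
      simp only [map_sum, map_mul, map_intCast, Complex.conj_natCast]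
      rw [Finset.sum_mul_sum]
      refine Finset.sum_congr rfl fun θ _ => Finset.sum_congr rfl fun θ' _ => ?_
      ring
    rw [Finset.sum_congr rfl (fun χ _ => h1 χ), Finset.sum_comm]
    have h2 : ∀ θ θ' : {θ // θ ∈ XB b},
        ∑ χ ∈ IC.Irr G, (z θ : ℂ) * z θ' * ((Nat.card D : ℂ) * (Nat.card D : ℂ)) *
          ((starRingEnd ℂ) (JJ p u t θ χ) * JJ p u t θ' χ) =
        (Nat.card D : ℂ) * ((z θ : ℂ) * z θ' * M θ θ') := by
      intro θ θ'
      have h3 := sec_frame hu ht (a := (θ : CC u → ℂ)) (a' := (θ' : CC u → ℂ))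
        (fun s => (Pool.Agent.Y62.conj_char (hirr θ) s).symm) (fun g y => (hirr θ').conj g y)
        (fun s => (Pool.Agent.Y62.conj_char (hirr θ') s).symm)
      rw [← Finset.mul_sum, h3, hM]
      ring
    calc ∑ θ : {θ // θ ∈ XB b}, ∑ χ ∈ IC.Irr G, ∑ θ' : {θ // θ ∈ XB b},
          (z θ : ℂ) * z θ' * ((Nat.card D : ℂ) * (Nat.card D : ℂ)) *
          ((starRingEnd ℂ) (JJ p u t θ χ) * JJ p u t θ' χ)
        = ∑ θ : {θ // θ ∈ XB b}, ∑ θ' : {θ // θ ∈ XB b},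
            (Nat.card D : ℂ) * ((z θ : ℂ) * z θ' * M θ θ') := by
          refine Finset.sum_congr rfl fun θ _ => ?_
          rw [Finset.sum_comm]
          exact Finset.sum_congr rfl fun θ' _ => h2 θ θ'
      _ = (Nat.card D : ℂ) * ∑ θ, ∑ θ', (z θ : ℂ) * z θ' * M θ θ' := by
          simp only [Finset.mul_sum]
      _ = Nat.card D := by rw [hzM, mul_one]
  have hJirr : J ⊆ IC.Irr G := fun χ hχ => mem_Irr.mpr (hB.irr χ (hJB χ hχ))
  -- the polynomial of `J`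
  set P : Polynomial ℤ := ∑ χ ∈ J, (X χ).comp (Polynomial.X ^ (p ^ (k + 1) - 1)) * X χ with hP
  have hPv : ∀ t, Polynomial.aeval (ζ ^ t) P =
      ∑ χ ∈ J, (starRingEnd ℂ) (x t χ) * x t χ := by
    intro t
    rw [hP, map_sum]
    refine Finset.sum_congr rfl fun χ hχ => ?_
    have hχi := hB.irr χ (hJB χ hχ)
    rw [map_mul, Polynomial.aeval_comp, map_pow, Polynomial.aeval_X, ← pow_mul, hXv _ χ hχi,
      hXv _ χ hχi, hconj t χ hχi]
  have hreal : ∀ (t : ℕ) (S : Finset (G → ℂ)), ∑ χ ∈ S, (starRingEnd ℂ) (x t χ) * x t χ =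
      ((∑ χ ∈ S, Complex.normSq (x t χ) : ℝ) : ℂ) := by
    intro t S
    rw [Complex.ofReal_sum]
    refine Finset.sum_congr rfl fun χ _ => ?_
    rw [mul_comm, Complex.mul_conj]
  have htotR : ∀ t, Nat.Coprime t p →
      ∑ χ ∈ IC.Irr G, Complex.normSq (x t χ) = (p : ℝ) ^ d := by
    intro t ht
    have h1 := htot t ht
    rw [hreal, hDp] at h1
    exact_mod_cast h1
  have hdich := norm_dich (O := O) (d := d) hpO hζ P (by
    intro t ht
    rw [hPv, ← hDp]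
    have h1 : (∑ χ ∈ J, (starRingEnd ℂ) (x t χ) * x t χ) / (Nat.card D : ℂ) =
        ∑ θ : {θ // θ ∈ XB b}, ∑ θ' : {θ // θ ∈ XB b}, ((z θ * z θ' : ℤ) : ℂ) *
          ((Nat.card D : ℂ) * ∑ χ ∈ J, JJ p u (t * (p ^ (k + 1) - 1)) θ χ * JJ p u t θ' χ) := by
      have h2 : ∀ χ ∈ J, (starRingEnd ℂ) (x t χ) * x t χ = ∑ θ : {θ // θ ∈ XB b},
          ∑ θ' : {θ // θ ∈ XB b}, (z θ : ℂ) * z θ' * ((Nat.card D : ℂ) * (Nat.card D : ℂ)) *
            (JJ p u (t * (p ^ (k + 1) - 1)) θ χ * JJ p u t θ' χ) := by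
        intro χ hχ
        rw [hconj t χ (hB.irr χ (hJB χ hχ)), hx]
        simp only []
        rw [Finset.sum_mul_sum]
        refine Finset.sum_congr rfl fun θ _ => Finset.sum_congr rfl fun θ' _ => ?_
        ring
      rw [Finset.sum_congr rfl h2, Finset.sum_comm, Finset.sum_div]
      refine Finset.sum_congr rfl fun θ _ => ?_
      rw [Finset.sum_comm, Finset.sum_div]
      refine Finset.sum_congr rfl fun θ' _ => ?_
      rw [← Finset.mul_sum]
      push_cast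
      field_simp
    rw [h1]
    refine sum_mem fun θ _ => sum_mem fun θ' _ => O.mul_mem _ _ (intCast_mem' _) ?_
    exact pair_mem hpO hB hD hJB hJ hu hu (coprime_inv hp ht) ht
      (fun g y => (hirr θ).conj g y) (fun g y => (hirr θ').conj g y)
      (fun s => (hirr θ).val_mem O s) (fun s => (hirr θ').val_mem O s)) (by
    intro t ht
    refine ⟨∑ χ ∈ J, Complex.normSq (x t χ), Finset.sum_nonneg fun χ _ => Complex.normSq_nonneg _,
      ?_, ?_⟩
    · rw [← htotR t ht]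
      exact Finset.sum_le_sum_of_subset_of_nonneg hJirr fun χ _ _ => Complex.normSq_nonneg _
    · rw [hPv, hreal])
  rcases hdich with ⟨t, ht, h0⟩ | ⟨t, ht, h1⟩
  · exfalso
    rw [hPv, hreal] at h0
    have h2 : ∑ χ ∈ J, Complex.normSq (x t χ) = 0 := by exact_mod_cast h0
    obtain ⟨χ, hχ⟩ := hJn
    rw [Finset.sum_eq_zero_iff_of_nonneg (fun _ _ => Complex.normSq_nonneg _)] at h2
    exact hne χ (hJB χ hχ) t ht (Complex.normSq_eq_zero.mp (h2 χ hχ))
  · intro χ hχ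
    by_contra hχJ
    rw [hPv, hreal] at h1
    have h2 : ∑ χ ∈ J, Complex.normSq (x t χ) = (p : ℝ) ^ d := by exact_mod_cast h1
    have h3 := htotR t ht
    rw [← Finset.sum_sdiff hJirr, h2] at h3
    have h4 : ∑ χ ∈ IC.Irr G \ J, Complex.normSq (x t χ) = 0 := by linarith
    rw [Finset.sum_eq_zero_iff_of_nonneg (fun _ _ => Complex.normSq_nonneg _)] at h4
    exact hne χ hχ t ht (Complex.normSq_eq_zero.mp (h4 χ
      (Finset.mem_sdiff.mpr ⟨mem_Irr.mpr (hB.irr χ hχ), hχJ⟩)))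

/-- a block with one Brauer character has a virtual character of least possible norm -/
theorem exists_vec {p : ℕ} (hp : p.Prime) {O : ValuationSubring ℂ}
    (hpO : (p : ℂ) ∈ O.nonunits) {B : Set (G → ℂ)} (hB : IsBlock O B) {D : Subgroup G}
    (hD : IsDefectGroup p O B D) (hl : lB p B = 1) : ∃ z : {θ // θ ∈ XB B} → ℤ,
    (Nat.card D : ℂ) * ∑ θ, ∑ η, (z θ : ℂ) * z η *
      IC.B (cut p (θ : G → ℂ)) (η : G → ℂ) = 1 := by
  haveI : Fact p.Prime := ⟨hp⟩
  haveI := charP_RF hpO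
  obtain ⟨d, hd⟩ := IsPGroup.iff_card.mp (Pool.Agent.N20.defect_pgroup hD)
  have hDp : (Nat.card D : ℂ) = (p : ℂ) ^ d := by rw [hd]; push_cast; rfl
  have hmem : ∀ θ : {θ // θ ∈ XB B}, (θ : G → ℂ) ∈ B := fun θ => (mem_XB hB.irr).mp θ.2
  have hirr : ∀ θ : {θ // θ ∈ XB B}, IsIrr (θ : G → ℂ) := fun θ => hB.irr _ (hmem θ)
  choose M hM using fun θ η : {θ // θ ∈ XB B} => contr_int hpO hB hD (hmem θ) (hmem η)
  have hsym : ∀ θ η : {θ // θ ∈ XB B}, M θ η = M η θ := by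
    intro θ η
    have : (M θ η : ℂ) = M η θ := by
      rw [hM, hM, B_cut_comm]
    exact_mod_cast this
  have hsq : ∀ θ η, ∑ φ, M θ φ * M φ η = p ^ d * M θ η := by
    intro θ η
    have : ((∑ φ, M θ φ * M φ η : ℤ) : ℂ) = ((p ^ d * M θ η : ℤ) : ℂ) := by
      have h1 := B_cut_idem hpO hB (χ := θ) (ψ := η) (hmem θ)
      rw [← Finset.sum_coe_sort (XB B)
        (fun φ : G → ℂ => IC.B (cut p (θ : G → ℂ)) φ * IC.B (cut p φ) η)] at h1
      push_cast
      simp only [hM]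
      rw [← h1, ← hDp, Finset.mul_sum, Finset.mul_sum]
      refine Finset.sum_congr rfl fun φ _ => ?_
      ring
    exact_mod_cast this
  have htr : ∑ θ, M θ θ = p ^ d := by
    have : ((∑ θ, M θ θ : ℤ) : ℂ) = ((p ^ d : ℤ) : ℂ) := by
      push_cast
      simp only [hM]
      rw [← Finset.mul_sum, Finset.sum_coe_sort (XB B) (fun φ : G → ℂ => IC.B (cut p φ) φ),
        trace_eq hpO hB, hl, hDp]
      simp
    exact_mod_cast this
  obtain ⟨θ₀, hθ₀, hθ₀ne⟩ := exists_uu_ne hpO hB hD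
  have hi₀ : ¬ (p : ℤ) ∣ M ⟨θ₀, (mem_XB hB.irr).mpr hθ₀⟩ ⟨θ₀, (mem_XB hB.irr).mpr hθ₀⟩ := by
    intro hdvd
    have h1 := (CharP.intCast_eq_zero_iff (RF O) p _).mpr hdvd
    rw [← red_intCast, hM, card_mul_B D (hB.irr _ hθ₀) (fun g y => (hB.irr _ hθ₀).conj g y),
      red_mul (Pool.Agent.N20.uu_mem hpO hB hD hθ₀) (SS_mem (hB.irr _ hθ₀) (hB.irr _ hθ₀)),
      red_SS (hB.irr _ hθ₀) (hB.irr _ hθ₀), sr_eq hpO hB hD hθ₀ hθ₀] at h1
    exact (mul_ne_zero hθ₀ne (mul_ne_zero hθ₀ne (Pool.Agent.N20.cc_ne hpO hB hD hθ₀))) h1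
  obtain ⟨z, hz⟩ := rank_one hp M hsym hsq htr _ hi₀
  refine ⟨z, ?_⟩
  have h1 : (∑ θ, ∑ η, (z θ : ℂ) * z η * M θ η) = 1 := by exact_mod_cast hz
  rw [← h1, Finset.mul_sum]
  refine Finset.sum_congr rfl fun θ _ => ?_
  rw [Finset.mul_sum]
  refine Finset.sum_congr rfl fun η _ => ?_
  rw [hM]
  ring

/-- **Harada's conjecture for blocks with a major subsection with one Brauer character.** -/
theorem har_major {p : ℕ} (hp : p.Prime) {O : ValuationSubring ℂ}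
    (hpO : (p : ℂ) ∈ O.nonunits) {D : Subgroup G} {B : Set (G → ℂ)} (hB : IsBlock O B)
    (hD : IsDefectGroup p O B D) {u : G} {k : ℕ} (hu : orderOf u = p ^ k)
    {b : Set (CC u → ℂ)} (hb : IsBlock O b) {D' : Subgroup (CC u)}
    (hD' : IsDefectGroup p O b D') (hcard : Nat.card D' = Nat.card D)
    (hbB : Induces O B (CC u) b) (hl : lB p b = 1)
    {J : Finset (G → ℂ)} (hJn : J.Nonempty) (hJB : ∀ χ ∈ J, χ ∈ B)
    (hJ : ∀ g : G, p ∣ orderOf g → SJ J g = 0) : ∀ χ ∈ B, χ ∈ J := by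
  obtain ⟨z, hz⟩ := exists_vec hp hpO hb hD' hl
  rw [hcard] at hz
  exact har_of_vec hp hpO hB hD hu hb hD' hcard hbB z hz hJn hJB hJ

end Run7.h179
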