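import Mathlib

/-!
Blocks as linkage classes of irreducible characters.
-/

set_option autoImplicit false

namespace Run7.h179

variable {G : Type} [Group G] [Fintype G]

/-- `χ` is the character of a simple complex representation of `G`. -/
def SimpleChar (χ : G → ℂ) : Prop :=
  ∃ V : FDRep ℂ G, CategoryTheory.Simple V ∧ V.character = χ

/-- Two irreducible characters are linked at `p` if `∑ χ(g) ψ(g⁻¹) ≠ 0`, the sum being over the
elements `g` whose order is prime to `p`. -/
def Link (p : ℕ) (χ ψ : G → ℂ) : Prop :=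
  (∃ V : FDRep ℂ G, CategoryTheory.Simple V ∧ V.character = χ) ∧
  (∃ W : FDRep ℂ G, CategoryTheory.Simple W ∧ W.character = ψ) ∧
  (∑ g ∈ Finset.univ.filter (fun g : G => Nat.Coprime (orderOf g) p), χ g * ψ g⁻¹) ≠ 0

/-- The `p`-block of `χ₀`: its class for the equivalence relation generated by linkage. -/
def Blk (p : ℕ) (χ₀ : G → ℂ) : Set (G → ℂ) := {χ | Relation.ReflTransGen (Link p) χ₀ χ}

/-- The span of the restrictions to the `p`-regular elements of the functions in `S`. -/
def Rg (p : ℕ) (S : Set (G → ℂ)) : Submodule ℂ ({g : G // ¬ p ∣ orderOf g} → ℂ) :=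
  Submodule.span ℂ ((fun χ : G → ℂ => fun g : {g : G // ¬ p ∣ orderOf g} => χ g) '' S)

end Run7.h179
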