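import Mathlib

/-!
Real symmetric idempotent matrices of trace at most one.
-/

set_option autoImplicit false

open scoped BigOperators

namespace Run7.h179

/-- nonnegativity of the diagonal -/
lemma diag_nonneg {α : Type*} (X : Finset α) (P : α → α → ℝ)
    (hsym : ∀ i ∈ X, ∀ j ∈ X, P i j = P j i)
    (hid : ∀ i ∈ X, ∀ j ∈ X, ∑ l ∈ X, P i l * P l j = P i j) {i : α} (hi : i ∈ X) :
    0 ≤ P i i := by
  rw [← hid i hi i hi]
  refine Finset.sum_nonneg fun l hl => ?_
  rw [hsym l hl i hi]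
  exact mul_self_nonneg _

/-- a vanishing diagonal entry -/
lemma diag_zero {α : Type*} (X : Finset α) (P : α → α → ℝ)
    (hsym : ∀ i ∈ X, ∀ j ∈ X, P i j = P j i)
    (hid : ∀ i ∈ X, ∀ j ∈ X, ∑ l ∈ X, P i l * P l j = P i j) {i : α} (hi : i ∈ X)
    (h0 : P i i = 0) {j : α} (hj : j ∈ X) : P i j = 0 := by
  have h1 := hid i hi i hi
  rw [h0, Finset.sum_congr rfl (g := fun l => P i l * P i l)
    (fun l hl => by rw [hsym l hl i hi]),
    Finset.sum_eq_zero_iff_of_nonneg (fun _ _ => mul_self_nonneg _)] at h1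
  exact mul_self_eq_zero.mp (h1 j hj)

/-- a symmetric idempotent of trace at most one has rank at most one -/
theorem rank_le_one {α : Type*} (X : Finset α) (P : α → α → ℝ)
    (hsym : ∀ i ∈ X, ∀ j ∈ X, P i j = P j i)
    (hid : ∀ i ∈ X, ∀ j ∈ X, ∑ l ∈ X, P i l * P l j = P i j)
    (htr : ∑ i ∈ X, P i i ≤ 1) {i j k : α} (hi : i ∈ X) (hj : j ∈ X) (hk : k ∈ X) :
    P i i * P j k = P i j * P i k := by
  have hrow : ∀ i ∈ X, ∀ j ∈ X, ∑ l ∈ X, P i l * P j l = P i j := by
    intro i hi j hj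
    rw [← hid i hi j hj]
    exact Finset.sum_congr rfl fun l hl => by rw [hsym j hj l hl]
  have hdiff : ∀ i ∈ X, ∀ j ∈ X, ∑ l ∈ X, (P i i * P j l - P i j * P i l) ^ 2 =
      P i i * (P i i * P j j - P i j * P i j) := by
    intro i hi j hj
    have h1 : ∀ l, (P i i * P j l - P i j * P i l) ^ 2 = P i i * P i i * (P j l * P j l) -
        2 * (P i i * P i j) * (P i l * P j l) + P i j * P i j * (P i l * P i l) := by
      intro l; ring
    rw [Finset.sum_congr rfl (fun l _ => h1 l), Finset.sum_add_distrib, Finset.sum_sub_distrib,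
      ← Finset.mul_sum, ← Finset.mul_sum, ← Finset.mul_sum, hrow j hj j hj, hrow i hi j hj,
      hrow i hi i hi]
    ring
  have hmin : ∀ i ∈ X, ∀ j ∈ X, 0 ≤ P i i * P j j - P i j * P i j := by
    intro i hi j hj
    rcases (diag_nonneg X P hsym hid hi).lt_or_eq with h | h
    · have h1 : 0 ≤ ∑ l ∈ X, (P i i * P j l - P i j * P i l) ^ 2 :=
        Finset.sum_nonneg fun l _ => sq_nonneg _
      rw [hdiff i hi j hj] at h1
      exact nonneg_of_mul_nonneg_right h1 h
    · rw [diag_zero X P hsym hid hi h.symm hj, ← h]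
      simp
  have hmin0 : ∀ i ∈ X, ∀ j ∈ X, P i i * P j j - P i j * P i j = 0 := by
    have h1 : ∑ i ∈ X, ∑ j ∈ X, (P i i * P j j - P i j * P i j) =
        (∑ i ∈ X, P i i) * (∑ i ∈ X, P i i) - ∑ i ∈ X, P i i := by
      simp only [Finset.sum_sub_distrib]
      rw [← Finset.sum_mul_sum]
      congr 1
      exact Finset.sum_congr rfl fun i hi => hrow i hi i hi
    have h2 : 0 ≤ ∑ i ∈ X, P i i := Finset.sum_nonneg fun i hi => diag_nonneg X P hsym hid hi
    have h3 : ∑ i ∈ X, ∑ j ∈ X, (P i i * P j j - P i j * P i j) ≤ 0 := by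
      rw [h1]
      nlinarith
    have h4 : 0 ≤ ∑ i ∈ X, ∑ j ∈ X, (P i i * P j j - P i j * P i j) :=
      Finset.sum_nonneg fun i hi => Finset.sum_nonneg fun j hj => hmin i hi j hj
    have h5 := le_antisymm h3 h4
    intro i hi j hj
    rw [Finset.sum_eq_zero_iff_of_nonneg
      (fun i hi => Finset.sum_nonneg fun j hj => hmin i hi j hj)] at h5
    have h6 := h5 i hi
    rw [Finset.sum_eq_zero_iff_of_nonneg (fun j hj => hmin i hi j hj)] at h6
    exact h6 j hj
  have h1 := hdiff i hi j hj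
  rw [hmin0 i hi j hj, mul_zero, Finset.sum_eq_zero_iff_of_nonneg (fun _ _ => sq_nonneg _)] at h1
  have h2 := (pow_eq_zero_iff two_ne_zero).mp (h1 k hk)
  linarith

end Run7.h179
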