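import Mathlib
import Pool.Agent.Run7.h179.Har2
import Pool.Agent.Run7.h179.Rank

/-!
Blocks with at most three irreducible Brauer characters.
-/

set_option autoImplicit false
set_option linter.style.haveILetI false
set_option linter.unusedSectionVars false

open scoped BigOperators Classical
open Pool.Agent.Helper884 Pool.Agent.H254R3.IN Pool.Agent.N20

noncomputable section

namespace Run7.h179

variable {G : Type} [Group G] [Fintype G]

section basic

variable {O : ValuationSubring ℂ} {p : ℕ} [hp : Fact p.Prime] (hpO : (p : ℂ) ∈ O.nonunits)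
  {B : Set (G → ℂ)} (hB : IsBlock O B)

/-- weak block orthogonality -/
theorem SJ_block (hpO : (p : ℂ) ∈ O.nonunits) (hB : IsBlock O B) (g : G) (hg : p ∣ orderOf g) :
    SJ (XB B) g = 0 := by
  have hBi : ∀ χ ∈ XB B, IsIrr χ := fun χ hχ => hB.irr χ ((mem_XB hB.irr).mp hχ)
  have hcl : IsCl (SJ (XB B)) := SJ_cl hBi
  have hex := IC.expand (cut p (SJ (XB B))) (cut_cl hcl)
  have hco : ∀ η ∈ IC.Irr G, IC.B (cut p (SJ (XB B))) η = if η ∈ B then η 1 else 0 := by
    intro η hη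
    have hηi := mem_Irr.mp hη
    have h1 : IC.B (cut p (SJ (XB B))) η = ∑ χ ∈ XB B, χ 1 * IC.B (cut p χ) η := by
      unfold IC.B
      simp only [Finset.mul_sum]
      rw [Finset.sum_comm]
      refine Finset.sum_congr rfl fun g _ => ?_
      unfold cut SJ
      split_ifs
      · simp
      · rw [Finset.sum_mul, Finset.mul_sum]
        exact Finset.sum_congr rfl fun χ _ => by ring
    rw [h1]
    split_ifs with hηB
    · have h2 := cut_expand hpO hB hηB (g := 1) (by
        rw [orderOf_one]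
        exact hp.out.one_lt.ne' ∘ Nat.dvd_one.mp)
      rw [← h2]
      refine Finset.sum_congr rfl fun χ _ => ?_
      rw [B_cut_comm, mul_comm]
    · refine Finset.sum_eq_zero fun χ hχ => ?_
      rw [blk_orth hpO hB ((mem_XB hB.irr).mp hχ) hηi hηB, mul_zero]
  have h3 : cut p (SJ (XB B)) = SJ (XB B) := by
    rw [hex]
    funext x
    simp only [Finset.sum_apply, Pi.smul_apply, smul_eq_mul]
    rw [Finset.sum_congr rfl (fun η hη => by rw [hco η hη])]
    unfold SJ XB
    rw [Finset.sum_filter]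
    refine Finset.sum_congr rfl fun η _ => ?_
    split_ifs
    · rfl
    · rw [zero_mul]
  rw [← h3, cut, if_pos hg]

lemma SJ_sdiff {J : Finset (G → ℂ)} (hJX : J ⊆ XB B) (g : G) :
    SJ (XB B \ J) g = SJ (XB B) g - SJ J g := by
  unfold SJ
  rw [← Finset.sum_sdiff hJX]
  ring

/-- the restricted inner products with the sum over `J` -/
lemma B_cut_J {J : Finset (G → ℂ)} (hJi : ∀ χ ∈ J, IsIrr χ)
    (hJ : ∀ g : G, p ∣ orderOf g → SJ J g = 0) {χ : G → ℂ} (hχ : IsIrr χ) :
    ∑ η ∈ J, IC.B (cut p χ) η * η 1 = if χ ∈ J then χ 1 else 0 := by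
  have h1 : ∑ η ∈ J, IC.B (cut p χ) η * η 1 = ∑ η ∈ J, IC.B χ η * η 1 := by
    have h2 : ∀ f : G → ℂ, ∑ η ∈ J, IC.B f η * η 1 =
        (Nat.card G : ℂ)⁻¹ * ∑ g : G, f g * SJ J g⁻¹ := by
      intro f
      unfold IC.B SJ
      simp only [Finset.mul_sum, Finset.sum_mul]
      rw [Finset.sum_comm]
      exact Finset.sum_congr rfl fun g _ => Finset.sum_congr rfl fun η _ => by ring
    rw [h2, h2]
    congr 1
    refine Finset.sum_congr rfl fun g _ => ?_
    unfold cut
    split_ifs with hg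
    · rw [hJ g⁻¹ (by rwa [orderOf_inv]), mul_zero, mul_zero]
    · rfl
  rw [h1]
  rw [Finset.sum_congr rfl (fun η hη => by rw [IC.B_irr hχ (hJi η hη)])]
  simp only [ite_mul, one_mul, zero_mul, Finset.sum_ite_eq]

/-- the average over `p`-regular elements: refined integrality -/
theorem star2 (hpO : (p : ℂ) ∈ O.nonunits) {J : Finset (G → ℂ)} (hJi : ∀ χ ∈ J, IsIrr χ)
    (hJ : ∀ g : G, p ∣ orderOf g → SJ J g = 0) {c : ℂ} (hc : c ≠ 0)
    (hdeg : ∀ χ ∈ J, χ 1 / c ∈ O) (s : G) : SJ J s / (c * Nat.card (CC s)) ∈ O := by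
  by_cases hs : p ∣ orderOf s
  · rw [hJ s hs, zero_div]
    exact O.zero_mem
  obtain ⟨P, hPp, h4⟩ : ∃ P : Subgroup (CC s), IsPGroup p P ∧ ¬ p ∣ P.index :=
    ⟨((default : Sylow p (CC s)) : Subgroup (CC s)), (default : Sylow p (CC s)).isPGroup',
      (default : Sylow p (CC s)).not_dvd_index⟩
  have hP0 : (Nat.card P : ℂ) ≠ 0 := by exact_mod_cast Nat.card_pos.ne'
  have h1 : ∑ x : P, SJ J (s * ((x : CC s) : G)) = SJ J s := by
    rw [Finset.sum_eq_single (1 : P)]
    · simp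
    · intro x _ hx
      apply hJ
      have hxc : Commute s ((x : CC s) : G) := mem_CC.mp (x : CC s).2
      refine dvd_order hxc ?_ hs
      rw [Subgroup.orderOf_coe, Subgroup.orderOf_coe]
      obtain ⟨k, hk⟩ := (IsPGroup.iff_orderOf.mp hPp) x
      rw [hk]
      apply dvd_pow_self
      rintro rfl
      rw [pow_zero, orderOf_eq_one_iff] at hk
      exact hx hk
    · intro h
      exact absurd (Finset.mem_univ _) h
  set α : (G → ℂ) → ℂ := fun χ => (Nat.card P : ℂ)⁻¹ * ∑ x : P, χ (s * ((x : CC s) : G)) with hα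
  have h2 : SJ J s = (Nat.card P : ℂ) * ∑ χ ∈ J, χ 1 * α χ := by
    rw [← h1]
    unfold SJ
    rw [Finset.sum_comm, Finset.mul_sum]
    refine Finset.sum_congr rfl fun χ _ => ?_
    rw [← Finset.mul_sum, hα]
    field_simp
  have h3 : Nat.card P * P.index = Nat.card (CC s) := Subgroup.card_mul_index _
  have hk0 : (P.index : ℂ) ≠ 0 := by
    exact_mod_cast (Subgroup.index_ne_zero_of_finite)
  have h5 : (Nat.card (CC s) : ℂ) = Nat.card P * P.index := by
    exact_mod_cast h3.symm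
  have h6 : SJ J s / (c * Nat.card (CC s)) =
      (∑ χ ∈ J, χ 1 / c * α χ) * ((P.index : ℂ))⁻¹ := by
    rw [h2, h5, Finset.mul_sum, Finset.sum_div, Finset.sum_mul]
    refine Finset.sum_congr rfl fun χ _ => ?_
    field_simp
  rw [h6]
  refine O.mul_mem _ _ (sum_mem fun χ hχ => ?_) (nat_inv_mem hpO h4)
  exact O.mul_mem _ _ (hdeg χ hχ) (mem_of_isIntegral (avg_int s P (hJi χ hχ)))

/-- refined integrality of the sum of products of restricted inner products -/
theorem pair2 (hpO : (p : ℂ) ∈ O.nonunits) {J : Finset (G → ℂ)} (hJi : ∀ χ ∈ J, IsIrr χ)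
    (hJ : ∀ g : G, p ∣ orderOf g → SJ J g = 0) {c : ℂ} (hc : c ≠ 0)
    (hdeg : ∀ χ ∈ J, χ 1 / c ∈ O) {θ φ : G → ℂ} (hθ : IsIrr θ) (hφ : IsIrr φ) :
    (∑ η ∈ J, IC.B (cut p θ) η * IC.B (cut p η) φ) * Nat.card G / c ∈ O := by
  have hG0 : (Nat.card G : ℂ) ≠ 0 := by exact_mod_cast Nat.card_pos.ne'
  have hSc := SJ_cl hJi
  have hcl : ∀ {f : G → ℂ}, IsIrr f → IsCl (fun g => cut p f g⁻¹) := by
    intro f hf g y
    change cut p f (y * g * y⁻¹)⁻¹ = cut p f g⁻¹
    have e1 : (y * g * y⁻¹)⁻¹ = y * g⁻¹ * y⁻¹ := by group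
    rw [e1, cut_cl (fun g y => hf.conj g y)]
  have hmem : ∀ {f : G → ℂ}, IsIrr f → ∀ g, cut p f g⁻¹ ∈ O := by
    intro f hf g
    unfold cut
    split_ifs
    · exact O.zero_mem
    · exact hf.val_mem O _
  have hsum : ∀ {f : G → ℂ} (η : G → ℂ), ∑ g, cut p f g⁻¹ * η g =
      (Nat.card G : ℂ) * IC.B (cut p f) η := by
    intro f η
    unfold IC.B
    rw [← mul_assoc, mul_inv_cancel₀ hG0, one_mul]
    exact Fintype.sum_equiv (Equiv.inv G) _ _ fun g => by simp
  set F := conv (fun g => cut p θ g⁻¹) (fun g => cut p φ g⁻¹) with hF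
  have hFcl : IsCl F := (hcl hθ).conv (hcl hφ)
  have hFO : ∀ g, F g ∈ O := conv_mem (hmem hθ) (hmem hφ)
  have h2 : ∑ g, F g * SJ J g = (Nat.card G : ℂ) ^ 2 *
      ∑ η ∈ J, IC.B (cut p θ) η * IC.B (cut p η) φ := by
    unfold SJ
    simp only [Finset.mul_sum]
    rw [Finset.sum_comm]
    refine Finset.sum_congr rfl fun η hη => ?_
    have hηi := hJi η hη
    have h0 := hηi.one_ne
    have h3 := Om_conv hηi (hcl hθ) (hcl hφ)
    unfold Om at h3
    rw [hsum, hsum, ← hF, IC.B_comm (cut p φ) η] at h3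
    have h5 : IC.B η (cut p φ) = IC.B (cut p η) φ := by
      rw [IC.B_comm, B_cut_comm]
    have h4 : ∑ g, F g * (η 1 * η g) = η 1 * ∑ g, F g * η g := by
      rw [Finset.mul_sum]
      exact Finset.sum_congr rfl fun g _ => by ring
    rw [h4, (div_eq_iff h0).mp h3, h5]
    field_simp
  have h6 : (∑ g, F g * SJ J g) / (Nat.card G * c) ∈ O := by
    rw [sum_classes, Finset.sum_div]
    refine sum_mem fun K _ => ?_
    have h1 : ∑ g ∈ Finset.univ.filter (fun g => IsConj (rep K) g), F g * SJ J g =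
        (Nat.card {y : G // IsConj (rep K) y} : ℂ) * (F (rep K) * SJ J (rep K)) := by
      rw [Finset.sum_congr rfl (g := fun _ => F (rep K) * SJ J (rep K)) (fun g hg => by
        have hc := (Finset.mem_filter.mp hg).2
        rw [hFcl.isConj hc, hSc.isConj hc]), Finset.sum_const, nsmul_eq_mul]
      congr 1
      rw [Nat.card_eq_fintype_card, Fintype.card_subtype]
    rw [h1]
    have h2 := card_class_mul (rep K)
    have hC0 : (Nat.card (CC (rep K)) : ℂ) ≠ 0 := by exact_mod_cast Nat.card_pos.ne'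
    have h3 : (Nat.card {y : G // IsConj (rep K) y} : ℂ) = Nat.card G / Nat.card (CC (rep K)) := by
      rw [eq_div_iff hC0]
      exact_mod_cast h2
    have h4 : (Nat.card {y : G // IsConj (rep K) y} : ℂ) * (F (rep K) * SJ J (rep K)) /
        (Nat.card G * c) = F (rep K) * (SJ J (rep K) / (c * Nat.card (CC (rep K)))) := by
      rw [h3]
      field_simp
    rw [h4]
    exact O.mul_mem _ _ (hFO _) (star2 hpO hJi hJ hc hdeg (rep K))
  rw [h2] at h6
  have h7 : (Nat.card G : ℂ) ^ 2 * (∑ η ∈ J, IC.B (cut p θ) η * IC.B (cut p η) φ) /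
      (Nat.card G * c) = (∑ η ∈ J, IC.B (cut p θ) η * IC.B (cut p η) φ) * Nat.card G / c := by
    field_simp
  rwa [h7] at h6

/-- a character of least `p`-adic degree -/
lemma exists_min {J : Finset (G → ℂ)} (hJn : J.Nonempty) (hJi : ∀ χ ∈ J, IsIrr χ) :
    ∃ ψ ∈ J, ∀ χ ∈ J, χ 1 / ψ 1 ∈ O := by
  obtain ⟨ψ, hψ, h⟩ := Finset.exists_max_image J (fun χ => O.valuation (χ 1)) hJn
  refine ⟨ψ, hψ, fun χ hχ => ?_⟩
  rw [← ValuationSubring.valuation_le_one_iff, map_div₀]
  have h1 := h χ hχ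
  have h2 : O.valuation (ψ 1) ≠ 0 := by
    rw [Ne, Valuation.zero_iff]
    exact (hJi ψ hψ).one_ne
  exact div_le_one_of_le₀ h1 zero_le

end basic

end Run7.h179
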