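import Mathlib

/-!
An integral matrix `M` with `M² = n M` cannot be split by a partition whose off-diagonal block has
rank one, unless an eigenvalue strictly between `0` and `n` shows up.
-/

set_option autoImplicit false

open scoped BigOperators

namespace Run7.h179

theorem rank_one_split {α : Type*} (J₁ J₂ : Finset α) (M : α → α → ℤ) {n : ℤ}
    (hn : 0 < n) (hsym : ∀ i, ∀ j ∈ J₂, (i ∈ J₁ ∨ i ∈ J₂) → M i j = M j i)
    (hM2 : ∀ i, (i ∈ J₁ ∨ i ∈ J₂) → ∀ j ∈ J₂,
      ∑ k ∈ J₁, M i k * M k j + ∑ k ∈ J₂, M i k * M k j = n * M i j)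
    (hmin : ∀ i ∈ J₁, ∀ i' ∈ J₁, ∀ j ∈ J₂, ∀ j' ∈ J₂, M i j * M i' j' = M i j' * M i' j)
    {a b : α} (ha : a ∈ J₁) (hb : b ∈ J₂) (hab : M a b ≠ 0) :
    ∃ t : ℤ, 0 < t ∧ t < n ∧ ∑ k ∈ J₂, M a k * M k b = t * M a b := by
  set s : ℤ := ∑ k ∈ J₂, M a k * M k b with hs
  -- the eigenvalue equation
  have h1 : ∀ j ∈ J₂, M a b * ∑ k ∈ J₂, M a k * M k j = s * M a j := by
    have key : ∀ j ∈ J₂, (∑ i ∈ J₁, M a i * M i b) * M a j +
        M a b * ∑ k ∈ J₂, M a k * M k j = n * (M a b * M a j) := by
      intro j hj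
      have h2 := hM2 a (Or.inl ha) j hj
      have h3 : (∑ i ∈ J₁, M a i * M i b) * M a j = M a b * ∑ i ∈ J₁, M a i * M i j := by
        rw [Finset.sum_mul, Finset.mul_sum]
        refine Finset.sum_congr rfl fun i hi => ?_
        have := hmin i hi a ha j hj b hb
        linear_combination (-M a i) * this
      rw [h3, ← mul_add, h2]
      ring
    have hb' := key b hb
    have h4 : (∑ i ∈ J₁, M a i * M i b) + s = n * M a b := by
      have : M a b * ((∑ i ∈ J₁, M a i * M i b) + s - n * M a b) = 0 := by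
        linear_combination hb'
      rcases mul_eq_zero.mp this with h | h
      · exact absurd h hab
      · linear_combination h
    intro j hj
    have h5 := key j hj
    linear_combination h5 - M a j * h4
  -- integrality of the eigenvalue
  obtain ⟨t, ht⟩ : M a b ∣ s := by
    set d : ℤ := J₂.gcd (fun j => M a j) with hd
    have hd0 : d ≠ 0 := by
      intro h
      rw [hd, Finset.gcd_eq_zero_iff] at h
      exact hab (h b hb)
    have h2 : M a b * d ∣ s * d := by
      have h3 : J₂.gcd (fun j => s * M a j) = normalize s * d := Finset.gcd_mul_left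
      have h4 : M a b * d ∣ J₂.gcd (fun j => s * M a j) := by
        refine Finset.dvd_gcd fun j hj => ?_
        rw [← h1 j hj]
        refine mul_dvd_mul_left _ (Finset.dvd_sum fun k hk => ?_)
        exact Dvd.dvd.mul_right (Finset.gcd_dvd hk) _
      rw [h3] at h4
      refine h4.trans (mul_dvd_mul_right ?_ _)
      exact (normalize_associated s).dvd
    exact Int.dvd_of_mul_dvd_mul_right hd0 h2
  have h2 : ∀ j ∈ J₂, ∑ k ∈ J₂, M a k * M k j = t * M a j := by
    intro j hj
    have h3 := h1 j hj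
    rw [ht] at h3
    have : M a b * (∑ k ∈ J₂, M a k * M k j - t * M a j) = 0 := by linear_combination h3
    rcases mul_eq_zero.mp this with h | h
    · exact absurd h hab
    · linear_combination h
  -- the bounds
  set q : ℤ := ∑ j ∈ J₂, M a j * M a j with hq
  have hq0 : 0 < q := by
    refine lt_of_lt_of_le ?_ (Finset.single_le_sum (fun j _ => mul_self_nonneg (M a j)) hb)
    exact mul_self_pos.mpr hab
  set x : α → ℤ := fun i => ∑ j ∈ J₂, M i j * M a j with hx
  have hx2 : ∀ k ∈ J₂, x k = t * M a k := by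
    intro k hk
    rw [← h2 k hk]
    refine Finset.sum_congr rfl fun j hj => ?_
    rw [hsym k j hj (Or.inr hk)]
    ring
  have h3 : ∑ i ∈ J₁, x i * x i + ∑ k ∈ J₂, x k * x k = n * ∑ j ∈ J₂, M a j * x j := by
    have h4 : ∀ j ∈ J₂, ∑ k ∈ J₁, M j k * x k + ∑ k ∈ J₂, M j k * x k = n * x j := by
      intro j hj
      have h5 : ∀ S : Finset α, ∑ k ∈ S, M j k * x k =
          ∑ j' ∈ J₂, (∑ k ∈ S, M j k * M k j') * M a j' := by
        intro S
        simp only [hx, Finset.mul_sum, Finset.sum_mul]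
        rw [Finset.sum_comm]
        exact Finset.sum_congr rfl fun _ _ => Finset.sum_congr rfl fun _ _ => by ring
      rw [h5, h5, ← Finset.sum_add_distrib, hx]
      simp only [Finset.mul_sum]
      refine Finset.sum_congr rfl fun j' hj' => ?_
      rw [← add_mul, hM2 j (Or.inr hj) j' hj']
      ring
    have h6 : ∀ S : Finset α, (∀ k ∈ S, k ∈ J₁ ∨ k ∈ J₂) →
        ∑ k ∈ S, x k * x k = ∑ j ∈ J₂, M a j * ∑ k ∈ S, M j k * x k := by
      intro S hS
      simp only [Finset.mul_sum]
      rw [Finset.sum_comm]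
      refine Finset.sum_congr rfl fun k hk => ?_
      rw [← Finset.sum_congr rfl (fun j hj => by
        rw [← hsym k j hj (hS k hk)] : ∀ j ∈ J₂, M a j * (M k j * x k) = M a j * (M j k * x k))]
      conv_lhs => rw [hx]
      simp only []
      rw [Finset.sum_mul]
      exact Finset.sum_congr rfl fun _ _ => by ring
    rw [h6 J₁ (fun k hk => Or.inl hk), h6 J₂ (fun k hk => Or.inr hk), ← Finset.sum_add_distrib,
      Finset.mul_sum]
    refine Finset.sum_congr rfl fun j hj => ?_
    rw [← mul_add, h4 j hj]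
    ring
  have h4 : ∑ k ∈ J₂, x k * x k = t * t * q := by
    rw [hq, Finset.mul_sum]
    exact Finset.sum_congr rfl fun k hk => by rw [hx2 k hk]; ring
  have h5 : ∑ j ∈ J₂, M a j * x j = t * q := by
    rw [hq, Finset.mul_sum]
    exact Finset.sum_congr rfl fun k hk => by rw [hx2 k hk]; ring
  have h6 : q * q ≤ ∑ i ∈ J₁, x i * x i :=
    Finset.single_le_sum (f := fun i => x i * x i) (fun i _ => mul_self_nonneg (x i)) ha
  rw [h4, h5] at h3
  have h7 : 0 < t * (n - t) * q := by nlinarith [mul_pos hq0 hq0]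
  have h8 : 0 < t * (n - t) := by
    by_contra hcon
    push Not at hcon
    nlinarith
  refine ⟨t, ?_, ?_, by rw [ht]; ring⟩
  · by_contra hcon
    push Not at hcon
    nlinarith
  · by_contra hcon
    push Not at hcon
    nlinarith

end Run7.h179
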