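import Mathlib
import Pool.Agent.Run7.h179.Har4
import Pool.Agent.Run7.h179.Defs
import Pool.Agent.Run7.h179.Rank1

/-!
A set with vanishing sums and its complement in the block: the intersection of the spans of their
restrictions to the `p`-regular elements has dimension at least two.
-/

set_option autoImplicit false
set_option linter.style.haveILetI false
set_option linter.unusedSectionVars false

open scoped BigOperators Classical
open Pool.Agent.Helper884 Pool.Agent.H254R3.IN Pool.Agent.N20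

noncomputable section

namespace Run7.h179

variable {G : Type} [Group G] [Fintype G]

/-- restriction to the `p`-regular elements -/
def rs (p : ℕ) (χ : G → ℂ) : {g : G // ¬ p ∣ orderOf g} → ℂ := fun g => χ g

lemma rs_mem {p : ℕ} {S : Set (G → ℂ)} {χ : G → ℂ} (hχ : χ ∈ S) : rs p χ ∈ Rg p S :=
  Submodule.subset_span ⟨χ, hχ, rfl⟩

section

variable {p : ℕ} [hp : Fact p.Prime] {O : ValuationSubring ℂ}
    (hpO : (p : ℂ) ∈ O.nonunits) {D : Subgroup G} {B : Set (G → ℂ)} (hB : IsBlock O B)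
    (hD : IsDefectGroup p O B D) {J₁ J₂ : Finset (G → ℂ)}
    (hun : J₁ ∪ J₂ = XB B) (hdis : Disjoint J₁ J₂)

include hpO hB hun hdis

/-- the part of `χ` on `J₂` is in both spans -/
lemma part_mem {χ : G → ℂ} (hχ : χ ∈ J₁) :
    ∑ η ∈ J₂, IC.B (cut p χ) η • rs p η ∈ Rg p (J₁ : Set (G → ℂ)) ⊓ Rg p (J₂ : Set (G → ℂ)) := by
  have hX : ∀ χ ∈ XB B, χ ∈ B := fun χ hχ => (mem_XB hB.irr).mp hχ
  have hJ1X : J₁ ⊆ XB B := by rw [← hun]; exact Finset.subset_union_left
  refine ⟨?_, Submodule.sum_mem _ fun η hη => Submodule.smul_mem _ _ (rs_mem hη)⟩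
  have h1 : ∑ η ∈ J₂, IC.B (cut p χ) η • rs p η =
      rs p χ - ∑ η ∈ J₁, IC.B (cut p χ) η • rs p η := by
    funext g
    have h2 := cut_expand hpO hB (hX χ (hJ1X hχ)) g.2
    rw [← hun, Finset.sum_union hdis] at h2
    simp only [Finset.sum_apply, Pi.smul_apply, Pi.sub_apply, smul_eq_mul, rs]
    rw [← h2]
    ring
  rw [h1]
  exact Submodule.sub_mem _ (rs_mem hχ)
    (Submodule.sum_mem _ fun η hη => Submodule.smul_mem _ _ (rs_mem hη))

include hD

/-- if the intersection has dimension at most one, the off-diagonal block has rank at most one -/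
lemma minors (hdim : Module.finrank ℂ
      (Rg p (J₁ : Set (G → ℂ)) ⊓ Rg p (J₂ : Set (G → ℂ)) : Submodule ℂ _) ≤ 1)
    {χ χ' : G → ℂ} (hχ : χ ∈ J₁) (hχ' : χ' ∈ J₁) {η η' : G → ℂ} (hη : η ∈ J₂) (hη' : η' ∈ J₂) :
    IC.B (cut p χ) η * IC.B (cut p χ') η' = IC.B (cut p χ) η' * IC.B (cut p χ') η := by
  have hX : ∀ χ ∈ XB B, χ ∈ B := fun χ hχ => (mem_XB hB.irr).mp hχ
  have hJ1X : J₁ ⊆ XB B := by rw [← hun]; exact Finset.subset_union_left
  have hJ2X : J₂ ⊆ XB B := by rw [← hun]; exact Finset.subset_union_right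
  have hD0 : (Nat.card D : ℂ) ≠ 0 := by exact_mod_cast Nat.card_pos.ne'
  haveI : FiniteDimensional ℂ (Rg p (J₁ : Set (G → ℂ)) ⊓ Rg p (J₂ : Set (G → ℂ)) :
    Submodule ℂ _) := inferInstance
  obtain ⟨v, hv⟩ := finrank_le_one_iff.mp hdim
  obtain ⟨c, hc⟩ := hv ⟨_, part_mem hpO hB hun hdis hχ⟩
  obtain ⟨c', hc'⟩ := hv ⟨_, part_mem hpO hB hun hdis hχ'⟩
  have hreal : ∀ χ ∈ J₁, ∀ η ∈ J₂, (starRingEnd ℂ) (IC.B (cut p χ) η) = IC.B (cut p χ) η := by
    intro χ hχ η hη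
    obtain ⟨m, hm⟩ := contr_int hpO hB hD (hX χ (hJ1X hχ)) (hX η (hJ2X hη))
    have : IC.B (cut p χ) η = (m : ℂ) / Nat.card D := by
      rw [hm]
      field_simp
    rw [this, map_div₀, Complex.conj_natCast]
    congr 1
    rw [← Complex.ofReal_intCast, Complex.conj_ofReal]
  -- a linear relation between the two rows
  have key : ∀ α β : ℂ, α * c + β * c' = 0 → ∀ η ∈ J₂,
      α * IC.B (cut p χ) η + β * IC.B (cut p χ') η = 0 := by
    intro α β hαβ
    set w : (G → ℂ) → ℂ := fun η => α * IC.B (cut p χ) η + β * IC.B (cut p χ') η with hw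
    have h1 : ∑ η ∈ J₂, w η • rs p η = 0 := by
      have h2 : ∑ η ∈ J₂, w η • rs p η =
          α • (∑ η ∈ J₂, IC.B (cut p χ) η • rs p η) +
            β • (∑ η ∈ J₂, IC.B (cut p χ') η • rs p η) := by
        rw [Finset.smul_sum, Finset.smul_sum, ← Finset.sum_add_distrib]
        refine Finset.sum_congr rfl fun η _ => ?_
        rw [hw, smul_smul, smul_smul, ← add_smul]
      have h3 := congrArg Subtype.val hc
      have h4 := congrArg Subtype.val hc'
      simp only [Submodule.coe_smul] at h3 h4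
      rw [h2, ← h3, ← h4, smul_smul, smul_smul, ← add_smul, hαβ, zero_smul]
    -- pair with `ψ`
    have h2 : ∀ ψ : G → ℂ, ∑ η ∈ J₂, w η * IC.B (cut p η) ψ = 0 := by
      intro ψ
      have h3 : ∑ η ∈ J₂, w η * IC.B (cut p η) ψ =
          (Nat.card G : ℂ)⁻¹ * ∑ g : G, (∑ η ∈ J₂, w η * cut p η g) * ψ g⁻¹ := by
        unfold IC.B
        simp only [Finset.sum_mul, Finset.mul_sum]
        rw [Finset.sum_comm]
        exact Finset.sum_congr rfl fun _ _ => Finset.sum_congr rfl fun _ _ => by ring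
      rw [h3]
      rw [Finset.sum_eq_zero, mul_zero]
      intro g _
      by_cases hg : p ∣ orderOf g
      · simp only [cut, if_pos hg, mul_zero, Finset.sum_const_zero, zero_mul]
      · have h4 := congrFun h1 ⟨g, hg⟩
        simp only [Finset.sum_apply, Pi.smul_apply, smul_eq_mul, rs, Pi.zero_apply] at h4
        simp only [cut, if_neg hg]
        rw [h4, zero_mul]
    have h3 : ∑ η ∈ J₂, w η * (starRingEnd ℂ) (w η) = 0 := by
      have h4 : ∀ η ∈ J₂, w η * (starRingEnd ℂ) (w η) =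
          (starRingEnd ℂ) α * (w η * IC.B (cut p η) χ) +
            (starRingEnd ℂ) β * (w η * IC.B (cut p η) χ') := by
        intro η hη
        have h5 : (starRingEnd ℂ) (w η) = (starRingEnd ℂ) α * IC.B (cut p χ) η +
            (starRingEnd ℂ) β * IC.B (cut p χ') η := by
          rw [hw]
          simp only [map_add, map_mul]
          rw [hreal χ hχ η hη, hreal χ' hχ' η hη]
        rw [h5, B_cut_comm η χ, B_cut_comm η χ']
        ring
      rw [Finset.sum_congr rfl h4, Finset.sum_add_distrib, ← Finset.mul_sum, ← Finset.mul_sum,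
        h2, h2, mul_zero, mul_zero, add_zero]
    have h4 : ∑ η ∈ J₂, Complex.normSq (w η) = 0 := by
      have : ((∑ η ∈ J₂, Complex.normSq (w η) : ℝ) : ℂ) = 0 := by
        rw [← h3]
        push_cast
        exact Finset.sum_congr rfl fun η _ => by rw [Complex.mul_conj]
      exact_mod_cast this
    intro η hη
    exact Complex.normSq_eq_zero.mp
      ((Finset.sum_eq_zero_iff_of_nonneg (fun η _ => Complex.normSq_nonneg (w η))).mp h4 η hη)
  by_cases hc0 : c = 0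
  · have h1 := key 1 0 (by rw [hc0]; ring)
    have h2 := h1 η hη
    have h3 := h1 η' hη'
    simp only [one_mul, zero_mul, add_zero] at h2 h3
    rw [h2, h3]
    ring
  · have h1 := key c' (-c) (by ring)
    have h2 := h1 η hη
    have h3 := h1 η' hη'
    have h4 : c * (IC.B (cut p χ) η * IC.B (cut p χ') η' -
        IC.B (cut p χ) η' * IC.B (cut p χ') η) = 0 := by
      linear_combination (IC.B (cut p χ) η') * h2 - (IC.B (cut p χ) η) * h3
    rcases mul_eq_zero.mp h4 with h | h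
    · exact absurd h hc0
    · exact sub_eq_zero.mp h

/-- the main argument -/
theorem no_split1 (hJ₂ : ∀ g : G, p ∣ orderOf g → SJ J₂ g = 0)
    {χ₀ : G → ℂ} (hχ₀ : χ₀ ∈ J₁) (hχ₀u : red O (uu D χ₀) ≠ 0) (hne : J₂.Nonempty)
    (hdim : Module.finrank ℂ
      (Rg p (J₁ : Set (G → ℂ)) ⊓ Rg p (J₂ : Set (G → ℂ)) : Submodule ℂ _) ≤ 1) : False := by
  haveI := charP_RF hpO
  obtain ⟨d, hd⟩ := IsPGroup.iff_card.mp (Pool.Agent.N20.defect_pgroup hD)
  have hD0 : (Nat.card D : ℂ) ≠ 0 := by exact_mod_cast Nat.card_pos.ne'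
  have hDZ : (0 : ℤ) < Nat.card D := by exact_mod_cast Nat.card_pos
  have hG0 : (Nat.card G : ℂ) ≠ 0 := by exact_mod_cast Nat.card_pos.ne'
  have hX : ∀ χ ∈ XB B, χ ∈ B := fun χ hχ => (mem_XB hB.irr).mp hχ
  have hXi : ∀ χ ∈ XB B, IsIrr χ := fun χ hχ => hB.irr χ (hX χ hχ)
  have hJ1X : J₁ ⊆ XB B := by rw [← hun]; exact Finset.subset_union_left
  have hJ2X : J₂ ⊆ XB B := by rw [← hun]; exact Finset.subset_union_right
  choose! M hM using fun (χ : G → ℂ) (hχ : χ ∈ XB B) (ψ : G → ℂ) (hψ : ψ ∈ XB B) =>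
    contr_int hpO hB hD (hX χ hχ) (hX ψ hψ)
  have hor : ∀ i, (i ∈ J₁ ∨ i ∈ J₂) → i ∈ XB B := by
    rintro i (h | h)
    · exact hJ1X h
    · exact hJ2X h
  -- the least character of `J₂`
  obtain ⟨ψ₀, hψ₀, hmin⟩ := exists_min (O := O) hne (fun η hη => hXi η (hJ2X hη))
  have hχ₀X := hJ1X hχ₀
  have hψ₀X := hJ2X hψ₀
  have hψ₀1 : ψ₀ 1 ≠ 0 := (hXi ψ₀ hψ₀X).one_ne
  -- the unit
  have hcard : (Nat.card D : ℂ) * IC.B (cut p ψ₀) χ₀ = uu D ψ₀ * SS p ψ₀ χ₀ :=
    card_mul_B D (hXi ψ₀ hψ₀X) (fun g y => (hXi χ₀ hχ₀X).conj g y)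
  have hunit : red O (SS p ψ₀ χ₀) ≠ 0 := by
    rw [red_SS (hXi ψ₀ hψ₀X) (hXi χ₀ hχ₀X), sr_eq hpO hB hD (hX ψ₀ hψ₀X) (hX χ₀ hχ₀X)]
    exact mul_ne_zero hχ₀u (Pool.Agent.N20.cc_ne hpO hB hD (hX ψ₀ hψ₀X))
  obtain ⟨hSO, hSiO, hS0⟩ := inv_mem_of_red_ne hunit
  have hPSS : IC.B (cut p ψ₀) χ₀ * Nat.card G / ψ₀ 1 = SS p ψ₀ χ₀ := by
    have h1 : IC.B (cut p ψ₀) χ₀ = uu D ψ₀ * SS p ψ₀ χ₀ / Nat.card D := by
      rw [← hcard]
      field_simp
    rw [h1]
    unfold uu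
    field_simp
  have hM0 : M χ₀ ψ₀ ≠ 0 := by
    intro h0
    have h1 := hM χ₀ hχ₀X ψ₀ hψ₀X
    rw [h0, Int.cast_zero] at h1
    apply hS0
    rw [← hPSS, ← B_cut_comm]
    rcases mul_eq_zero.mp h1.symm with h | h
    · exact absurd h hD0
    · rw [h]; simp
  obtain ⟨t, ht0, htn, ht⟩ := rank_one_split J₁ J₂ M hDZ
    (by
      intro i j hj hi
      have h1 := hM i (hor i hi) j (hJ2X hj)
      have h2 := hM j (hJ2X hj) i (hor i hi)
      rw [B_cut_comm, ← h1] at h2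
      exact_mod_cast h2.symm)
    (by
      intro i hi j hj
      have h1 : ((∑ k ∈ J₁, M i k * M k j + ∑ k ∈ J₂, M i k * M k j : ℤ) : ℂ) =
          ((Nat.card D * M i j : ℤ) : ℂ) := by
        have h2 := B_cut_idem hpO hB (ψ := j) (hX i (hor i hi))
        rw [← hun, Finset.sum_union hdis] at h2
        push_cast
        rw [hM i (hor i hi) j (hJ2X hj), ← h2, mul_add, mul_add, Finset.mul_sum, Finset.mul_sum,
          Finset.mul_sum, Finset.mul_sum]
        congr 1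
        · refine Finset.sum_congr rfl fun k hk => ?_
          rw [hM i (hor i hi) k (hJ1X hk), hM k (hJ1X hk) j (hJ2X hj)]
          ring
        · refine Finset.sum_congr rfl fun k hk => ?_
          rw [hM i (hor i hi) k (hJ2X hk), hM k (hJ2X hk) j (hJ2X hj)]
          ring
      exact_mod_cast h1)
    (by
      intro i hi i' hi' j hj j' hj'
      have h1 := minors hpO hB hD hun hdis hdim hi hi' hj hj'
      have h2 : ((M i j * M i' j' : ℤ) : ℂ) = ((M i j' * M i' j : ℤ) : ℂ) := by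
        push_cast
        rw [hM i (hJ1X hi) j (hJ2X hj), hM i' (hJ1X hi') j' (hJ2X hj'),
          hM i (hJ1X hi) j' (hJ2X hj'), hM i' (hJ1X hi') j (hJ2X hj)]
        linear_combination (Nat.card D : ℂ) ^ 2 * h1
      exact_mod_cast h2)
    hχ₀ hψ₀ hM0
  -- integrality at `p`
  have hμO : (t : ℂ) / Nat.card D ∈ O := by
    have h1 := pair2 hpO (fun η hη => hXi η (hJ2X hη)) hJ₂ hψ₀1 hmin (hXi χ₀ hχ₀X) (hXi ψ₀ hψ₀X)
    have h2 : ∑ η ∈ J₂, IC.B (cut p χ₀) η * IC.B (cut p η) ψ₀ =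
        (t : ℂ) / Nat.card D * IC.B (cut p ψ₀) χ₀ := by
      have h3 : (Nat.card D : ℂ) ^ 2 * ∑ η ∈ J₂, IC.B (cut p χ₀) η * IC.B (cut p η) ψ₀ =
          t * ((Nat.card D : ℂ) * IC.B (cut p χ₀) ψ₀) := by
        rw [← hM χ₀ hχ₀X ψ₀ hψ₀X]
        have h4 : ((∑ k ∈ J₂, M χ₀ k * M k ψ₀ : ℤ) : ℂ) = ((t * M χ₀ ψ₀ : ℤ) : ℂ) := by rw [ht]
        push_cast at h4
        rw [← h4, Finset.mul_sum]
        refine Finset.sum_congr rfl fun k hk => ?_
        rw [hM χ₀ hχ₀X k (hJ2X hk), hM k (hJ2X hk) ψ₀ hψ₀X]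
        ring
      rw [← B_cut_comm]
      apply mul_left_cancel₀ (pow_ne_zero 2 hD0)
      rw [h3]
      field_simp
    rw [h2, mul_assoc, mul_div_assoc, hPSS] at h1
    have h3 : (t : ℂ) / Nat.card D = (t : ℂ) / Nat.card D * SS p ψ₀ χ₀ * (SS p ψ₀ χ₀)⁻¹ := by
      field_simp
    rw [h3]
    exact O.mul_mem _ _ h1 hSiO
  obtain ⟨m, rfl⟩ := Int.eq_ofNat_of_zero_le ht0.le
  have hdvd : p ^ d ∣ m := by
    apply dvd_of_div_mem hpO
    have h2 : (Nat.card D : ℂ) = (p : ℂ) ^ d := by rw [hd]; push_cast; rfl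
    rw [← h2]
    simpa using hμO
  have h1 : m < Nat.card D := by exact_mod_cast htn
  have h2 : 0 < m := by exact_mod_cast ht0
  rw [hd] at h1
  exact absurd (Nat.le_of_dvd h2 hdvd) (not_le.mpr h1)

end

end Run7.h179
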