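import Mathlib
import Pool.Agent.Run7.h179.Defs
import Pool.Agent.Run7.h179.Har4
import Pool.Agent.Helper199.RepDim
import Pool.Agent.H515.SP.Val

/-!
Linkage classes are blocks.
-/

set_option autoImplicit false
set_option linter.style.haveILetI false
set_option linter.unusedSectionVars false

open scoped BigOperators
open CategoryTheory
open Pool.Agent.Helper884 Pool.Agent.H254R3.IN Pool.Agent.N20

noncomputable section

namespace Run7.h179

variable {G : Type} [Group G] [Fintype G]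

/-- the character of a simple object is irreducible -/
lemma irr_of_simple (V : FDRep ℂ G) (hV : Simple V) : IsIrr V.character := by
  haveI := hV
  refine ⟨V, inferInstance, inferInstance, inferInstance, V.ρ, ?_, rfl⟩
  haveI : Nontrivial (Subrepresentation V.ρ) := by
    refine ⟨⊥, ⊤, ?_⟩
    intro h
    obtain ⟨v, hv⟩ := Pool.Agent.Helper199.RepDim.simple_nonzero V
    have h1 : (⊥ : Submodule ℂ V) = ⊤ :=
      congrArg Subrepresentation.toSubmodule h
    have h2 : v ∈ (⊥ : Submodule ℂ V) := by rw [h1]; trivial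
    exact hv ((Submodule.mem_bot ℂ).mp h2)
  refine ⟨fun S => ?_⟩
  by_cases hS : S.toSubmodule = ⊥
  · left
    apply Subrepresentation.toSubmodule_injective
    exact hS
  · right
    apply Subrepresentation.toSubmodule_injective
    exact Pool.Agent.Helper199.RepDim.simple_top V S.toSubmodule
      (fun g w hw => S.apply_mem_toSubmodule g hw) hS

/-- irreducible characters are characters of simple objects -/
lemma simple_of_irr {χ : G → ℂ} (hχ : IsIrr χ) : SimpleChar χ := by
  obtain ⟨V, _, _, _, ρ, hr, rfl⟩ := hχ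
  have := irr_nontrivial ρ hr
  refine ⟨FDRep.of ρ, Pool.Agent.Helper199.RepDim.simple_of_irred ρ (fun W hW => ?_), rfl⟩
  let S : Subrepresentation ρ := ⟨W, fun g v hv => hW g v hv⟩
  rcases hr.eq_bot_or_eq_top S with h | h
  · left
    exact congrArg Subrepresentation.toSubmodule h
  · right
    exact congrArg Subrepresentation.toSubmodule h

lemma simple_iff {χ : G → ℂ} : SimpleChar χ ↔ IsIrr χ := by
  constructor
  · rintro ⟨V, hV, rfl⟩
    exact irr_of_simple V hV
  · exact simple_of_irr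

lemma sum_eq_B {p : ℕ} (hp : p.Prime) (χ ψ : G → ℂ) :
    (∑ g ∈ Finset.univ.filter (fun g : G => Nat.Coprime (orderOf g) p), χ g * ψ g⁻¹) =
      (Nat.card G : ℂ) * IC.B (cut p χ) ψ := by
  have hG0 : (Nat.card G : ℂ) ≠ 0 := by exact_mod_cast Nat.card_pos.ne'
  unfold IC.B
  rw [← mul_assoc, mul_inv_cancel₀ hG0, one_mul, Finset.sum_filter]
  refine Finset.sum_congr rfl fun g _ => ?_
  unfold cut
  have : Nat.Coprime (orderOf g) p ↔ ¬ p ∣ orderOf g := by
    rw [Nat.coprime_comm]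
    exact hp.coprime_iff_not_dvd
  by_cases h : p ∣ orderOf g
  · rw [if_neg (fun h' => (this.mp h') h), if_pos h, zero_mul]
  · rw [if_pos (this.mpr h), if_neg h]

lemma link_iff {p : ℕ} (hp : p.Prime) {χ ψ : G → ℂ} :
    Link p χ ψ ↔ IsIrr χ ∧ IsIrr ψ ∧ IC.B (cut p χ) ψ ≠ 0 := by
  have hG0 : (Nat.card G : ℂ) ≠ 0 := by exact_mod_cast Nat.card_pos.ne'
  unfold Link
  rw [sum_eq_B hp, mul_ne_zero_iff]
  have h1 := simple_iff (χ := χ)
  have h2 := simple_iff (χ := ψ)
  unfold SimpleChar at h1 h2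
  rw [h1, h2]
  tauto

/-- every block has a defect group -/
theorem exists_defect {p : ℕ} [hp : Fact p.Prime] {O : ValuationSubring ℂ}
    {B : Set (G → ℂ)} (hB : IsBlock O B) : ∃ D : Subgroup G, IsDefectGroup p O B D := by
  classical
  obtain ⟨χ, hχ⟩ := hB.nonempty
  have hχi := hB.irr χ hχ
  have h1 := Pool.Agent.N20.red_Om (O := O) hχi (blockCoeff_cl hB.irr) (blockCoeff_mem hB)
  rw [Om_blockCoeff hB.irr hχi, if_pos hχ, red_one] at h1
  have h2 : ∃ K : ConjClasses G, red O (blockCoeff B (rep K)) * red O (omega χ (rep K)) ≠ 0 := by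
    by_contra hcon
    push Not at hcon
    rw [Finset.sum_eq_zero (fun K _ => hcon K)] at h1
    exact one_ne_zero h1
  obtain ⟨K, hK⟩ := h2
  have h3 := left_ne_zero_of_mul hK
  have h4 := right_ne_zero_of_mul hK
  refine ⟨((default : Sylow p (Subgroup.centralizer ({rep K} : Set G))) :
      Subgroup (Subgroup.centralizer ({rep K} : Set G))).map
        (Subgroup.centralizer ({rep K} : Set G)).subtype, rep K, ⟨_, rfl⟩, ?_, ?_⟩
  · intro ψ hψ hn
    apply h4
    rw [hB.red_eq hχ hψ]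
    exact red_eq_zero hn
  · intro hn
    exact h3 (red_eq_zero hn)

lemma B_ne {p : ℕ} [hp : Fact p.Prime] {O : ValuationSubring ℂ} (hpO : (p : ℂ) ∈ O.nonunits)
    {D : Subgroup G} {B : Set (G → ℂ)} (hB : IsBlock O B) (hD : IsDefectGroup p O B D)
    {χ ψ : G → ℂ} (hχ : χ ∈ B) (hψ : ψ ∈ B) (hu : red O (uu D ψ) ≠ 0) :
    IC.B (cut p χ) ψ ≠ 0 := by
  haveI := charP_RF hpO
  have hχi := hB.irr χ hχ
  have hψi := hB.irr ψ hψ
  intro h0
  have hcard : (Nat.card D : ℂ) * IC.B (cut p χ) ψ = uu D χ * SS p χ ψ :=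
    card_mul_B D hχi (fun g y => hψi.conj g y)
  rw [h0, mul_zero] at hcard
  have hunit : red O (SS p χ ψ) ≠ 0 := by
    rw [red_SS hχi hψi, sr_eq hpO hB hD hχ hψ]
    exact mul_ne_zero hu (Pool.Agent.N20.cc_ne hpO hB hD hχ)
  rcases mul_eq_zero.mp hcard.symm with h | h
  · exact uu_ne hχi h
  · rw [h, red_zero] at hunit
    exact hunit rfl

/-- linkage classes are blocks -/
theorem blk_eq {p : ℕ} [hp : Fact p.Prime] {O : ValuationSubring ℂ} (hpO : (p : ℂ) ∈ O.nonunits)
    {B : Set (G → ℂ)} (hB : IsBlock O B) {χ₀ : G → ℂ} (h₀ : χ₀ ∈ B) : Blk p χ₀ = B := by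
  obtain ⟨D, hD⟩ := exists_defect (p := p) hB
  obtain ⟨η, hη, hηu⟩ := exists_uu_ne hpO hB hD
  ext χ
  constructor
  · intro h
    induction h with
    | refl => exact h₀
    | tail _ h1 ih =>
      obtain ⟨-, h2, h3⟩ := (link_iff hp.out).mp h1
      by_contra hcon
      exact h3 (blk_orth hpO hB ih h2 hcon)
  · intro h
    have h1 : Link p χ₀ η :=
      (link_iff hp.out).mpr ⟨hB.irr _ h₀, hB.irr _ hη, B_ne hpO hB hD h₀ hη hηu⟩
    have h2 : Link p η χ := by
      refine (link_iff hp.out).mpr ⟨hB.irr _ hη, hB.irr _ h, ?_⟩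
      rw [B_cut_comm]
      exact B_ne hpO hB hD h hη hηu
    exact (Relation.ReflTransGen.single h1).tail h2

lemma exists_block (O : ValuationSubring ℂ) {χ₀ : G → ℂ} (h₀ : IsIrr χ₀) :
    ∃ B : Set (G → ℂ), IsBlock O B ∧ χ₀ ∈ B :=
  ⟨_, ⟨χ₀, h₀, rfl⟩, h₀, fun x => by rw [sub_self]; exact O.nonunits.zero_mem⟩

end Run7.h179
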