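import Mathlib
import Pool.Agent.Run7.h179.Har6
import Pool.Agent.Run7.h179.Wrap

/-!
Dimension counts for a set with vanishing sums.
-/

set_option autoImplicit false
set_option linter.style.haveILetI false
set_option linter.unusedSectionVars false

open scoped BigOperators Classical
open Pool.Agent.Helper884 Pool.Agent.H254R3.IN Pool.Agent.N20

noncomputable section

namespace Run7.h179

variable {G : Type} [Group G] [Fintype G]

/-- the inner product with a function on the `p`-regular elements -/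
def lf (p : ℕ) (h : G → ℂ) : ({g : G // ¬ p ∣ orderOf g} → ℂ) →ₗ[ℂ] ℂ where
  toFun f := (Nat.card G : ℂ)⁻¹ * ∑ g : {g : G // ¬ p ∣ orderOf g}, f g * h (g : G)⁻¹
  map_add' c c' := by
    simp only [Pi.add_apply, add_mul, Finset.sum_add_distrib, mul_add]
  map_smul' a c := by
    simp only [Pi.smul_apply, smul_eq_mul, Finset.mul_sum, RingHom.id_apply]
    exact Finset.sum_congr rfl fun χ _ => by ring

lemma lf_rs (p : ℕ) (h χ : G → ℂ) : lf p h (rs p χ) = IC.B (cut p χ) h := by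
  change (Nat.card G : ℂ)⁻¹ * ∑ g : {g : G // ¬ p ∣ orderOf g}, χ g * h (g : G)⁻¹ = _
  unfold IC.B
  congr 1
  rw [← Finset.sum_subtype (Finset.univ.filter fun g : G => ¬ p ∣ orderOf g)
    (fun g => by rw [Finset.mem_filter]; simp)
    (fun g : G => χ g * h g⁻¹), Finset.sum_filter]
  refine Finset.sum_congr rfl fun g _ => ?_
  unfold cut
  by_cases h' : p ∣ orderOf g
  · rw [if_neg (not_not.mpr h'), if_pos h', zero_mul]
  · rw [if_pos h', if_neg h']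

lemma B_SJ (p : ℕ) (J : Finset (G → ℂ)) (f : G → ℂ) :
    IC.B f (SJ J) = ∑ η ∈ J, IC.B f η * η 1 := by
  unfold IC.B SJ
  simp only [Finset.mul_sum, Finset.sum_mul]
  rw [Finset.sum_comm]
  exact Finset.sum_congr rfl fun g _ => Finset.sum_congr rfl fun η _ => by ring

lemma Rg_mono {p : ℕ} {S T : Set (G → ℂ)} (h : S ⊆ T) : Rg p S ≤ Rg p T :=
  Submodule.span_mono (Set.image_mono h)

lemma Rg_union {p : ℕ} (S T : Set (G → ℂ)) : Rg p (S ∪ T) = Rg p S ⊔ Rg p T := by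
  unfold Rg
  rw [Set.image_union, Submodule.span_union]

lemma finrank_Rg_le (p : ℕ) (J : Finset (G → ℂ)) :
    Module.finrank ℂ (Rg p (J : Set (G → ℂ))) ≤ (J.image (rs p)).card := by
  have h1 : Rg p (J : Set (G → ℂ)) = Submodule.span ℂ ((J.image (rs p) : Finset _) :
      Set ({g : G // ¬ p ∣ orderOf g} → ℂ)) := by
    unfold Rg
    rw [Finset.coe_image]
    rfl
  rw [h1]
  exact finrank_span_finset_le_card _

section

variable {p : ℕ} [hp : Fact p.Prime] {O : ValuationSubring ℂ}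
    (hpO : (p : ℂ) ∈ O.nonunits) {D : Subgroup G} {B : Set (G → ℂ)} (hB : IsBlock O B)
    {J₁ J₂ : Finset (G → ℂ)}
    (hun : J₁ ∪ J₂ = XB B) (hdis : Disjoint J₁ J₂)
    (h₁ : ∀ g : G, p ∣ orderOf g → SJ J₁ g = 0) (h₂ : ∀ g : G, p ∣ orderOf g → SJ J₂ g = 0)

include hB hun hdis h₁ h₂ in
/-- the intersection of the two spans has codimension at least two -/
theorem inter_add_two (hn₁ : J₁.Nonempty) (hn₂ : J₂.Nonempty) :
    Module.finrank ℂ (Rg p (J₁ : Set (G → ℂ)) ⊓ Rg p (J₂ : Set (G → ℂ)) : Submodule ℂ _) + 2 ≤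
      Module.finrank ℂ (Rg p B) := by
  have hX : ∀ χ ∈ XB B, χ ∈ B := fun χ hχ => (mem_XB hB.irr).mp hχ
  have hXi : ∀ χ ∈ XB B, IsIrr χ := fun χ hχ => hB.irr χ (hX χ hχ)
  have hJ1X : J₁ ⊆ XB B := by rw [← hun]; exact Finset.subset_union_left
  have hJ2X : J₂ ⊆ XB B := by rw [← hun]; exact Finset.subset_union_right
  have hnot : ∀ η ∈ J₂, η ∉ J₁ := fun η h2 h1 => (Finset.disjoint_left.mp hdis) h1 h2
  have hval : ∀ (J : Finset (G → ℂ)), J ⊆ XB B → (∀ g : G, p ∣ orderOf g → SJ J g = 0) →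
      ∀ χ ∈ XB B, lf p (SJ J) (rs p χ) = if χ ∈ J then χ 1 else 0 := by
    intro J hJX hJ χ hχ
    rw [lf_rs, B_SJ p, B_cut_J (fun η hη => hXi η (hJX hη)) hJ (hXi χ hχ)]
  have hk : ∀ (J J' : Finset (G → ℂ)), J ⊆ XB B → J' ⊆ XB B →
      (∀ g : G, p ∣ orderOf g → SJ J g = 0) → (∀ η ∈ J', η ∉ J) →
      Rg p (J' : Set (G → ℂ)) ≤ LinearMap.ker (lf p (SJ J)) := by
    intro J J' hJX hJX' hJ hd
    unfold Rg
    rw [Submodule.span_le]
    rintro _ ⟨χ, hχ, rfl⟩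
    change lf p (SJ J) (rs p χ) = 0
    rw [hval J hJX hJ χ (hJX' hχ), if_neg (hd χ hχ)]
  have k1 := hk J₁ J₂ hJ1X hJ2X h₁ hnot
  have k2 := hk J₂ J₁ hJ2X hJ1X h₂ (fun η h1 h2 => hnot η h2 h1)
  set U := Rg p B with hU
  have hB1 : (J₁ : Set (G → ℂ)) ⊆ B := fun χ hχ => hX χ (hJ1X hχ)
  have hB2 : (J₂ : Set (G → ℂ)) ⊆ B := fun χ hχ => hX χ (hJ2X hχ)
  have e1 : U ⊓ LinearMap.ker (lf p (SJ J₁)) < U := by
    obtain ⟨χ, hχ⟩ := hn₁
    refine lt_of_le_of_ne inf_le_left fun h => ?_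
    have h1 : rs p χ ∈ U := rs_mem (hB1 hχ)
    rw [← h] at h1
    have h2 := hval J₁ hJ1X h₁ χ (hJ1X hχ)
    rw [if_pos hχ, LinearMap.mem_ker.mp h1.2] at h2
    exact (hXi χ (hJ1X hχ)).one_ne h2.symm
  have e2 : Rg p (J₁ : Set (G → ℂ)) ⊓ Rg p (J₂ : Set (G → ℂ)) <
      U ⊓ LinearMap.ker (lf p (SJ J₁)) := by
    obtain ⟨χ, hχ⟩ := hn₂
    refine lt_of_le_of_ne (le_inf (inf_le_left.trans (Rg_mono hB1)) (inf_le_right.trans k1))
      fun h => ?_
    have h1 : rs p χ ∈ U ⊓ LinearMap.ker (lf p (SJ J₁)) := ⟨rs_mem (hB2 hχ), k1 (rs_mem hχ)⟩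
    rw [← h] at h1
    have h2 := hval J₂ hJ2X h₂ χ (hJ2X hχ)
    rw [if_pos hχ, LinearMap.mem_ker.mp (k2 h1.1)] at h2
    exact (hXi χ (hJ2X hχ)).one_ne h2.symm
  have f1 := Submodule.finrank_lt_finrank_of_lt e1
  have f2 := Submodule.finrank_lt_finrank_of_lt e2
  omega

include hB hun hdis h₁ in
/-- characters with the same restriction to the `p`-regular elements are in the same part -/
theorem rs_disjoint : Disjoint (J₁.image (rs p)) (J₂.image (rs p)) := by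
  have hX : ∀ χ ∈ XB B, χ ∈ B := fun χ hχ => (mem_XB hB.irr).mp hχ
  have hXi : ∀ χ ∈ XB B, IsIrr χ := fun χ hχ => hB.irr χ (hX χ hχ)
  have hJ1X : J₁ ⊆ XB B := by rw [← hun]; exact Finset.subset_union_left
  have hJ2X : J₂ ⊆ XB B := by rw [← hun]; exact Finset.subset_union_right
  have hval : ∀ χ ∈ XB B, lf p (SJ J₁) (rs p χ) = if χ ∈ J₁ then χ 1 else 0 := by
    intro χ hχ
    rw [lf_rs, B_SJ p, B_cut_J (fun η hη => hXi η (hJ1X hη)) h₁ (hXi χ hχ)]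
  rw [Finset.disjoint_left]
  rintro _ ha hb
  obtain ⟨χ, hχ, rfl⟩ := Finset.mem_image.mp ha
  obtain ⟨ψ, hψ, hψχ⟩ := Finset.mem_image.mp hb
  have h3 := hval χ (hJ1X hχ)
  have h4 := hval ψ (hJ2X hψ)
  rw [if_pos hχ] at h3
  rw [if_neg (fun h => (Finset.disjoint_left.mp hdis) h hψ), hψχ, h3] at h4
  exact (hXi χ (hJ1X hχ)).one_ne h4

include hB hun hdis h₁ in
theorem inter_add_le :
    Module.finrank ℂ (Rg p (J₁ : Set (G → ℂ)) ⊓ Rg p (J₂ : Set (G → ℂ)) : Submodule ℂ _) +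
      Module.finrank ℂ (Rg p B) ≤ Nat.card (rs p '' B : Set _) := by
  have h1 := Submodule.finrank_sup_add_finrank_inf_eq (Rg p (J₁ : Set (G → ℂ)))
    (Rg p (J₂ : Set (G → ℂ)))
  have h2 : (J₁ : Set (G → ℂ)) ∪ (J₂ : Set (G → ℂ)) = B := by
    rw [← Finset.coe_union, hun]
    ext χ
    rw [Finset.mem_coe]
    exact mem_XB hB.irr
  rw [← Rg_union, h2] at h1
  have h3 := finrank_Rg_le p J₁
  have h4 := finrank_Rg_le p J₂
  have h5 : Nat.card (rs p '' B : Set _) = (J₁.image (rs p)).card + (J₂.image (rs p)).card := by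
    rw [← Finset.card_union_of_disjoint (rs_disjoint hB hun hdis h₁), ← Finset.image_union, hun]
    have h6 : rs p '' B = (((XB B).image (rs p) : Finset _) :
        Set ({g : G // ¬ p ∣ orderOf g} → ℂ)) := by
      ext f
      rw [Finset.mem_coe, Finset.mem_image]
      constructor
      · rintro ⟨χ, hχ, rfl⟩
        exact ⟨χ, (mem_XB hB.irr).mpr hχ, rfl⟩
      · rintro ⟨χ, hχ, rfl⟩
        exact ⟨χ, (mem_XB hB.irr).mp hχ, rfl⟩
    rw [h6, Nat.card_coe_set_eq, Set.ncard_coe_finset]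
  omega

end

/-- **Counterexamples to Harada's conjecture.** -/
theorem har_rank {p : ℕ} (hp : p.Prime) {O : ValuationSubring ℂ}
    (hpO : (p : ℂ) ∈ O.nonunits) {B : Set (G → ℂ)} (hB : IsBlock O B)
    {J : Finset (G → ℂ)} (hJn : J.Nonempty) (hJB : ∀ χ ∈ J, χ ∈ B)
    (hJ : ∀ g : G, p ∣ orderOf g → SJ J g = 0) (hcon : ∃ ψ ∈ B, ψ ∉ J) :
    2 ≤ Module.finrank ℂ
      (Rg p (J : Set (G → ℂ)) ⊓ Rg p (B \ (J : Set (G → ℂ))) : Submodule ℂ _) ∧
    Module.finrank ℂ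
      (Rg p (J : Set (G → ℂ)) ⊓ Rg p (B \ (J : Set (G → ℂ))) : Submodule ℂ _) + 2 ≤
        Module.finrank ℂ (Rg p B) ∧
    Module.finrank ℂ
      (Rg p (J : Set (G → ℂ)) ⊓ Rg p (B \ (J : Set (G → ℂ))) : Submodule ℂ _) +
        Module.finrank ℂ (Rg p B) ≤ Nat.card (rs p '' B : Set _) := by
  haveI : Fact p.Prime := ⟨hp⟩
  obtain ⟨ψ, hψ, hψJ⟩ := hcon
  obtain ⟨D, hD⟩ := exists_defect (p := p) hB
  have hJX : J ⊆ XB B := fun χ hχ => (mem_XB hB.irr).mpr (hJB χ hχ)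
  have hJ' : ∀ g : G, p ∣ orderOf g → SJ (XB B \ J) g = 0 := by
    intro g hg
    rw [SJ_sdiff hJX, SJ_block hpO hB g hg, hJ g hg, sub_zero]
  have hne : (XB B \ J).Nonempty :=
    ⟨ψ, Finset.mem_sdiff.mpr ⟨(mem_XB hB.irr).mpr hψ, hψJ⟩⟩
  have hun : J ∪ (XB B \ J) = XB B := Finset.union_sdiff_of_subset hJX
  have hdis : Disjoint J (XB B \ J) := Finset.disjoint_sdiff
  have hcoe : B \ (J : Set (G → ℂ)) = ((XB B \ J : Finset (G → ℂ)) : Set (G → ℂ)) := by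
    ext χ
    rw [Finset.coe_sdiff]
    constructor
    · rintro ⟨h1, h2⟩
      exact ⟨(mem_XB hB.irr).mpr h1, h2⟩
    · rintro ⟨h1, h2⟩
      exact ⟨(mem_XB hB.irr).mp h1, h2⟩
  rw [hcoe]
  refine ⟨?_, inter_add_two hB hun hdis hJ hJ' hJn hne, inter_add_le hB hun hdis hJ⟩
  by_contra hlt
  push Not at hlt
  have hdim : Module.finrank ℂ (Rg p (J : Set (G → ℂ)) ⊓
      Rg p ((XB B \ J : Finset (G → ℂ)) : Set (G → ℂ)) : Submodule ℂ _) ≤ 1 := by omega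
  obtain ⟨χ₀, hχ₀, hχ₀u⟩ := exists_uu_ne hpO hB hD
  by_cases h : χ₀ ∈ J
  · exact no_split1 hpO hB hD hun hdis hJ' h hχ₀u hne hdim
  · exact no_split1 hpO hB hD (by rw [Finset.union_comm]; exact hun) hdis.symm hJ
      (Finset.mem_sdiff.mpr ⟨(mem_XB hB.irr).mpr hχ₀, h⟩) hχ₀u hJn (by rw [inf_comm]; exact hdim)

end Run7.h179
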