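import Mathlib
import Pool.Agent.Helper884.IC.Suf3

/-!
The `p`-regular elements of a coset of a normal `p`-subgroup are conjugate.
-/

set_option autoImplicit false
set_option linter.style.haveILetI false
set_option linter.unusedSectionVars false

open scoped BigOperators Classical
open Pool.Agent.Helper884

noncomputable section

namespace Run7.h179

variable {G : Type} [Group G] [Fintype G]

theorem conj_of_coset {p : ℕ} [hp : Fact p.Prime] (Q : Subgroup G) [hQn : Q.Normal]
    (hQ : IsPGroup p Q) {x y : G} (hx : ¬ p ∣ orderOf x) (hy : ¬ p ∣ orderOf y)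
    (hxy : x⁻¹ * y ∈ Q) : ∃ q ∈ Q, q * x * q⁻¹ = y := by
  obtain ⟨e, e', h1, h2, -, -, -⟩ := IC.exists_exps p G
  by_contra hcon
  push Not at hcon
  letI : MulAction Q G := MulAction.compHom G ((MulAut.conj : G →* MulAut G).comp Q.subtype)
  have hsm : ∀ (q : Q) (g : G), q • g = (q : G) * g * (q : G)⁻¹ := fun q g => rfl
  have hpow : ∀ z v : G, ¬ p ∣ orderOf z → v ∈ Q → Commute z v → (z * v) ^ e = z := by
    intro z v hz hv hc
    rw [hc.mul_pow, h1 z hz]
    have : IC.IsPE p v := by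
      obtain ⟨k, hk⟩ := (IsPGroup.iff_orderOf.mp hQ) ⟨v, hv⟩
      have h3 : orderOf v = p ^ k := by
        rw [← hk]
        exact (Subgroup.orderOf_mk v hv).symm
      exact ⟨k, h3⟩
    rw [h2 v this, mul_one]
  -- the orbit
  choose c hc using fun z : MulAction.orbit Q x => z.2
  have hreg : ∀ z : MulAction.orbit Q x, ¬ p ∣ orderOf (z : G) := by
    intro z
    have h3 : (z : G) = (c z : G) * x * (c z : G)⁻¹ := by
      rw [← hsm]; exact (hc z).symm
    rw [h3]
    have : orderOf ((c z : G) * x * (c z : G)⁻¹) = orderOf x := by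
      have := orderOf_injective (MulAut.conj (c z : G)).toMonoidHom
        (MulAut.conj (c z : G)).injective x
      simpa using this
    rwa [this]
  have hz' : ∀ z : MulAction.orbit Q x, (z : G) = (c z : G) * x * (c z : G)⁻¹ := by
    intro z
    rw [← hsm]; exact (hc z).symm
  have hstab : ∀ u : MulAction.stabilizer Q x, (u : Q) * x * ((u : Q) : G)⁻¹ = x := by
    intro u
    have := MulAction.mem_stabilizer_iff.mp u.2
    rwa [hsm] at this
  let v : MulAction.orbit Q x × MulAction.stabilizer Q x → G := fun w =>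
    (c w.1 : G) * ((w.2 : Q) : G) * (c w.1 : G)⁻¹
  have hvQ : ∀ w, v w ∈ Q := fun w =>
    Q.mul_mem (Q.mul_mem (c w.1).2 (w.2 : Q).2) (Q.inv_mem (c w.1).2)
  have hvc : ∀ w, Commute ((w.1 : G)) (v w) := by
    intro w
    have h3 := hstab w.2
    have h4 : ((w.2 : Q) : G) * x = x * ((w.2 : Q) : G) := by
      calc ((w.2 : Q) : G) * x = (((w.2 : Q) : G) * x * ((w.2 : Q) : G)⁻¹) * ((w.2 : Q) : G) := by
            group
        _ = x * ((w.2 : Q) : G) := by rw [h3]
    change (w.1 : G) * v w = v w * (w.1 : G)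
    rw [hz' w.1]
    change (c w.1 : G) * x * (c w.1 : G)⁻¹ * ((c w.1 : G) * ((w.2 : Q) : G) * (c w.1 : G)⁻¹) =
      ((c w.1 : G) * ((w.2 : Q) : G) * (c w.1 : G)⁻¹) * ((c w.1 : G) * x * (c w.1 : G)⁻¹)
    calc _ = (c w.1 : G) * (x * ((w.2 : Q) : G)) * (c w.1 : G)⁻¹ := by group
      _ = (c w.1 : G) * (((w.2 : Q) : G) * x) * (c w.1 : G)⁻¹ := by rw [h4]
      _ = _ := by group
  have hzv : ∀ w, ((w.1 : G) * v w) ^ e = (w.1 : G) := fun w =>
    hpow _ _ (hreg w.1) (hvQ w) (hvc w)
  have hzx : ∀ w : MulAction.orbit Q x × MulAction.stabilizer Q x,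
      x⁻¹ * ((w.1 : G) * v w) ∈ Q := by
    intro w
    rw [hz' w.1]
    have h3 : x⁻¹ * ((c w.1 : G) * x * (c w.1 : G)⁻¹ * v w) =
        (x⁻¹ * (c w.1 : G) * x) * (c w.1 : G)⁻¹ * v w := by group
    rw [h3]
    refine Q.mul_mem (Q.mul_mem ?_ (Q.inv_mem (c w.1).2)) (hvQ w)
    have := hQn.conj_mem (c w.1 : G) (c w.1).2 x⁻¹
    simpa using this
  let f : (MulAction.orbit Q x × MulAction.stabilizer Q x) ⊕ Unit → Q := fun s =>
    Sum.elim (fun w => ⟨x⁻¹ * ((w.1 : G) * v w), hzx w⟩) (fun _ => ⟨x⁻¹ * y, hxy⟩) s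
  have hne : ∀ w, (w.1 : G) * v w ≠ y := by
    intro w h
    have h3 := hzv w
    rw [h, h1 y hy, hz' w.1] at h3
    exact hcon (c w.1 : G) (c w.1).2 h3.symm
  have hinj : Function.Injective f := by
    rintro (w | a) (w' | a') h
    · have h3 : x⁻¹ * ((w.1 : G) * v w) = x⁻¹ * ((w'.1 : G) * v w') := congrArg Subtype.val h
      have h4 := mul_left_cancel h3
      have h5 : (w.1 : G) = (w'.1 : G) := by rw [← hzv w, h4, hzv w']
      have h6 : w.1 = w'.1 := Subtype.ext h5
      have h7 : v w = v w' := by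
        rw [h5] at h4
        exact mul_left_cancel h4
      have h8 : (c w.1 : G) * ((w.2 : Q) : G) * (c w.1 : G)⁻¹ =
          (c w'.1 : G) * ((w'.2 : Q) : G) * (c w'.1 : G)⁻¹ := h7
      rw [h6] at h8
      have h9 : ((w.2 : Q) : G) = ((w'.2 : Q) : G) := mul_left_cancel (mul_right_cancel h8)
      have h10 : w.2 = w'.2 := Subtype.ext (Subtype.ext h9)
      exact congrArg Sum.inl (Prod.ext h6 h10)
    · have h3 : x⁻¹ * ((w.1 : G) * v w) = x⁻¹ * y := congrArg Subtype.val h
      exact absurd (mul_left_cancel h3) (hne w)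
    · have h3 : x⁻¹ * y = x⁻¹ * ((w'.1 : G) * v w') := congrArg Subtype.val h
      exact absurd (mul_left_cancel h3).symm (hne w')
    · rfl
  have hcard := Fintype.card_le_of_injective f hinj
  rw [Fintype.card_sum, Fintype.card_prod,
    MulAction.card_orbit_mul_card_stabilizer_eq_card_group Q x] at hcard
  simp at hcard

end Run7.h179
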