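import Mathlib
import Pool.Agent.Run7.h179.Wrap
import Pool.Agent.Run7.h179.Cst

/-!
The central idempotent of a set of irreducible characters: support and integrality.
-/

set_option autoImplicit false
set_option linter.style.haveILetI false
set_option linter.unusedSectionVars false

open scoped BigOperators Classical
open Pool.Agent.Helper884 Pool.Agent.H254R3.IN Pool.Agent.N20

noncomputable section

namespace Run7.h179

variable {G : Type} [Group G] [Fintype G]

/-- the coefficients of the central idempotent of a set of irreducible characters -/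
def ec (J : Finset (G → ℂ)) (g : G) : ℂ := (Nat.card G : ℂ)⁻¹ * SJ J g⁻¹

lemma ec_eq {J : Finset (G → ℂ)} (hJi : ∀ χ ∈ J, IsIrr χ) :
    blockCoeff (J : Set (G → ℂ)) = ec J := by
  funext x
  rw [blockCoeff_eq (fun χ hχ => hJi χ hχ)]
  unfold ec SJ
  congr 1
  refine Finset.sum_congr ?_ fun _ _ => rfl
  ext χ
  simp only [Finset.mem_filter, Finset.mem_coe]
  exact ⟨fun h => h.2, fun h => ⟨mem_Irr.mpr (hJi χ h), h⟩⟩

lemma ec_cl {J : Finset (G → ℂ)} (hJi : ∀ χ ∈ J, IsIrr χ) : IsCl (ec J) := by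
  rw [← ec_eq hJi]
  exact blockCoeff_cl (fun χ hχ => hJi χ hχ)

lemma Om_ec {J : Finset (G → ℂ)} (hJi : ∀ χ ∈ J, IsIrr χ) {ψ : G → ℂ} (hψ : IsIrr ψ) :
    Om (ec J) ψ = if ψ ∈ J then 1 else 0 := by
  rw [← ec_eq hJi, Om_blockCoeff (fun χ hχ => hJi χ hχ) hψ]
  simp only [Finset.mem_coe]

lemma ec_conv {J : Finset (G → ℂ)} (hJi : ∀ χ ∈ J, IsIrr χ) : conv (ec J) (ec J) = ec J := by
  refine eq_of_Om ((ec_cl hJi).conv (ec_cl hJi)) (ec_cl hJi) fun χ hχ => ?_
  rw [Om_conv hχ (ec_cl hJi) (ec_cl hJi), Om_ec hJi hχ]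
  split_ifs <;> simp

lemma ec_star {J : Finset (G → ℂ)} (hJi : ∀ χ ∈ J, IsIrr χ) (g : G) :
    (starRingEnd ℂ) (ec J g) = ec J g⁻¹ := by
  unfold ec SJ
  rw [map_mul, map_inv₀, Complex.conj_natCast, map_sum]
  congr 1
  refine Finset.sum_congr rfl fun χ hχ => ?_
  have hχi := hJi χ hχ
  rw [map_mul, ← Pool.Agent.Y62.conj_char hχi 1, ← Pool.Agent.Y62.conj_char hχi g⁻¹, inv_one]

lemma ec_van {p : ℕ} {J : Finset (G → ℂ)} (hJ : ∀ g : G, p ∣ orderOf g → SJ J g = 0) (g : G)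
    (hg : p ∣ orderOf g) : ec J g = 0 := by
  unfold ec
  rw [hJ g⁻¹ (by rwa [orderOf_inv]), mul_zero]

/-- **Support.** If the idempotent is supported on `p`-regular elements, it is supported on the
elements centralizing every normal `p`-subgroup. -/
theorem ec_cent {p : ℕ} [hp : Fact p.Prime] (Q : Subgroup G) [hQn : Q.Normal]
    (hQ : IsPGroup p Q) {J : Finset (G → ℂ)} (hJi : ∀ χ ∈ J, IsIrr χ)
    (hJ : ∀ g : G, p ∣ orderOf g → ec J g = 0) {y q : G} (hq : q ∈ Q) (hyq : q * y ≠ y * q) :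
    ec J y = 0 := by
  by_cases hy : p ∣ orderOf y
  · exact hJ y hy
  set z : G := q * y * q⁻¹ with hz
  have hzy : z ≠ y := by
    intro h
    apply hyq
    rw [hz] at h
    calc q * y = (q * y * q⁻¹) * q := by group
      _ = y * q := by rw [h]
  set w : G := y * z⁻¹ with hw
  have hwQ : w ∈ Q := by
    have h1 : w = (y * q * y⁻¹) * q⁻¹ := by rw [hw, hz]; group
    rw [h1]
    exact Q.mul_mem (hQn.conj_mem q hq y) (Q.inv_mem hq)
  have hw1 : w ≠ 1 := by
    intro h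
    apply hzy
    rw [hw] at h
    exact (mul_inv_eq_one.mp h).symm
  have hwp : p ∣ orderOf w := by
    obtain ⟨k, hk⟩ := (IsPGroup.iff_orderOf.mp hQ) ⟨w, hwQ⟩
    rw [Subgroup.orderOf_mk] at hk
    rw [hk]
    apply dvd_pow_self
    rintro rfl
    rw [pow_zero, orderOf_eq_one_iff] at hk
    exact hw1 hk
  have h1 : ∑ t : G, ec J t * (starRingEnd ℂ) (ec J (w⁻¹ * t)) = 0 := by
    have h2 := congrFun (ec_conv hJi) w
    rw [hJ w hwp] at h2
    unfold conv at h2
    rw [← h2]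
    refine Finset.sum_congr rfl fun t _ => ?_
    rw [ec_star hJi]
    congr 2
    group
  have hterm : ∀ t : G, ec J t * (starRingEnd ℂ) (ec J (w⁻¹ * t)) =
      ((if ¬ p ∣ orderOf t ∧ ¬ p ∣ orderOf (w⁻¹ * t) then Complex.normSq (ec J t) else 0 : ℝ) :
        ℂ) := by
    intro t
    by_cases ht : p ∣ orderOf t
    · rw [hJ t ht, zero_mul, if_neg (fun h => h.1 ht)]
      simp
    by_cases ht' : p ∣ orderOf (w⁻¹ * t)
    · rw [hJ _ ht', map_zero, mul_zero, if_neg (fun h => h.2 ht')]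
      simp
    rw [if_pos ⟨ht, ht'⟩]
    have hQ' : t⁻¹ * (w⁻¹ * t) ∈ Q := by
      have := hQn.conj_mem w⁻¹ (Q.inv_mem hwQ) t⁻¹
      rw [inv_inv] at this
      rwa [← mul_assoc]
    obtain ⟨r, -, hr⟩ := conj_of_coset Q hQ ht ht' hQ'
    have h3 : ec J (w⁻¹ * t) = ec J t := by
      rw [← hr]
      exact ec_cl hJi t r
    rw [h3, Complex.mul_conj]
  rw [Finset.sum_congr rfl (fun t _ => hterm t), ← Complex.ofReal_sum] at h1
  have h2 : ∑ t : G, (if ¬ p ∣ orderOf t ∧ ¬ p ∣ orderOf (w⁻¹ * t) then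
      Complex.normSq (ec J t) else 0 : ℝ) = 0 := by exact_mod_cast h1
  have h3 := (Finset.sum_eq_zero_iff_of_nonneg (by
    intro t _
    split_ifs
    · exact Complex.normSq_nonneg _
    · exact le_refl 0)).mp h2 y (Finset.mem_univ _)
  have h4 : w⁻¹ * y = z := by rw [hw]; group
  have h5 : orderOf z = orderOf y := orderOf_conj' y q
  rw [if_pos ⟨hy, by rw [h4, h5]; exact hy⟩] at h3
  exact Complex.normSq_eq_zero.mp h3

/-- if the coefficients are integral, the set is a union of blocks -/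
theorem union_of_mem {O : ValuationSubring ℂ} {J : Finset (G → ℂ)} (hJi : ∀ χ ∈ J, IsIrr χ)
    (hO : ∀ g, ec J g ∈ O) {B : Set (G → ℂ)} (hB : IsBlock O B) {χ ψ : G → ℂ} (hχ : χ ∈ B)
    (hψ : ψ ∈ B) (hχJ : χ ∈ J) : ψ ∈ J := by
  by_contra hψJ
  have h1 := Pool.Agent.N20.red_Om (O := O) (hB.irr χ hχ) (ec_cl hJi) hO
  have h2 := Pool.Agent.N20.red_Om (O := O) (hB.irr ψ hψ) (ec_cl hJi) hO
  rw [Om_ec hJi (hB.irr χ hχ), if_pos hχJ, red_one] at h1
  rw [Om_ec hJi (hB.irr ψ hψ), if_neg hψJ, red_zero] at h2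
  have h3 : (1 : RF O) = 0 := by
    rw [h1, h2]
    exact Finset.sum_congr rfl fun K _ => by rw [hB.red_eq hχ hψ]
  exact one_ne_zero h3

/-- block orthogonality -/
theorem blk_orth2 {O : ValuationSubring ℂ} {p : ℕ} [hp : Fact p.Prime]
    (hpO : (p : ℂ) ∈ O.nonunits) {B : Set (G → ℂ)} (hB : IsBlock O B) {x g : G}
    (hx : p ∣ orderOf x) (hg : ¬ p ∣ orderOf g) : ∑ φ ∈ XB B, φ x⁻¹ * φ g = 0 := by
  have h1 := FB_zero hpO hB (F := ind x) (ind_cl x)
    (by
      intro g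
      unfold ind
      split_ifs
      · exact isIntegral_one
      · exact isIntegral_zero)
    (by
      intro g hg
      unfold ind
      rw [if_neg]
      intro hc
      obtain ⟨c, rfl⟩ := isConj_iff.mp hc
      rw [orderOf_conj'] at hg
      exact hg hx) (g := g) hg
  have h2 : FB B (ind x) g = ((Nat.card {y : G // IsConj x y} : ℂ) * (Nat.card G : ℂ)⁻¹) *
      ∑ φ ∈ XB B, φ x⁻¹ * φ g := by
    unfold FB
    rw [Finset.mul_sum]
    refine Finset.sum_congr rfl fun φ hφ => ?_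
    have hφi : IsIrr φ := mem_Irr.mp (Finset.mem_filter.mp hφ).1
    unfold IC.B
    have h3 : ∑ g : G, ind x g * φ g⁻¹ = (Nat.card {y : G // IsConj x y} : ℂ) * φ x⁻¹ := by
      unfold ind
      simp only [ite_mul, one_mul, zero_mul]
      rw [← Finset.sum_filter]
      rw [Finset.sum_congr rfl (g := fun _ => φ x⁻¹)
        (fun y hy => by
          obtain ⟨c, hc⟩ := isConj_iff.mp (Finset.mem_filter.mp hy).2
          rw [← hc]
          have : (c * x * c⁻¹)⁻¹ = c * x⁻¹ * c⁻¹ := by group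
          rw [this, hφi.conj]), Finset.sum_const, nsmul_eq_mul]
      congr 2
      rw [Nat.card_eq_fintype_card, Fintype.card_subtype]
    rw [h3]
    ring
  rw [h2] at h1
  have h3 : ((Nat.card {y : G // IsConj x y} : ℕ) : ℂ) ≠ 0 := by
    exact_mod_cast (card_class_pos x).ne'
  have hG0 : (Nat.card G : ℂ) ≠ 0 := by exact_mod_cast Nat.card_pos.ne'
  exact (mul_eq_zero.mp h1).resolve_left (mul_ne_zero h3 (inv_ne_zero hG0))

/-- the part of the set in a block has vanishing sums as well -/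
theorem SJ_inter {O : ValuationSubring ℂ} {p : ℕ} [hp : Fact p.Prime]
    (hpO : (p : ℂ) ∈ O.nonunits) {B : Set (G → ℂ)} (hB : IsBlock O B) {I : Finset (G → ℂ)}
    (hIi : ∀ χ ∈ I, IsIrr χ) (hI : ∀ g : G, p ∣ orderOf g → SJ I g = 0) (x : G)
    (hx : p ∣ orderOf x) : SJ (I.filter (· ∈ B)) x = 0 := by
  have h1 : SJ (I.filter (· ∈ B)) x = ∑ φ ∈ XB B, IC.B (SJ I) φ * φ x := by
    have h2 : ∀ φ ∈ XB B, IC.B (SJ I) φ = if φ ∈ I then φ 1 else 0 := by
      intro φ hφ
      have hφi := hB.irr φ ((mem_XB hB.irr).mp hφ)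
      have h3 : IC.B (SJ I) φ = ∑ χ ∈ I, χ 1 * IC.B χ φ := by
        unfold IC.B SJ
        simp only [Finset.mul_sum, Finset.sum_mul]
        rw [Finset.sum_comm]
        exact Finset.sum_congr rfl fun _ _ => Finset.sum_congr rfl fun _ _ => by ring
      rw [h3, Finset.sum_congr rfl (fun χ hχ => by rw [IC.B_irr (hIi χ hχ) hφi])]
      simp only [mul_ite, mul_one, mul_zero, Finset.sum_ite_eq']
    rw [Finset.sum_congr rfl (fun φ hφ => by rw [h2 φ hφ])]
    unfold SJ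
    simp only [ite_mul, zero_mul]
    rw [← Finset.sum_filter]
    refine Finset.sum_congr ?_ fun _ _ => rfl
    ext φ
    rw [Finset.mem_filter, Finset.mem_filter, mem_XB hB.irr]
    tauto
  rw [h1]
  have h2 : ∑ φ ∈ XB B, IC.B (SJ I) φ * φ x =
      (Nat.card G : ℂ)⁻¹ * ∑ g : G, SJ I g * ∑ φ ∈ XB B, φ x * φ g⁻¹ := by
    unfold IC.B
    simp only [Finset.mul_sum, Finset.sum_mul]
    rw [Finset.sum_comm]
    exact Finset.sum_congr rfl fun _ _ => Finset.sum_congr rfl fun _ _ => by ring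
  rw [h2, Finset.sum_eq_zero, mul_zero]
  intro g _
  by_cases hg : p ∣ orderOf g
  · rw [hI g hg, zero_mul]
  · have h3 := blk_orth2 hpO hB (x := x⁻¹) (g := g⁻¹) (by rwa [orderOf_inv]) (by rwa [orderOf_inv])
    rw [inv_inv] at h3
    rw [h3, mul_zero]

/-- a union of blocks has integral coefficients -/
theorem ec_mem {O : ValuationSubring ℂ} (I : Finset (G → ℂ)) (hIi : ∀ χ ∈ I, IsIrr χ)
    (hI : ∀ b : Set (G → ℂ), IsBlock O b → (∃ η ∈ b, η ∈ I) → ∀ η ∈ b, η ∈ I) (g : G) :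
    ec I g ∈ O := by
  induction' hn : I.card using Nat.strong_induction_on with n ih generalizing I
  rcases I.eq_empty_or_nonempty with rfl | ⟨η, hη⟩
  · unfold ec SJ
    simp
  · obtain ⟨b, hb, hηb⟩ := exists_block O (hIi η hη)
    have hbI : ∀ φ ∈ b, φ ∈ I := hI b hb ⟨η, hηb, hη⟩
    have hXI : XB b ⊆ I := fun φ hφ => hbI φ ((mem_XB hb.irr).mp hφ)
    have h1 : ec I g = ec (I \ XB b) g + ec (XB b) g := by
      unfold ec SJ
      rw [← mul_add, Finset.sum_sdiff hXI]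
    have hcoe : ((XB b : Finset (G → ℂ)) : Set (G → ℂ)) = b := by
      ext φ
      rw [Finset.mem_coe]
      exact mem_XB hb.irr
    rw [h1]
    refine O.add_mem _ _ ?_ ?_
    · refine ih (I \ XB b).card ?_ (I \ XB b) (fun χ hχ => hIi χ (Finset.mem_sdiff.mp hχ).1) ?_ rfl
      · rw [← hn]
        refine Finset.card_lt_card (Finset.ssubset_iff_subset_ne.mpr ⟨Finset.sdiff_subset, ?_⟩)
        intro h
        rw [← h] at hη
        exact (Finset.mem_sdiff.mp hη).2 ((mem_XB hb.irr).mpr hηb)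
      · rintro b' hb' ⟨φ, hφb', hφ⟩ ψ hψ
        obtain ⟨hφI, hφb⟩ := Finset.mem_sdiff.mp hφ
        refine Finset.mem_sdiff.mpr ⟨hI b' hb' ⟨φ, hφb', hφI⟩ ψ hψ, fun hψb => hφb ?_⟩
        rw [mem_XB hb.irr] at hψb ⊢
        -- two blocks with a common character are equal
        obtain ⟨χ₀, h0, rfl⟩ := hb
        refine ⟨hb'.irr φ hφb', fun x => ?_⟩
        have h2 := hb'.red_eq hφb' hψ x
        have h3 := hψb.2 x
        have hφi := hb'.irr φ hφb'
        have hψi := hb'.irr ψ hψ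
        rw [← red_eq_iff (hψi.omega_mem O x) (h0.omega_mem O x)] at h3
        rw [← red_eq_iff (hφi.omega_mem O x) (h0.omega_mem O x), h2, h3]
    · rw [← ec_eq (fun χ hχ => hb.irr χ ((mem_XB hb.irr).mp hχ)), hcoe]
      exact blockCoeff_mem hb g

end Run7.h179
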