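import Mathlib
import Pool.Agent.Run7.h179.Nrm1

/-!
Descent to a normal subgroup containing the support of the idempotent.
-/

set_option autoImplicit false
set_option linter.style.haveILetI false
set_option linter.unusedSectionVars false

open scoped BigOperators Classical
open Pool.Agent.Helper884 Pool.Agent.H254R3.IN Pool.Agent.N20

noncomputable section

namespace Run7.h179

variable {G : Type} [Group G] [Fintype G]

lemma sum_sub (N : Subgroup G) [Fintype N] (F : G → ℂ) (hF : ∀ x, x ∉ N → F x = 0) :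
    ∑ x : G, F x = ∑ m : N, F m := by
  rw [← Finset.sum_subtype (Finset.univ.filter fun g : G => g ∈ N)
    (fun g => by rw [Finset.mem_filter]; simp) F, Finset.sum_filter]
  refine Finset.sum_congr rfl fun x _ => ?_
  split_ifs with h
  · rfl
  · exact hF x h

lemma SJ_eq_ec (J : Finset (G → ℂ)) (g : G) : SJ J g = (Nat.card G : ℂ) * ec J g⁻¹ := by
  have hG0 : (Nat.card G : ℂ) ≠ 0 := by exact_mod_cast Nat.card_pos.ne'
  unfold ec
  rw [inv_inv, ← mul_assoc, mul_inv_cancel₀ hG0, one_mul]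

/-- a central idempotent function is the idempotent of a set of irreducible characters -/
lemma exists_set {f : G → ℂ} (hf : IsCl f) (hc : conv f f = f) :
    ∃ I : Finset (G → ℂ), (∀ η ∈ I, IsIrr η) ∧ ec I = f ∧
      ∀ η, IsIrr η → (η ∈ I ↔ Om f η ≠ 0) := by
  have h1 : ∀ η, IsIrr η → Om f η = 0 ∨ Om f η = 1 := by
    intro η hη
    have h2 := Om_conv hη hf hf
    rw [hc] at h2
    have h3 : Om f η * (Om f η - 1) = 0 := by linear_combination -h2
    rcases mul_eq_zero.mp h3 with h | h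
    · exact Or.inl h
    · exact Or.inr (sub_eq_zero.mp h)
  refine ⟨(IC.Irr G).filter (fun η => Om f η ≠ 0), ?_, ?_, ?_⟩
  · intro η hη
    exact mem_Irr.mp (Finset.mem_filter.mp hη).1
  · refine eq_of_Om (ec_cl fun η hη => mem_Irr.mp (Finset.mem_filter.mp hη).1) hf fun χ hχ => ?_
    rw [Om_ec (fun η hη => mem_Irr.mp (Finset.mem_filter.mp hη).1) hχ]
    simp only [Finset.mem_filter, mem_Irr.mpr hχ, true_and]
    rcases h1 χ hχ with h | h
    · rw [h]; simp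
    · rw [h]; simp
  · intro η hη
    simp only [Finset.mem_filter, mem_Irr.mpr hη, true_and]

lemma exists_under (N : Subgroup G) [Fintype N] {J : Finset (G → ℂ)} {η : N → ℂ} (hη : IsIrr η)
    (h : Om (fun n : N => ec J n) η ≠ 0) : ∃ χ ∈ J, IC.B (fun n : N => χ n) η ≠ 0 := by
  by_contra hcon
  push Not at hcon
  apply h
  unfold Om
  have hN0 : (Nat.card N : ℂ) ≠ 0 := by exact_mod_cast Nat.card_pos.ne'
  have h1 : ∑ n : N, ec J n * η n = (Nat.card G : ℂ)⁻¹ * ∑ χ ∈ J, χ 1 * ∑ n : N, χ n * η n⁻¹ := by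
    unfold ec SJ
    simp only [Finset.mul_sum, Finset.sum_mul]
    rw [Finset.sum_comm]
    refine Finset.sum_congr rfl fun χ _ => ?_
    refine Fintype.sum_equiv (Equiv.inv N) _ _ fun n => ?_
    simp only [Equiv.inv_apply, inv_inv, Subgroup.coe_inv]
    ring
  rw [h1, Finset.sum_eq_zero, mul_zero, zero_div]
  intro χ hχ
  have h2 := hcon χ hχ
  unfold IC.B at h2
  have h3 := (mul_eq_zero.mp h2).resolve_left (inv_ne_zero hN0)
  rw [h3, mul_zero]

/-- **Descent to a normal subgroup.** -/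
theorem har_normal {p : ℕ} [hp : Fact p.Prime] {O : ValuationSubring ℂ}
    (hpO : (p : ℂ) ∈ O.nonunits) {B : Set (G → ℂ)} (hB : IsBlock O B) (N : Subgroup G)
    [Fintype N] {J : Finset (G → ℂ)} (hJn : J.Nonempty) (hJB : ∀ χ ∈ J, χ ∈ B)
    (hJ : ∀ g : G, p ∣ orderOf g → SJ J g = 0) (hsup : ∀ g, g ∉ N → ec J g = 0)
    (hyp : ∀ b : Set (N → ℂ), IsBlock O b → (∃ χ ∈ B, ∃ η ∈ b, IC.B (fun n : N => χ n) η ≠ 0) →
      ∀ I : Finset (N → ℂ), I.Nonempty → (∀ η ∈ I, η ∈ b) →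
        (∀ n : N, p ∣ orderOf n → SJ I n = 0) → ∀ η ∈ b, η ∈ I) :
    ∀ χ ∈ B, χ ∈ J := by
  have hJi : ∀ χ ∈ J, IsIrr χ := fun χ hχ => hB.irr χ (hJB χ hχ)
  set eN : N → ℂ := fun n => ec J n with heN
  have hcl : IsCl eN := fun g y => ec_cl hJi (g : G) (y : G)
  have hconv : conv eN eN = eN := by
    funext n
    have h1 := congrFun (ec_conv hJi) (n : G)
    change _ = ec J n
    rw [← h1]
    unfold conv
    rw [sum_sub N _ (fun x hx => by rw [hsup x hx, zero_mul])]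
    exact Finset.sum_congr rfl fun _ _ => rfl
  obtain ⟨I, hIi, hIe, hIm⟩ := exists_set hcl hconv
  have hIv : ∀ n : N, p ∣ orderOf n → SJ I n = 0 := by
    intro n hn
    rw [SJ_eq_ec, hIe]
    have h1 : eN n⁻¹ = 0 := by
      change ec J ((n⁻¹ : N) : G) = 0
      refine ec_van hJ _ ?_
      rw [Subgroup.orderOf_coe, orderOf_inv]
      exact hn
    rw [h1, mul_zero]
  have hunion : ∀ b : Set (N → ℂ), IsBlock O b → (∃ η ∈ b, η ∈ I) → ∀ η ∈ b, η ∈ I := by
    rintro b hb ⟨η, hηb, hηI⟩ φ hφ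
    have hηi := hb.irr η hηb
    obtain ⟨χ, hχJ, hχη⟩ := exists_under N hηi ((hIm η hηi).mp hηI)
    have h1 := hyp b hb ⟨χ, hJB χ hχJ, η, hηb, hχη⟩ (I.filter (· ∈ b))
      ⟨η, Finset.mem_filter.mpr ⟨hηI, hηb⟩⟩ (fun θ hθ => (Finset.mem_filter.mp hθ).2)
      (fun n hn => SJ_inter hpO hb hIi hIv n hn) φ hφ
    exact (Finset.mem_filter.mp h1).1
  have hO : ∀ g, ec J g ∈ O := by
    intro g
    by_cases hg : g ∈ N
    · have h1 : ec J g = ec I ⟨g, hg⟩ := by rw [hIe]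
      rw [h1]
      exact ec_mem I hIi hunion _
    · rw [hsup g hg]
      exact O.zero_mem
  obtain ⟨χ, hχ⟩ := hJn
  intro ψ hψ
  exact union_of_mem hJi hO hB (hJB χ hχ) hψ hχ

/-- **Groups with a normal `p`-subgroup.** -/
theorem har_pcent {p : ℕ} [hp : Fact p.Prime] {O : ValuationSubring ℂ}
    (hpO : (p : ℂ) ∈ O.nonunits) {B : Set (G → ℂ)} (hB : IsBlock O B) (Q N : Subgroup G)
    [Fintype N] [hQn : Q.Normal] (hQ : IsPGroup p Q)
    (hN : ∀ g : G, ¬ p ∣ orderOf g → (∀ q ∈ Q, q * g = g * q) → g ∈ N)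
    {J : Finset (G → ℂ)} (hJn : J.Nonempty) (hJB : ∀ χ ∈ J, χ ∈ B)
    (hJ : ∀ g : G, p ∣ orderOf g → SJ J g = 0)
    (hyp : ∀ b : Set (N → ℂ), IsBlock O b → (∃ χ ∈ B, ∃ η ∈ b, IC.B (fun n : N => χ n) η ≠ 0) →
      ∀ I : Finset (N → ℂ), I.Nonempty → (∀ η ∈ I, η ∈ b) →
        (∀ n : N, p ∣ orderOf n → SJ I n = 0) → ∀ η ∈ b, η ∈ I) :
    ∀ χ ∈ B, χ ∈ J := by
  have hJi : ∀ χ ∈ J, IsIrr χ := fun χ hχ => hB.irr χ (hJB χ hχ)
  refine har_normal hpO hB N hJn hJB hJ (fun g hg => ?_) hyp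
  by_cases hpg : p ∣ orderOf g
  · exact ec_van hJ g hpg
  by_contra h0
  refine hg (hN g hpg fun q hq => ?_)
  by_contra hqg
  exact h0 (ec_cent Q hQ hJi (ec_van hJ) hq hqg)

end Run7.h179
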