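import Mathlib
import Pool.Agent.Run7.h179.Nrm2

/-!
Quotients by normal `p`-subgroups.
-/

set_option autoImplicit false
set_option linter.style.haveILetI false
set_option linter.unusedSectionVars false

open scoped BigOperators Classical
open Pool.Agent.Helper884 Pool.Agent.H254R3.IN Pool.Agent.N20

noncomputable section

namespace Run7.h179

variable {G : Type} [Group G] [Fintype G]

/-- inflation of irreducible characters -/
lemma irr_comp {G H : Type} [Group G] [Group H] (f : G →* H) (hf : Function.Surjective f)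
    {η : H → ℂ} (hη : IsIrr η) : IsIrr (fun g => η (f g)) := by
  obtain ⟨V, _, _, _, ρ, hr, rfl⟩ := hη
  haveI := irr_nontrivial ρ hr
  let ρ' : Representation ℂ G V := ρ.comp f
  refine ⟨V, inferInstance, inferInstance, inferInstance, ρ', ?_, rfl⟩
  haveI : Nontrivial (Subrepresentation ρ') := by
    refine ⟨⊥, ⊤, ?_⟩
    intro h
    obtain ⟨v, hv⟩ := exists_ne (0 : V)
    have h1 : (⊥ : Submodule ℂ V) = ⊤ := congrArg Subrepresentation.toSubmodule h
    have h2 : v ∈ (⊥ : Submodule ℂ V) := by rw [h1]; trivial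
    exact hv ((Submodule.mem_bot ℂ).mp h2)
  refine ⟨fun S => ?_⟩
  let S' : Subrepresentation ρ := ⟨S.toSubmodule, fun h v hv => by
    obtain ⟨g, rfl⟩ := hf h
    exact S.apply_mem_toSubmodule g hv⟩
  rcases hr.eq_bot_or_eq_top S' with h | h
  · left
    apply Subrepresentation.toSubmodule_injective
    have h1 := congrArg Subrepresentation.toSubmodule h
    exact h1
  · right
    apply Subrepresentation.toSubmodule_injective
    have h1 := congrArg Subrepresentation.toSubmodule h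
    exact h1

/-- **Quotients by normal `p`-subgroups.** -/
theorem har_quot {p : ℕ} [hp : Fact p.Prime] {O : ValuationSubring ℂ}
    (hpO : (p : ℂ) ∈ O.nonunits) {B : Set (G → ℂ)} (hB : IsBlock O B) (Q : Subgroup G)
    [hQn : Q.Normal] [Fintype (G ⧸ Q)] (hQ : IsPGroup p Q)
    {J : Finset (G → ℂ)} (hJn : J.Nonempty) (hJB : ∀ χ ∈ J, χ ∈ B)
    (hJ : ∀ g : G, p ∣ orderOf g → SJ J g = 0)
    (hyp : ∀ b : Set (G ⧸ Q → ℂ), IsBlock O b → (∃ η ∈ b, (fun g : G => η (g : G ⧸ Q)) ∈ B) →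
      ∀ I : Finset (G ⧸ Q → ℂ), I.Nonempty → (∀ η ∈ I, η ∈ b) →
        (∀ x : G ⧸ Q, p ∣ orderOf x → SJ I x = 0) → ∀ η ∈ b, η ∈ I) :
    ∀ χ ∈ B, χ ∈ J := by
  have hJi : ∀ χ ∈ J, IsIrr χ := fun χ hχ => hB.irr χ (hJB χ hχ)
  have hinf : ∀ η : G ⧸ Q → ℂ, IsIrr η → IsIrr (fun g : G => η (g : G ⧸ Q)) := fun η hη =>
    irr_comp (QuotientGroup.mk' Q) (QuotientGroup.mk'_surjective Q) hη
  set eb : G ⧸ Q → ℂ := fun x => ∑ g ∈ Finset.univ.filter (fun g : G => (g : G ⧸ Q) = x), ec J g
    with heb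
  have hcl : IsCl eb := by
    intro x y
    obtain ⟨z, rfl⟩ := QuotientGroup.mk_surjective y
    rw [heb]
    simp only [Finset.sum_filter]
    refine Fintype.sum_equiv (MulAut.conj z⁻¹).toEquiv _ _ fun g => ?_
    have e1 : (MulAut.conj z⁻¹).toEquiv g = z⁻¹ * g * z := by simp
    rw [e1]
    have e2 : ((z⁻¹ * g * z : G) : G ⧸ Q) = x ↔ (g : G ⧸ Q) = (z : G ⧸ Q) * x * (z : G ⧸ Q)⁻¹ := by
      rw [QuotientGroup.mk_mul, QuotientGroup.mk_mul, QuotientGroup.mk_inv]
      constructor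
      · intro h
        rw [← h]
        group
      · intro h
        rw [h]
        group
    have e3 : ec J (z⁻¹ * g * z) = ec J g := by
      have := ec_cl hJi g z⁻¹
      rwa [inv_inv] at this
    rw [e3]
    by_cases h : (g : G ⧸ Q) = (z : G ⧸ Q) * x * (z : G ⧸ Q)⁻¹
    · rw [if_pos h, if_pos (e2.mpr h)]
    · rw [if_neg h, if_neg (fun h' => h (e2.mp h'))]
  set I : Finset (G ⧸ Q → ℂ) := (IC.Irr (G ⧸ Q)).filter
    (fun η => (fun g : G => η (g : G ⧸ Q)) ∈ J) with hI
  have hIi : ∀ η ∈ I, IsIrr η := fun η hη => mem_Irr.mp (Finset.mem_filter.mp hη).1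
  have hIe : ec I = eb := by
    refine eq_of_Om (ec_cl hIi) hcl fun η hη => ?_
    rw [Om_ec hIi hη]
    have h1 : Om eb η = Om (ec J) (fun g : G => η (g : G ⧸ Q)) := by
      have e1 : (∑ x : G ⧸ Q, eb x * η x) = ∑ g : G, ec J g * η (g : G ⧸ Q) := by
        rw [heb]
        simp only [Finset.sum_mul]
        rw [← Finset.sum_fiberwise Finset.univ (fun g : G => (g : G ⧸ Q))]
        refine Finset.sum_congr rfl fun x _ => Finset.sum_congr rfl fun g hg => ?_
        rw [(Finset.mem_filter.mp hg).2]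
      unfold Om
      rw [e1]
      rfl
    rw [h1, Om_ec hJi (hinf η hη)]
    simp only [hI, Finset.mem_filter, mem_Irr.mpr hη, true_and]
  have hIv : ∀ x : G ⧸ Q, p ∣ orderOf x → SJ I x = 0 := by
    intro x hx
    rw [SJ_eq_ec, hIe]
    have h1 : eb x⁻¹ = 0 := by
      refine Finset.sum_eq_zero fun g hg => ec_van hJ g ?_
      have h2 := (Finset.mem_filter.mp hg).2
      have h3 : orderOf ((g : G ⧸ Q)) ∣ orderOf g := orderOf_map_dvd (QuotientGroup.mk' Q) g
      rw [h2, orderOf_inv] at h3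
      exact hx.trans h3
    rw [h1, mul_zero]
  have hunion : ∀ b : Set (G ⧸ Q → ℂ), IsBlock O b → (∃ η ∈ b, η ∈ I) → ∀ η ∈ b, η ∈ I := by
    rintro b hb ⟨η, hηb, hηI⟩ φ hφ
    have h0 := (Finset.mem_filter.mp hηI).2
    have h1 := hyp b hb ⟨η, hηb, hJB _ h0⟩ (I.filter (· ∈ b))
      ⟨η, Finset.mem_filter.mpr ⟨hηI, hηb⟩⟩ (fun θ hθ => (Finset.mem_filter.mp hθ).2)
      (fun n hn => SJ_inter hpO hb hIi hIv n hn) φ hφ
    exact (Finset.mem_filter.mp h1).1
  have hO : ∀ g, ec J g ∈ O := by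
    intro g
    by_cases hpg : p ∣ orderOf g
    · rw [ec_van hJ g hpg]
      exact O.zero_mem
    by_cases hcen : ∀ q ∈ Q, q * g = g * q
    · have h1 : eb (g : G ⧸ Q) = ec J g := by
        rw [heb]
        simp only []
        rw [Finset.sum_eq_single g]
        · intro h hh hne
          have h2 := (Finset.mem_filter.mp hh).2
          have h3 : g⁻¹ * h ∈ Q := QuotientGroup.eq.mp h2.symm
          have h4 : h = g * (g⁻¹ * h) := by group
          rw [h4]
          refine ec_van hJ _ (dvd_order (hcen _ h3).symm ?_ hpg)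
          obtain ⟨k, hk⟩ := (IsPGroup.iff_orderOf.mp hQ) ⟨_, h3⟩
          rw [Subgroup.orderOf_mk] at hk
          rw [hk]
          apply dvd_pow_self
          rintro rfl
          rw [pow_zero, orderOf_eq_one_iff] at hk
          exact hne (inv_mul_eq_one.mp hk).symm
        · intro h
          exact absurd (by simp) h
      rw [← h1, ← hIe]
      exact ec_mem I hIi hunion _
    · push Not at hcen
      obtain ⟨q, hq, hqg⟩ := hcen
      rw [ec_cent Q hQ hJi (ec_van hJ) hq hqg]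
      exact O.zero_mem
  obtain ⟨χ, hχ⟩ := hJn
  intro ψ hψ
  exact union_of_mem hJi hO hB (hJB χ hχ) hψ hχ

end Run7.h179
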