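import Mathlib
import Pool.Agent.Run7.h179.Nrm3
import Pool.Agent.Run7.h179.Har7

/-!
The reductions in terms of linkage classes.
-/

set_option autoImplicit false
set_option linter.style.haveILetI false
set_option linter.unusedSectionVars false

open scoped BigOperators
open Pool.Agent.Helper884 Pool.Agent.H254R3.IN Pool.Agent.N20

noncomputable section

namespace Run7.h179

variable {G : Type} [Group G] [Fintype G]

/-- Harada's conjecture for the `p`-block of `χ₀`: a nonempty set `J` of characters of the block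
with `∑_{χ ∈ J} χ(1) χ(g) = 0` for all `p`-singular `g` contains all characters of the block. -/
def HaradaAt (p : ℕ) (χ₀ : G → ℂ) : Prop :=
  ∀ J : Finset (G → ℂ), J.Nonempty → (∀ χ ∈ J, χ ∈ Blk p χ₀) →
    (∀ g : G, p ∣ orderOf g → ∑ χ ∈ J, χ (1 : G) * χ g = 0) → ∀ χ ∈ Blk p χ₀, χ ∈ J

/-- a block with at most three Brauer characters satisfies the conjecture -/
lemma haradaAt_of_le_three {p : ℕ} (hp : p.Prime) {χ₀ : G → ℂ} (h₀ : SimpleChar χ₀)
    (hl : Module.finrank ℂ (Rg p (Blk p χ₀)) ≤ 3) : HaradaAt p χ₀ := by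
  haveI : Fact p.Prime := ⟨hp⟩
  intro J hJn hJB hJ
  obtain ⟨O, hpO⟩ := Pool.Agent.H515.SP.exists_O p hp
  obtain ⟨B, hB, hχ₀⟩ := exists_block O (simple_iff.mp h₀)
  have hBe : Blk p χ₀ = B := blk_eq hpO hB hχ₀
  rw [hBe] at hJB hl ⊢
  by_contra hcon
  push Not at hcon
  have h := har_rank hp hpO hB hJn hJB hJ hcon
  omega

theorem red_normal {p : ℕ} (hp : p.Prime) (Q N : Subgroup G) [hQn : Q.Normal]
    (hQ : IsPGroup p Q) [hF : Fintype N]
    (hN : ∀ g : G, Nat.Coprime (orderOf g) p → (∀ q ∈ Q, q * g = g * q) → g ∈ N)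
    {χ₀ : G → ℂ} (h₀ : SimpleChar χ₀)
    (hyp : ∀ η : N → ℂ, SimpleChar η → (∃ χ ∈ Blk p χ₀, ∑ n : N, χ n * η n⁻¹ ≠ 0) →
      HaradaAt p η) : HaradaAt p χ₀ := by
  classical
  haveI : Fact p.Prime := ⟨hp⟩
  intro J hJn hJB hJ
  obtain ⟨O, hpO⟩ := Pool.Agent.H515.SP.exists_O p hp
  obtain ⟨B, hB, hχ₀⟩ := exists_block O (simple_iff.mp h₀)
  have hBe : Blk p χ₀ = B := blk_eq hpO hB hχ₀
  rw [hBe] at hJB hyp ⊢
  refine har_pcent hpO hB Q N hQ (fun g hg hc => hN g ?_ hc) hJn hJB hJ ?_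
  · rw [Nat.coprime_comm]
    exact hp.coprime_iff_not_dvd.mpr hg
  · rintro b hb ⟨χ, hχ, η, hη, hχη⟩ I hIn hIb hI
    have hηi := hb.irr η hη
    have hbe : Blk p η = b := blk_eq hpO hb hη
    have h1 := hyp η (simple_iff.mpr hηi) ⟨χ, hχ, by
      intro h0
      apply hχη
      unfold IC.B
      rw [h0, mul_zero]⟩
    unfold HaradaAt at h1
    rw [hbe] at h1
    exact h1 I hIn hIb hI

/-- the sums vanish outside the centralizer of a normal `p`-subgroup -/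
theorem sum_cent {p : ℕ} (hp : p.Prime) (Q : Subgroup G) [hQn : Q.Normal]
    (hQ : IsPGroup p Q) (J : Finset (G → ℂ)) (hJi : ∀ χ ∈ J, SimpleChar χ)
    (hJ : ∀ g : G, p ∣ orderOf g → ∑ χ ∈ J, χ (1 : G) * χ g = 0) (g : G)
    (hg : ∃ q ∈ Q, q * g ≠ g * q) : ∑ χ ∈ J, χ (1 : G) * χ g = 0 := by
  haveI : Fact p.Prime := ⟨hp⟩
  obtain ⟨q, hq, hqg⟩ := hg
  have h1 : ec J g⁻¹ = 0 := by
    refine ec_cent Q hQ (fun χ hχ => simple_iff.mp (hJi χ hχ)) (ec_van hJ) hq fun h => hqg ?_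
    have h2 := congrArg (fun x => g * x * g) h
    simp only [mul_assoc, inv_mul_cancel, mul_one] at h2
    rw [mul_inv_cancel_left] at h2
    exact h2.symm
  have h2 := SJ_eq_ec J g
  rw [h1, mul_zero] at h2
  exact h2

theorem red_quot {p : ℕ} (hp : p.Prime) (Q : Subgroup G) [hQn : Q.Normal]
    (hQ : IsPGroup p Q) [hF : Fintype (G ⧸ Q)] {χ₀ : G → ℂ} (h₀ : SimpleChar χ₀)
    (hyp : ∀ η : G ⧸ Q → ℂ, SimpleChar η → (fun g : G => η (g : G ⧸ Q)) ∈ Blk p χ₀ →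
      HaradaAt p η) : HaradaAt p χ₀ := by
  classical
  haveI : Fact p.Prime := ⟨hp⟩
  intro J hJn hJB hJ
  obtain ⟨O, hpO⟩ := Pool.Agent.H515.SP.exists_O p hp
  obtain ⟨B, hB, hχ₀⟩ := exists_block O (simple_iff.mp h₀)
  have hBe : Blk p χ₀ = B := blk_eq hpO hB hχ₀
  rw [hBe] at hJB hyp ⊢
  refine har_quot hpO hB Q hQ hJn hJB hJ ?_
  rintro b hb ⟨η, hη, hηB⟩ I hIn hIb hI
  have hηi := hb.irr η hη
  have h1 := hyp η
  have hbe : Blk p η = b := blk_eq hpO hb hη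
  have h2 := h1 (simple_iff.mpr hηi) hηB
  unfold HaradaAt at h2
  rw [hbe] at h2
  exact h2 I hIn hIb hI

end Run7.h179
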