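import Mathlib
import Pool.Agent.Run7.h179.Fin3

/-!
Convolution and extension by zero.
-/

set_option autoImplicit false
set_option linter.style.haveILetI false
set_option linter.unusedSectionVars false

open scoped BigOperators Classical
open Pool.Agent.Helper884 Pool.Agent.H254R3.IN Pool.Agent.N20

noncomputable section

namespace Run7.h179

variable {G : Type} [Group G] [Fintype G]

lemma conv_swap (f h : G → ℂ) (g : G) : conv f h g = ∑ y, f (g * y⁻¹) * h y := by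
  unfold conv
  refine Fintype.sum_equiv ((Equiv.inv G).trans (Equiv.mulRight g)) _ _ fun x => ?_
  simp only [Equiv.trans_apply, Equiv.inv_apply, Equiv.coe_mulRight, mul_inv_rev, inv_inv]
  rw [mul_inv_cancel_left]

lemma conv_assoc (f h k : G → ℂ) : conv (conv f h) k = conv f (conv h k) := by
  funext g
  rw [conv_swap (conv f h) k g]
  unfold conv
  simp only [Finset.sum_mul, Finset.mul_sum]
  rw [Finset.sum_comm]
  refine Finset.sum_congr rfl fun x _ => ?_
  refine Fintype.sum_equiv ((Equiv.inv G).trans (Equiv.mulLeft (x⁻¹ * g))) _ _ fun y => ?_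
  simp only [Equiv.trans_apply, Equiv.inv_apply, Equiv.coe_mulLeft]
  have e1 : x⁻¹ * (g * y⁻¹) = x⁻¹ * g * y⁻¹ := by group
  have e2 : (x⁻¹ * g * y⁻¹)⁻¹ * (x⁻¹ * g) = y := by group
  rw [e1, e2]
  ring

lemma conv_comm {f h : G → ℂ} (hf : IsCl f) : conv f h = conv h f := by
  funext g
  rw [conv_swap h f g]
  unfold conv
  refine Fintype.sum_equiv (MulAut.conj g⁻¹).toEquiv _ _ fun x => ?_
  have e1 : (MulAut.conj g⁻¹).toEquiv x = g⁻¹ * x * g := by simp
  rw [e1]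
  have e2 : f (g⁻¹ * x * g) = f x := by simpa using hf x g⁻¹
  have e3 : g * (g⁻¹ * x * g)⁻¹ = x⁻¹ * g := by group
  rw [e2, e3, mul_comm]

lemma conv_dl (f : G → ℂ) : conv f dl = f := by
  funext g
  rw [conv_swap]
  unfold dl
  simp only [mul_ite, mul_one, mul_zero, Finset.sum_ite_eq', Finset.mem_univ, if_true, inv_one]

lemma dl_conv (f : G → ℂ) : conv dl f = f := by
  rw [conv_comm dl_cl, conv_dl]

lemma conv_add (f h k : G → ℂ) : conv f (fun g => h g + k g) = fun g => conv f h g + conv f k g := by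
  funext g
  unfold conv
  rw [← Finset.sum_add_distrib]
  exact Finset.sum_congr rfl fun _ _ => by ring

/-- extension by zero from a subgroup -/
def ex (N : Subgroup G) (a : N → ℂ) (g : G) : ℂ := if h : g ∈ N then a ⟨g, h⟩ else 0

lemma ex_coe (N : Subgroup G) (a : N → ℂ) (n : N) : ex N a n = a n := by
  unfold ex
  rw [dif_pos n.2]

lemma ex_mem {N : Subgroup G} (a : N → ℂ) {g : G} (h : g ∈ N) : ex N a g = a ⟨g, h⟩ := by
  unfold ex
  rw [dif_pos h]

lemma ex_not {N : Subgroup G} (a : N → ℂ) {g : G} (h : g ∉ N) : ex N a g = 0 := by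
  unfold ex
  rw [dif_neg h]

lemma ex_O {O : ValuationSubring ℂ} {N : Subgroup G} {a : N → ℂ} (h : ∀ n, a n ∈ O) (g : G) :
    ex N a g ∈ O := by
  by_cases hg : g ∈ N
  · rw [ex_mem a hg]
    exact h _
  · rw [ex_not a hg]
    exact O.zero_mem

lemma ex_inj {N : Subgroup G} {a b : N → ℂ} (h : ex N a = ex N b) : a = b := by
  funext n
  rw [← ex_coe N a, h, ex_coe]

/-- convolution with a function supported on a subgroup, restricted to the subgroup -/
lemma conv_ex_right (N : Subgroup G) [Fintype N] (f : G → ℂ) (a : N → ℂ) (n : N) :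
    conv f (ex N a) n = conv (fun m : N => f m) a n := by
  rw [conv_swap, conv_swap, sum_sub N _ (fun x hx => by rw [ex_not a hx, mul_zero])]
  refine Finset.sum_congr rfl fun m _ => ?_
  rw [ex_coe]
  rfl

lemma conv_ex (N : Subgroup G) [Fintype N] (a b : N → ℂ) :
    conv (ex N a) (ex N b) = ex N (conv a b) := by
  funext g
  by_cases hg : g ∈ N
  · rw [ex_mem _ hg]
    have h := conv_ex_right N (ex N a) b ⟨g, hg⟩
    change conv (ex N a) (ex N b) g = _ at h
    rw [h]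
    congr 1
    funext m
    exact ex_coe N a m
  · rw [ex_not _ hg, conv_swap]
    refine Finset.sum_eq_zero fun y _ => ?_
    by_cases hy : y ∈ N
    · rw [ex_not a, zero_mul]
      intro h
      apply hg
      have := N.mul_mem h hy
      rwa [inv_mul_cancel_right] at this
    · rw [ex_not b hy, mul_zero]

lemma ex_dl (N : Subgroup G) [Fintype N] : ex N dl = (dl : G → ℂ) := by
  funext g
  by_cases hg : g ∈ N
  · rw [ex_mem _ hg]
    unfold dl
    by_cases h : g = 1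
    · rw [if_pos h, if_pos (Subtype.ext h)]
    · rw [if_neg h, if_neg (fun h' => h (congrArg Subtype.val h'))]
  · rw [ex_not _ hg]
    unfold dl
    rw [if_neg]
    rintro rfl
    exact hg N.one_mem

/-- all class idempotents vanishing on the `p`-singular elements are integral -/
def HI (O : ValuationSubring ℂ) (p : ℕ) (G : Type) [Group G] [Fintype G] : Prop :=
  ∀ f : G → ℂ, IsCl f → conv f f = f → (∀ g : G, p ∣ orderOf g → f g = 0) → ∀ g, f g ∈ O

lemma HI_of_harada {p : ℕ} [hp : Fact p.Prime] {O : ValuationSubring ℂ}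
    (hpO : (p : ℂ) ∈ O.nonunits) (h : ∀ χ₀ : G → ℂ, SimpleChar χ₀ → HaradaAt p χ₀) :
    HI O p G := by
  intro f hf hc hv
  obtain ⟨I, hIi, hIe, hIm⟩ := exists_set hf hc
  have hIv : ∀ g : G, p ∣ orderOf g → SJ I g = 0 := by
    intro g hg
    rw [SJ_eq_ec, hIe, hv g⁻¹ (by rwa [orderOf_inv]), mul_zero]
  intro g
  rw [← hIe]
  refine ec_mem I hIi ?_ g
  rintro b hb ⟨η, hηb, hηI⟩ φ hφ
  have hηi := hb.irr η hηb
  have hbe : Blk p η = b := blk_eq hpO hb hηb
  have h1 := h η (simple_iff.mpr hηi)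
  unfold HaradaAt at h1
  rw [hbe] at h1
  have h2 := h1 (I.filter (· ∈ b)) ⟨η, Finset.mem_filter.mpr ⟨hηI, hηb⟩⟩
    (fun θ hθ => (Finset.mem_filter.mp hθ).2) (fun n hn => SJ_inter hpO hb hIi hIv n hn) φ hφ
  exact (Finset.mem_filter.mp h2).1

lemma harada_of_HI {p : ℕ} [hp : Fact p.Prime] {O : ValuationSubring ℂ}
    (hpO : (p : ℂ) ∈ O.nonunits) (h : HI O p G) {χ₀ : G → ℂ} (h₀ : SimpleChar χ₀) :
    HaradaAt p χ₀ := by
  intro J hJn hJB hJ
  obtain ⟨B, hB, hχ₀⟩ := exists_block O (simple_iff.mp h₀)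
  have hBe : Blk p χ₀ = B := blk_eq hpO hB hχ₀
  rw [hBe] at hJB ⊢
  have hJi : ∀ χ ∈ J, IsIrr χ := fun χ hχ => hB.irr χ (hJB χ hχ)
  have h1 := h (ec J) (ec_cl hJi) (ec_conv hJi) (ec_van hJ)
  obtain ⟨χ, hχ⟩ := hJn
  intro ψ hψ
  exact union_of_mem hJi h1 hB (hJB χ hχ) hψ hχ

/-- an integral class idempotent is the idempotent of a union of blocks -/
lemma exists_union {O : ValuationSubring ℂ} {f : G → ℂ} (hf : IsCl f) (hc : conv f f = f)
    (hO : ∀ g, f g ∈ O) : ∃ H : Finset (G → ℂ), (∀ η ∈ H, IsIrr η) ∧ ec H = f ∧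
      ∀ b : Set (G → ℂ), IsBlock O b → (∃ η ∈ b, η ∈ H) → ∀ η ∈ b, η ∈ H := by
  obtain ⟨H, hHi, hHe, -⟩ := exists_set hf hc
  refine ⟨H, hHi, hHe, ?_⟩
  rintro b hb ⟨η, hηb, hηH⟩ φ hφ
  exact union_of_mem hHi (fun g => by rw [hHe]; exact hO g) hb hηb hφ hηH

/-- block orthogonality for unions of blocks -/
lemma union_orth {O : ValuationSubring ℂ} {p : ℕ} [hp : Fact p.Prime]
    (hpO : (p : ℂ) ∈ O.nonunits) {x g : G} (hx : p ∣ orderOf x) (hg : ¬ p ∣ orderOf g)
    (H : Finset (G → ℂ)) (hHi : ∀ η ∈ H, IsIrr η)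
    (hH : ∀ b : Set (G → ℂ), IsBlock O b → (∃ η ∈ b, η ∈ H) → ∀ η ∈ b, η ∈ H) :
    ∑ φ ∈ H, φ x⁻¹ * φ g = 0 := by
  induction' hn : H.card using Nat.strong_induction_on with n ih generalizing H
  rcases H.eq_empty_or_nonempty with rfl | ⟨η, hη⟩
  · simp
  · obtain ⟨b, hb, hηb⟩ := exists_block O (hHi η hη)
    have hbH : ∀ φ ∈ b, φ ∈ H := hH b hb ⟨η, hηb, hη⟩
    have hXH : XB b ⊆ H := fun φ hφ => hbH φ ((mem_XB hb.irr).mp hφ)
    rw [← Finset.sum_sdiff hXH, blk_orth2 hpO hb hx hg, add_zero]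
    refine ih (H \ XB b).card ?_ (H \ XB b) (fun χ hχ => hHi χ (Finset.mem_sdiff.mp hχ).1) ?_ rfl
    · rw [← hn]
      refine Finset.card_lt_card (Finset.ssubset_iff_subset_ne.mpr ⟨Finset.sdiff_subset, ?_⟩)
      intro h
      rw [← h] at hη
      exact (Finset.mem_sdiff.mp hη).2 ((mem_XB hb.irr).mpr hηb)
    · rintro b' hb' ⟨φ, hφb', hφ⟩ ψ hψ
      obtain ⟨hφH, hφb⟩ := Finset.mem_sdiff.mp hφ
      refine Finset.mem_sdiff.mpr ⟨hH b' hb' ⟨φ, hφb', hφH⟩ ψ hψ, fun hψb => hφb ?_⟩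
      rw [mem_XB hb.irr] at hψb ⊢
      obtain ⟨χ₀, h0, rfl⟩ := hb
      refine ⟨hb'.irr φ hφb', fun x => ?_⟩
      have h2 := hb'.red_eq hφb' hψ x
      have h3 := hψb.2 x
      have hφi := hb'.irr φ hφb'
      have hψi := hb'.irr ψ hψ
      rw [← red_eq_iff (hψi.omega_mem O x) (h0.omega_mem O x)] at h3
      rw [← red_eq_iff (hφi.omega_mem O x) (h0.omega_mem O x), h2, h3]

/-- the product of a class function with the idempotent of a set of characters -/
lemma conv_ec {f : G → ℂ} (hf : IsCl f) {H : Finset (G → ℂ)} (hHi : ∀ η ∈ H, IsIrr η) (x : G) :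
    conv f (ec H) x = (Nat.card G : ℂ)⁻¹ * ∑ g : G, f g * ∑ φ ∈ H, φ x⁻¹ * φ g := by
  have h0 : ∀ x : G, (Nat.card G : ℂ)⁻¹ * ∑ g : G, f g * ∑ φ ∈ H, φ x⁻¹ * φ g =
      ∑ φ ∈ H, (∑ g : G, f g * φ g) * ((Nat.card G : ℂ)⁻¹ * φ x⁻¹) := by
    intro x
    simp only [Finset.mul_sum, Finset.sum_mul]
    rw [Finset.sum_comm]
    exact Finset.sum_congr rfl fun _ _ => Finset.sum_congr rfl fun _ _ => by ring
  rw [h0]
  have key : conv f (ec H) = fun x => ∑ φ ∈ H, (∑ g : G, f g * φ g) *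
      ((Nat.card G : ℂ)⁻¹ * φ x⁻¹) := by
    refine eq_of_Om (hf.conv (ec_cl hHi)) ?_ fun χ hχ => ?_
    · intro x y
      refine Finset.sum_congr rfl fun φ hφ => ?_
      have e : (y * x * y⁻¹)⁻¹ = y * x⁻¹ * y⁻¹ := by group
      rw [e, (hHi φ hφ).conj]
    · rw [Om_conv hχ hf (ec_cl hHi), Om_ec hHi hχ]
      have h1 : ∑ x : G, (∑ φ ∈ H, (∑ g : G, f g * φ g) * ((Nat.card G : ℂ)⁻¹ * φ x⁻¹)) * χ x =
          ∑ φ ∈ H, (∑ g : G, f g * φ g) * ((Nat.card G : ℂ)⁻¹ * ∑ x : G, χ x * φ x⁻¹) := by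
        simp_rw [Finset.sum_mul _ _ (χ _)]
        rw [Finset.sum_comm]
        refine Finset.sum_congr rfl fun φ _ => ?_
        rw [Finset.mul_sum, Finset.mul_sum]
        exact Finset.sum_congr rfl fun x _ => by ring
      have h2 : Om (fun x => ∑ φ ∈ H, (∑ g : G, f g * φ g) * ((Nat.card G : ℂ)⁻¹ * φ x⁻¹)) χ =
          (∑ φ ∈ H, (∑ g : G, f g * φ g) * (if χ = φ then 1 else 0)) / χ 1 := by
        unfold Om
        rw [h1, Finset.sum_congr rfl (fun φ hφ => by rw [irr_orth hχ (hHi φ hφ)])]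
      rw [h2]
      simp only [mul_ite, mul_one, mul_zero]
      rw [Finset.sum_ite_eq]
      unfold Om
      split_ifs <;> simp
  rw [key]

/-- projecting to a union of blocks preserves the vanishing on `p`-singular elements -/
lemma conv_van {O : ValuationSubring ℂ} {p : ℕ} [hp : Fact p.Prime]
    (hpO : (p : ℂ) ∈ O.nonunits) {f a : G → ℂ} (hf : IsCl f)
    (hv : ∀ g : G, p ∣ orderOf g → f g = 0) (ha : IsCl a) (hac : conv a a = a)
    (haO : ∀ g, a g ∈ O) {x : G} (hx : p ∣ orderOf x) : conv f a x = 0 := by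
  obtain ⟨H, hHi, hHe, hH⟩ := exists_union ha hac haO
  rw [← hHe, conv_ec hf hHi, Finset.sum_eq_zero, mul_zero]
  intro g _
  by_cases hg : p ∣ orderOf g
  · rw [hv g hg, zero_mul]
  · rw [union_orth hpO hx hg H hHi hH, mul_zero]

end Run7.h179
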