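import Mathlib
import Pool.Agent.Run7.h179.Fr1

/-!
Fong-Reynolds in terms of central idempotents.
-/

set_option autoImplicit false
set_option linter.style.haveILetI false
set_option linter.unusedSectionVars false

open scoped BigOperators Classical
open Pool.Agent.Helper884 Pool.Agent.H254R3.IN Pool.Agent.N20

noncomputable section

namespace Run7.h179

variable {G : Type} [Group G] [Fintype G]

lemma omega_aut (c : G ≃* G) (χ : G → ℂ) (x : G) :
    omega (fun g => χ (c g)) x = omega χ (c x) := by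
  unfold omega
  have h1 : Nat.card {y : G // IsConj x y} = Nat.card {y : G // IsConj (c x) y} := by
    refine Nat.card_congr ⟨fun y => ⟨c y.1, ?_⟩, fun y => ⟨c.symm y.1, ?_⟩, ?_, ?_⟩
    · obtain ⟨z, hz⟩ := isConj_iff.mp y.2
      refine isConj_iff.mpr ⟨c z, ?_⟩
      rw [← hz, map_mul, map_mul, map_inv]
    · obtain ⟨z, hz⟩ := isConj_iff.mp y.2
      refine isConj_iff.mpr ⟨c.symm z, ?_⟩
      rw [← hz, map_mul, map_mul, map_inv, MulEquiv.symm_apply_apply]
    · intro y
      simp
    · intro y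
      simp
  simp only [h1, map_one]

lemma Om_aut (c : G ≃* G) (a χ : G → ℂ) :
    Om (fun g => a (c g)) χ = Om a (fun g => χ (c.symm g)) := by
  unfold Om
  simp only [map_one]
  congr 1
  exact Fintype.sum_equiv c.toEquiv _ _ fun x => by simp

/-- a block idempotent and its image under an automorphism are equal or orthogonal -/
theorem aut_dich {O : ValuationSubring ℂ} {b : Set (G → ℂ)} (hb : IsBlock O b) (c : G ≃* G)
    (hne : conv (ec (XB b)) (fun g => ec (XB b) (c g)) ≠ fun _ => 0) :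
    (fun g => ec (XB b) (c g)) = ec (XB b) := by
  have hbi : ∀ χ ∈ XB b, IsIrr χ := fun χ hχ => hb.irr χ ((mem_XB hb.irr).mp hχ)
  have hcl := ec_cl hbi
  have hcl' : IsCl (fun g => ec (XB b) (c g)) := by
    intro g y
    simp only [map_mul, map_inv]
    exact hcl _ _
  have hirr : ∀ (d : G ≃* G) {χ : G → ℂ}, IsIrr χ → IsIrr (fun g => χ (d g)) := fun d χ hχ =>
    irr_comp d.toMonoidHom d.surjective hχ
  obtain ⟨η, hη, h1⟩ : ∃ η : G → ℂ, IsIrr η ∧
      Om (conv (ec (XB b)) (fun g => ec (XB b) (c g))) η ≠ 0 := by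
    by_contra hcon
    push Not at hcon
    apply hne
    refine eq_of_Om (hcl.conv hcl') (fun _ _ => rfl) fun χ hχ => ?_
    rw [hcon χ hχ]
    unfold Om
    simp
  rw [Om_conv hη hcl hcl', Om_aut] at h1
  have h2 := left_ne_zero_of_mul h1
  have h3 := right_ne_zero_of_mul h1
  rw [Om_ec hbi hη] at h2
  rw [Om_ec hbi (hirr c.symm hη)] at h3
  have h2' : η ∈ b := by
    by_contra h
    rw [if_neg (fun h' => h ((mem_XB hb.irr).mp h'))] at h2
    exact h2 rfl
  have h3' : (fun g => η (c.symm g)) ∈ b := by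
    by_contra h
    rw [if_neg (fun h' => h ((mem_XB hb.irr).mp h'))] at h3
    exact h3 rfl
  have hst : ∀ θ ∈ b, (fun g => θ (c.symm g)) ∈ b := by
    intro θ hθ
    obtain ⟨χ₀, h0, rfl⟩ := id hb
    refine ⟨hirr c.symm (hb.irr θ hθ), fun x => ?_⟩
    have hθi := hb.irr θ hθ
    have h4 := h3'.2 x
    rw [← red_eq_iff ((hirr c.symm hη).omega_mem O x) (h0.omega_mem O x)] at h4
    rw [← red_eq_iff ((hirr c.symm hθi).omega_mem O x) (h0.omega_mem O x), ← h4, omega_aut,
      omega_aut]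
    exact hb.red_eq hθ h2' _
  have hst' : ∀ θ : G → ℂ, (fun g => θ (c.symm g)) ∈ b → θ ∈ b := by
    intro θ hθ
    have hinj : Function.Injective (fun (φ : G → ℂ) (g : G) => φ (c.symm g)) := by
      intro φ ψ h
      funext g
      have := congrFun h (c g)
      simpa using this
    have himg : (XB b).image (fun (φ : G → ℂ) (g : G) => φ (c.symm g)) = XB b := by
      refine Finset.eq_of_subset_of_card_le ?_ ?_
      · intro φ hφ
        obtain ⟨ψ, hψ, rfl⟩ := Finset.mem_image.mp hφ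
        exact (mem_XB hb.irr).mpr (hst ψ ((mem_XB hb.irr).mp hψ))
      · rw [Finset.card_image_of_injective _ hinj]
    have h5 := (mem_XB hb.irr).mpr hθ
    rw [← himg] at h5
    obtain ⟨ψ, hψ, hψθ⟩ := Finset.mem_image.mp h5
    rw [← hinj hψθ]
    exact (mem_XB hb.irr).mp hψ
  refine eq_of_Om hcl' hcl fun χ hχ => ?_
  rw [Om_aut, Om_ec hbi hχ, Om_ec hbi (hirr c.symm hχ)]
  have h6 : (fun g => χ (c.symm g)) ∈ XB b ↔ χ ∈ XB b := by
    rw [mem_XB hb.irr, mem_XB hb.irr]
    exact ⟨hst' χ, hst χ⟩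
  simp only [h6]

/-- conjugate of a function -/
def cj (g : G) (F : G → ℂ) (x : G) : ℂ := F (g * x * g⁻¹)

lemma cj_ex (N : Subgroup G) [hN : N.Normal] (a : N → ℂ) (g : G) :
    cj g (ex N a) = ex N (fun n => a (MulAut.conjNormal g n)) := by
  funext x
  unfold cj
  by_cases hx : x ∈ N
  · have h1 : g * x * g⁻¹ ∈ N := hN.conj_mem x hx g
    rw [ex_mem _ h1, ex_mem _ hx]
    congr 1
  · have h1 : g * x * g⁻¹ ∉ N := by
      intro h
      apply hx
      have := hN.conj_mem _ h g⁻¹
      rw [inv_inv] at this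
      have e : g⁻¹ * (g * x * g⁻¹) * g = x := by group
      rwa [e] at this
    rw [ex_not _ h1, ex_not _ hx]

/-- the stabilizer of a function -/
def stab (A : G → ℂ) : Subgroup G where
  carrier := {g | ∀ x, A (g * x * g⁻¹) = A x}
  one_mem' := by
    intro x
    simp
  mul_mem' := by
    intro a b ha hb x
    have h1 := ha (b * x * b⁻¹)
    have h2 := hb x
    have e : a * b * x * (a * b)⁻¹ = a * (b * x * b⁻¹) * a⁻¹ := by group
    rw [e, h1, h2]
  inv_mem' := by
    intro a ha x
    have h1 := ha (a⁻¹ * x * a⁻¹⁻¹)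
    have e : a * (a⁻¹ * x * a⁻¹⁻¹) * a⁻¹ = x := by group
    rw [e] at h1
    exact h1.symm

lemma mem_stab {A : G → ℂ} {g : G} : g ∈ stab A ↔ ∀ x, A (g * x * g⁻¹) = A x := Iff.rfl

lemma le_stab (N : Subgroup G) [hN : N.Normal] {a : N → ℂ} (ha : IsCl a) : N ≤ stab (ex N a) := by
  intro n hn x
  by_cases hx : x ∈ N
  · have h1 : n * x * n⁻¹ ∈ N := hN.conj_mem x hx n
    rw [ex_mem _ h1, ex_mem _ hx]
    exact ha ⟨x, hx⟩ ⟨n, hn⟩
  · have h1 : n * x * n⁻¹ ∉ N := by
      intro h
      apply hx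
      have := hN.conj_mem _ h n⁻¹
      rw [inv_inv] at this
      have e : n⁻¹ * (n * x * n⁻¹) * n = x := by group
      rwa [e] at this
    rw [ex_not _ h1, ex_not _ hx]

/-- the product with the idempotent of a block of a normal subgroup is supported on the
stabilizer -/
theorem fr_off {O : ValuationSubring ℂ} (N : Subgroup G) [hN : N.Normal] [Fintype N]
    {b : Set (N → ℂ)} (hb : IsBlock O b) {f : G → ℂ} (hf : IsCl f) {g : G}
    (hg : g ∉ stab (ex N (ec (XB b)))) : conv f (ex N (ec (XB b))) g = 0 := by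
  set A : G → ℂ := ex N (ec (XB b)) with hA
  have hbi : ∀ χ ∈ XB b, IsIrr χ := fun χ hχ => hb.irr χ ((mem_XB hb.irr).mp hχ)
  have hAA : conv A A = A := by rw [hA, conv_ex, ec_conv hbi]
  have h0 : conv A (cj g A) = fun _ => 0 := by
    rw [hA, cj_ex, conv_ex]
    by_cases h : conv (ec (XB b)) (fun n => ec (XB b) (MulAut.conjNormal g n)) = fun _ => 0
    · rw [h]
      funext x
      unfold ex
      split_ifs <;> rfl
    · exfalso
      apply hg
      have h1 := aut_dich hb (MulAut.conjNormal g) h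
      intro x
      have h2 : cj g (ex N (ec (XB b))) x = ex N (ec (XB b)) x := by rw [cj_ex, h1]
      exact h2
  set F : G → ℂ := conv f A with hF
  have hF1 : F = conv A (conv F A) := by
    have h1 : conv F A = F := by rw [hF, conv_assoc, hAA]
    rw [h1, hF, conv_comm hf, ← conv_assoc, hAA]
  have h2 : F g = ∑ z : G, F (g * z⁻¹) * conv A (cj g A) z := by
    have e1 : F g = ∑ u : G, ∑ y : G, A (g * u * g⁻¹) * (F (g * u⁻¹ * y⁻¹) * A y) := by
      conv_lhs => rw [hF1]
      unfold conv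
      refine (Fintype.sum_equiv (MulAut.conj g).toEquiv _ _ fun u => ?_).symm
      have e : (MulAut.conj g).toEquiv u = g * u * g⁻¹ := by simp
      rw [e]
      have e' : (g * u * g⁻¹)⁻¹ * g = g * u⁻¹ := by group
      rw [e', ← Finset.mul_sum]
      congr 1
      exact (conv_swap F A (g * u⁻¹)).symm
    have e2 : ∑ z : G, F (g * z⁻¹) * conv A (cj g A) z =
        ∑ y : G, ∑ z : G, F (g * z⁻¹) * (A y * A (g * (y⁻¹ * z) * g⁻¹)) := by
      rw [Finset.sum_comm]
      refine Finset.sum_congr rfl fun z _ => ?_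
      rw [← Finset.mul_sum]
      rfl
    rw [e1, e2, Finset.sum_comm]
    refine Finset.sum_congr rfl fun y _ => ?_
    refine Fintype.sum_equiv (Equiv.mulLeft y) _ _ fun u => ?_
    simp only [Equiv.coe_mulLeft]
    have e3 : g * (y * u)⁻¹ = g * u⁻¹ * y⁻¹ := by group
    have e4 : y⁻¹ * (y * u) = u := by group
    rw [e3, e4]
    ring
  rw [h2, h0]
  simp

/-- the coefficients of a block idempotent are integral -/
lemma ec_block_mem {O : ValuationSubring ℂ} {b : Set (G → ℂ)} (hb : IsBlock O b) (g : G) :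
    ec (XB b) g ∈ O := by
  have hcoe : ((XB b : Finset (G → ℂ)) : Set (G → ℂ)) = b := by
    ext φ
    rw [Finset.mem_coe]
    exact mem_XB hb.irr
  rw [← ec_eq (fun χ hχ => hb.irr χ ((mem_XB hb.irr).mp hχ)), hcoe]
  exact blockCoeff_mem hb g

lemma conv_conj {f A : G → ℂ} (hf : IsCl f) {t : G} (ht : t ∈ stab A) (g : G) :
    conv f A (t * g * t⁻¹) = conv f A g := by
  unfold conv
  refine (Fintype.sum_equiv (MulAut.conj t).toEquiv _ _ fun x => ?_).symm
  have e : (MulAut.conj t).toEquiv x = t * x * t⁻¹ := by simp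
  have e2 : (t * x * t⁻¹)⁻¹ * (t * g * t⁻¹) = t * (x⁻¹ * g) * t⁻¹ := by group
  rw [e, e2, hf, mem_stab.mp ht]

/-- extension by zero of the restriction -/
lemma ex_res (T : Subgroup G) {A : G → ℂ} (hA : ∀ g, g ∉ T → A g = 0) :
    ex T (fun t : T => A t) = A := by
  funext g
  by_cases hg : g ∈ T
  · rw [ex_mem _ hg]
  · rw [ex_not _ hg, hA g hg]

/-- **Fong-Reynolds.** If Harada's conjecture holds for the stabilizer of a block of a normal
subgroup, the part of the idempotent over that block is integral. -/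
theorem fr_int {O : ValuationSubring ℂ} {p : ℕ} [hp : Fact p.Prime]
    (hpO : (p : ℂ) ∈ O.nonunits) (N : Subgroup G) [hN : N.Normal] [Fintype N]
    {b : Set (N → ℂ)} (hb : IsBlock O b) {f : G → ℂ} (hf : IsCl f) (hc : conv f f = f)
    (hv : ∀ g : G, p ∣ orderOf g → f g = 0) (T : Subgroup G) [Fintype T]
    (hTs : stab (ex N (ec (XB b))) = T) (hT : HI O p T) (g : G) :
    conv f (ex N (ec (XB b))) g ∈ O := by
  have hoff : ∀ g, g ∉ T → conv f (ex N (ec (XB b))) g = 0 := fun g hg =>
    fr_off N hb hf (by rw [hTs]; exact hg)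
  have hNT : N ≤ T := by
    rw [← hTs]
    exact le_stab N (ec_cl fun χ hχ => hb.irr χ ((mem_XB hb.irr).mp hχ))
  have hmem : ∀ t : T, (t : G) ∈ stab (ex N (ec (XB b))) := fun t => by rw [hTs]; exact t.2
  by_cases hg : g ∈ T
  swap
  · rw [hoff g hg]
    exact O.zero_mem
  set A : G → ℂ := ex N (ec (XB b)) with hA
  have hbi : ∀ χ ∈ XB b, IsIrr χ := fun χ hχ => hb.irr χ ((mem_XB hb.irr).mp hχ)
  have hAA : conv A A = A := by rw [hA, conv_ex, ec_conv hbi]
  have hAT : ∀ g, g ∉ T → A g = 0 := fun g hg => ex_not _ fun h => hg (hNT h)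
  set aT : T → ℂ := fun t => A t with haT
  have hexA : ex T aT = A := ex_res T hAT
  have haTc : conv aT aT = aT := by
    apply ex_inj (N := T)
    rw [← conv_ex, hexA, hAA]
  have haTcl : IsCl aT := fun x t => mem_stab.mp (hmem t) x
  have haTO : ∀ t, aT t ∈ O := fun t => ex_O (ec_block_mem hb) _
  set F : G → ℂ := conv f A with hF
  have hFF : conv F F = F := by
    rw [hF, conv_assoc, ← conv_assoc A f A, ← conv_comm hf (h := A), conv_assoc f A A, hAA,
      ← conv_assoc, hc]
  have hFT : ∀ g, g ∉ T → F g = 0 := hoff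
  have hexF : ex T (fun t : T => F t) = F := ex_res T hFT
  have h1 : IsCl (fun t : T => F t) := fun x t => conv_conj hf (hmem t) _
  have h2 : conv (fun t : T => F t) (fun t : T => F t) = fun t : T => F t := by
    apply ex_inj (N := T)
    rw [← conv_ex, hexF, hFF]
  have h3 : ∀ t : T, p ∣ orderOf t → F t = 0 := by
    intro t ht
    rw [hF, ← hexA, conv_ex_right]
    refine conv_van hpO (f := fun m : T => f m) (fun x y => hf x y) ?_ haTcl haTc haTO ht
    intro m hm
    refine hv m ?_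
    rw [Subgroup.orderOf_coe]
    exact hm
  exact hT _ h1 h2 h3 ⟨g, hg⟩

/-- summing over the blocks of the normal subgroup -/
theorem fr_sum {O : ValuationSubring ℂ} (N : Subgroup G) [Fintype N] {f : G → ℂ}
    (hyp : ∀ b : Set (N → ℂ), IsBlock O b → ∀ g, conv f (ex N (ec (XB b))) g ∈ O) (g : G) :
    f g ∈ O := by
  have key : ∀ I : Finset (N → ℂ), (∀ χ ∈ I, IsIrr χ) →
      (∀ b : Set (N → ℂ), IsBlock O b → (∃ η ∈ b, η ∈ I) → ∀ η ∈ b, η ∈ I) →
      ∀ g, conv f (ex N (ec I)) g ∈ O := by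
    intro I hIi hI
    induction' hn : I.card using Nat.strong_induction_on with n ih generalizing I
    rcases I.eq_empty_or_nonempty with rfl | ⟨η, hη⟩
    · intro g
      have h0 : ex N (ec (∅ : Finset (N → ℂ))) = fun _ => 0 := by
        funext x
        unfold ex ec SJ
        split_ifs <;> simp
      rw [h0]
      unfold conv
      simp
    · obtain ⟨b, hb, hηb⟩ := exists_block O (hIi η hη)
      have hbI : ∀ φ ∈ b, φ ∈ I := hI b hb ⟨η, hηb, hη⟩
      have hXI : XB b ⊆ I := fun φ hφ => hbI φ ((mem_XB hb.irr).mp hφ)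
      have h1 : ex N (ec I) = fun g => ex N (ec (I \ XB b)) g + ex N (ec (XB b)) g := by
        funext x
        have h2 : ∀ n : N, ec I n = ec (I \ XB b) n + ec (XB b) n := by
          intro n
          unfold ec SJ
          rw [← mul_add, Finset.sum_sdiff hXI]
        unfold ex
        split_ifs
        · exact h2 _
        · rw [add_zero]
      intro g
      rw [h1, conv_add]
      refine O.add_mem _ _ ?_ (hyp b hb g)
      refine ih (I \ XB b).card ?_ (I \ XB b) (fun χ hχ => hIi χ (Finset.mem_sdiff.mp hχ).1) ?_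
        rfl g
      · rw [← hn]
        refine Finset.card_lt_card (Finset.ssubset_iff_subset_ne.mpr ⟨Finset.sdiff_subset, ?_⟩)
        intro h
        rw [← h] at hη
        exact (Finset.mem_sdiff.mp hη).2 ((mem_XB hb.irr).mpr hηb)
      · rintro b' hb' ⟨φ, hφb', hφ⟩ ψ hψ
        obtain ⟨hφI, hφb⟩ := Finset.mem_sdiff.mp hφ
        refine Finset.mem_sdiff.mpr ⟨hI b' hb' ⟨φ, hφb', hφI⟩ ψ hψ, fun hψb => hφb ?_⟩
        rw [mem_XB hb.irr] at hψb ⊢
        obtain ⟨χ₀, h0, rfl⟩ := hb
        refine ⟨hb'.irr φ hφb', fun x => ?_⟩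
        have h2 := hb'.red_eq hφb' hψ x
        have h3 := hψb.2 x
        have hφi := hb'.irr φ hφb'
        have hψi := hb'.irr ψ hψ
        rw [← red_eq_iff (hψi.omega_mem O x) (h0.omega_mem O x)] at h3
        rw [← red_eq_iff (hφi.omega_mem O x) (h0.omega_mem O x), h2, h3]
  have hall : ec (IC.Irr N) = (dl : N → ℂ) := by
    refine eq_of_Om (ec_cl fun χ hχ => mem_Irr.mp hχ) dl_cl fun χ hχ => ?_
    rw [Om_ec (fun χ hχ => mem_Irr.mp hχ) hχ, if_pos (mem_Irr.mpr hχ), Om_dl hχ]
  have h := key (IC.Irr N) (fun χ hχ => mem_Irr.mp hχ)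
    (fun b hb _ η hη => mem_Irr.mpr (hb.irr η hη)) g
  rwa [hall, ex_dl, conv_dl] at h

end Run7.h179
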