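import Mathlib
import Pool.Agent.Run7.h179.Fr2

/-!
Covering of blocks of normal subgroups.
-/

set_option autoImplicit false
set_option linter.style.haveILetI false
set_option linter.unusedSectionVars false

open scoped BigOperators Classical
open Pool.Agent.Helper884 Pool.Agent.H254R3.IN Pool.Agent.N20

noncomputable section

namespace Run7.h179

variable {G : Type} [Group G] [Fintype G]

/-- if the idempotent of a block of a normal subgroup acts trivially in `χ`, all constituents of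
`χ` are in the block -/
theorem const_mem {O : ValuationSubring ℂ} (N : Subgroup G) [Fintype N]
    {b : Set (N → ℂ)} (hb : IsBlock O b) (hcl : IsCl (ex N (ec (XB b)))) {χ : G → ℂ}
    (hχ : IsIrr χ) (h1 : Om (ex N (ec (XB b))) χ = 1) {η : N → ℂ} (hη : IsIrr η)
    (hχη : IC.B (fun n : N => χ n) η ≠ 0) : η ∈ b := by
  by_contra hηb
  have hbi : ∀ χ ∈ XB b, IsIrr χ := fun χ hχ => hb.irr χ ((mem_XB hb.irr).mp hχ)
  have hηi : ∀ φ ∈ ({η} : Finset (N → ℂ)), IsIrr φ := by
    intro φ hφ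
    rw [Finset.mem_singleton.mp hφ]
    exact hη
  have h2 : conv (ec ({η} : Finset (N → ℂ))) (ec (XB b)) = fun _ => 0 := by
    refine eq_of_Om ((ec_cl hηi).conv (ec_cl hbi)) (fun _ _ => rfl) fun φ hφ => ?_
    rw [Om_conv hφ (ec_cl hηi) (ec_cl hbi), Om_ec hηi hφ, Om_ec hbi hφ]
    have h3 : Om (fun _ : N => (0 : ℂ)) φ = 0 := by
      unfold Om
      simp
    rw [h3]
    by_cases h4 : φ = η
    · have h5 : φ ∉ XB b := fun h => hηb (by rw [← h4]; exact (mem_XB hb.irr).mp h)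
      rw [if_neg h5, mul_zero]
    · have h5 : φ ∉ ({η} : Finset (N → ℂ)) := fun h => h4 (Finset.mem_singleton.mp h)
      rw [if_neg h5, zero_mul]
  have h3 : conv (ex N (ec ({η} : Finset (N → ℂ)))) (ex N (ec (XB b))) = fun _ => 0 := by
    rw [conv_ex, h2]
    funext x
    unfold ex
    split_ifs <;> rfl
  obtain ⟨V, _, _, _, ρ, hr, rfl⟩ := hχ
  have h4 := op_conv ρ (ex N (ec ({η} : Finset (N → ℂ)))) (ex N (ec (XB b)))
  rw [h3] at h4
  have h5 := class_scalar ρ hr _ hcl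
  have h6 : (∑ g, ex N (ec (XB b)) g * ρ.character g) / ρ.character 1 = 1 := h1
  rw [h6, one_smul] at h5
  have h7 : (LinearMap.id : V →ₗ[ℂ] V) = 1 := rfl
  rw [h5, h7, mul_one] at h4
  have h8 := congrArg (LinearMap.trace ℂ V) h4
  have h9 : ∑ g : G, ex N (ec ({η} : Finset (N → ℂ))) g * ρ.character g = 0 := by
    simpa [Representation.character] using h8.symm
  rw [sum_sub N _ (fun x hx => by rw [ex_not _ hx, zero_mul])] at h9
  apply hχη
  have h10 : ∑ n : N, ex N (ec ({η} : Finset (N → ℂ))) n * ρ.character n =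
      η 1 * IC.B (fun n : N => ρ.character n) η := by
    unfold IC.B
    rw [Finset.mul_sum, Finset.mul_sum]
    refine Finset.sum_congr rfl fun n _ => ?_
    rw [ex_coe]
    unfold ec SJ
    rw [Finset.sum_singleton]
    ring
  rw [h10] at h9
  exact (mul_eq_zero.mp h9).resolve_left hη.one_ne

/-- if the block `b` of the normal subgroup is stable and one character of the block `B` lies
over it, all constituents of the characters of `B` are in `b` -/
theorem cover {O : ValuationSubring ℂ} (N : Subgroup G) [Fintype N]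
    {b : Set (N → ℂ)} (hb : IsBlock O b) (hst : stab (ex N (ec (XB b))) = ⊤)
    {B : Set (G → ℂ)} (hB : IsBlock O B) {J : Finset (G → ℂ)} (hJB : ∀ χ ∈ J, χ ∈ B)
    (hne : conv (ec J) (ex N (ec (XB b))) ≠ fun _ => 0) {χ : G → ℂ} (hχ : χ ∈ B) {η : N → ℂ}
    (hη : IsIrr η) (hχη : IC.B (fun n : N => χ n) η ≠ 0) : η ∈ b := by
  have hbi : ∀ χ ∈ XB b, IsIrr χ := fun χ hχ => hb.irr χ ((mem_XB hb.irr).mp hχ)
  have hJi : ∀ χ ∈ J, IsIrr χ := fun χ hχ => hB.irr χ (hJB χ hχ)
  have hcl : IsCl (ex N (ec (XB b))) := by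
    intro g y
    have : y ∈ stab (ex N (ec (XB b))) := by rw [hst]; trivial
    exact mem_stab.mp this g
  have hAA : conv (ex N (ec (XB b))) (ex N (ec (XB b))) = ex N (ec (XB b)) := by
    rw [conv_ex, ec_conv hbi]
  obtain ⟨H, hHi, hHe, hH⟩ := exists_union hcl hAA (ex_O (ec_block_mem hb))
  obtain ⟨ψ, hψ, h1⟩ : ∃ ψ : G → ℂ, IsIrr ψ ∧ Om (conv (ec J) (ex N (ec (XB b)))) ψ ≠ 0 := by
    by_contra hcon
    push Not at hcon
    apply hne
    refine eq_of_Om ((ec_cl hJi).conv hcl) (fun _ _ => rfl) fun χ hχ => ?_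
    rw [hcon χ hχ]
    unfold Om
    simp
  rw [Om_conv hψ (ec_cl hJi) hcl, ← hHe, Om_ec hJi hψ, Om_ec hHi hψ] at h1
  have h2 : ψ ∈ J := by
    by_contra h
    rw [if_neg h, zero_mul] at h1
    exact h1 rfl
  have h3 : ψ ∈ H := by
    by_contra h
    rw [if_neg h, mul_zero] at h1
    exact h1 rfl
  have h4 : χ ∈ H := hH B hB ⟨ψ, hJB ψ h2, h3⟩ χ hχ
  refine const_mem N hb hcl (hB.irr χ hχ) ?_ hη hχη
  rw [← hHe, Om_ec hHi (hB.irr χ hχ), if_pos h4]

/-- the blocks of a `p'`-group are singletons -/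
lemma block_single {O : ValuationSubring ℂ} {p : ℕ} [hp : Fact p.Prime]
    (hpO : (p : ℂ) ∈ O.nonunits) (hG : ¬ p ∣ Nat.card G) {b : Set (G → ℂ)} (hb : IsBlock O b)
    {η : G → ℂ} (hη : η ∈ b) : XB b = {η} := by
  have hηi := hb.irr η hη
  have h1 : ∀ φ ∈ ({η} : Finset (G → ℂ)), IsIrr φ := by
    intro φ hφ
    rw [Finset.mem_singleton.mp hφ]
    exact hηi
  have h2 : ∀ g, ec ({η} : Finset (G → ℂ)) g ∈ O := by
    intro g
    unfold ec SJ
    rw [Finset.sum_singleton]
    exact O.mul_mem _ _ (nat_inv_mem hpO hG)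
      (O.mul_mem _ _ (hηi.val_mem O 1) (hηi.val_mem O g⁻¹))
  ext φ
  rw [mem_XB hb.irr]
  constructor
  · intro hφ
    exact union_of_mem h1 h2 hb hη hφ (Finset.mem_singleton_self η)
  · intro hφ
    rw [Finset.mem_singleton.mp hφ]
    exact hη

end Run7.h179
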