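import Mathlib
import Pool.Agent.Run7.h179.Fr3

/-!
Schur orthogonality for one irreducible representation.
-/

set_option autoImplicit false
set_option linter.style.haveILetI false
set_option linter.unusedSectionVars false

open scoped BigOperators Classical
open Pool.Agent.Helper884 Pool.Agent.H254R3.IN Pool.Agent.N20

noncomputable section

namespace Run7.h179

section

variable {M : Type} [Group M] [Fintype M] {V : Type} [AddCommGroup V] [Module ℂ V]
  [FiniteDimensional ℂ V] (ρ : Representation ℂ M V) (hr : ρ.IsIrreducible)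

/-- the trace in terms of a basis -/
lemma trace_basis (T : Module.End ℂ V) :
    LinearMap.trace ℂ V T = ∑ i, (Module.finBasis ℂ V).coord i (T (Module.finBasis ℂ V i)) := by
  rw [LinearMap.trace_eq_matrix_trace ℂ (Module.finBasis ℂ V) T, Matrix.trace]
  refine Finset.sum_congr rfl fun i _ => ?_
  rw [Matrix.diag_apply, LinearMap.toMatrix_apply]
  rfl

lemma trace_rank_one (i : Fin (Module.finrank ℂ V)) (w : V) :
    LinearMap.trace ℂ V (((Module.finBasis ℂ V).coord i).smulRight w) =
      (Module.finBasis ℂ V).coord i w := by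
  rw [trace_basis]
  simp only [LinearMap.smulRight_apply, map_smul, smul_eq_mul, Module.Basis.coord_apply,
    Module.Basis.repr_self]
  rw [Finset.sum_eq_single i]
  · simp
  · intro j _ hj
    rw [Finsupp.single_apply, if_neg hj, zero_mul]
  · intro h
    exact absurd (Finset.mem_univ i) h

include hr

/-- averaging an operator gives a scalar -/
lemma avg (X : Module.End ℂ V) : ∑ m : M, ρ m⁻¹ * X * ρ m =
    ((Nat.card M : ℂ) * LinearMap.trace ℂ V X / Module.finrank ℂ V) • (1 : Module.End ℂ V) := by
  haveI := irr_nontrivial ρ hr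
  have hn : (Module.finrank ℂ V : ℂ) ≠ 0 := by
    exact_mod_cast (Module.finrank_pos (R := ℂ) (M := V)).ne'
  obtain ⟨c, hc⟩ := schur ρ hr (∑ m : M, ρ m⁻¹ * X * ρ m) (by
    intro h v
    rw [← Module.End.mul_apply, ← Module.End.mul_apply, Finset.sum_mul, Finset.mul_sum]
    congr 1
    refine Fintype.sum_equiv (Equiv.mulRight h) _ _ fun m => ?_
    simp only [Equiv.coe_mulRight]
    have e1 : ρ h * ρ (m * h)⁻¹ = ρ m⁻¹ := by
      rw [← map_mul]
      congr 1
      group
    calc ρ m⁻¹ * X * ρ m * ρ h = ρ m⁻¹ * X * ρ (m * h) := by rw [map_mul, mul_assoc]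
      _ = ρ h * (ρ (m * h)⁻¹ * X * ρ (m * h)) := by rw [← e1]; simp only [mul_assoc])
  have h1 := congrArg (LinearMap.trace ℂ V) hc
  have h2 : ∀ m : M, LinearMap.trace ℂ V (ρ m⁻¹ * X * ρ m) = LinearMap.trace ℂ V X := by
    intro m
    rw [LinearMap.trace_mul_comm, ← mul_assoc, ← map_mul, mul_inv_cancel, map_one, one_mul]
  rw [map_sum, Finset.sum_congr rfl (fun m _ => h2 m), Finset.sum_const, Finset.card_univ,
    nsmul_eq_mul, map_smul, LinearMap.trace_id, smul_eq_mul, ← Nat.card_eq_fintype_card] at h1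
  rw [hc, h1, mul_div_assoc, div_self hn, mul_one]
  rfl

lemma schur_op (A : Module.End ℂ V) : ∑ m : M, LinearMap.trace ℂ V (A * ρ m) • ρ m⁻¹ =
    ((Nat.card M : ℂ) / Module.finrank ℂ V) • A := by
  ext w
  rw [LinearMap.sum_apply, LinearMap.smul_apply]
  have h1 : ∀ m : M, (LinearMap.trace ℂ V (A * ρ m) • ρ m⁻¹) w =
      ∑ i, (ρ m⁻¹ * ((Module.finBasis ℂ V).coord i).smulRight w * ρ m)
        (A (Module.finBasis ℂ V i)) := by
    intro m
    rw [LinearMap.trace_mul_comm, trace_basis, LinearMap.smul_apply, Finset.sum_smul]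
    refine Finset.sum_congr rfl fun i _ => ?_
    rw [Module.End.mul_apply, Module.End.mul_apply, Module.End.mul_apply,
      LinearMap.smulRight_apply, map_smul]
  rw [Finset.sum_congr rfl (fun m _ => h1 m), Finset.sum_comm]
  have h2 : ∀ i, ∑ m : M, (ρ m⁻¹ * ((Module.finBasis ℂ V).coord i).smulRight w * ρ m)
        (A (Module.finBasis ℂ V i)) =
      ((Nat.card M : ℂ) / Module.finrank ℂ V) •
        A ((Module.finBasis ℂ V).coord i w • Module.finBasis ℂ V i) := by
    intro i
    rw [← LinearMap.sum_apply, avg ρ hr, trace_rank_one, map_smul, LinearMap.smul_apply,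
      Module.End.one_apply, smul_smul]
    congr 1
    ring
  rw [Finset.sum_congr rfl (fun i _ => h2 i), ← Finset.smul_sum, ← map_sum]
  congr 2
  exact (Module.finBasis ℂ V).sum_repr w

/-- Schur orthogonality -/
lemma schur_orth (A B : Module.End ℂ V) :
    ∑ m : M, LinearMap.trace ℂ V (ρ m⁻¹ * B) * LinearMap.trace ℂ V (A * ρ m) =
      (Nat.card M : ℂ) / Module.finrank ℂ V * LinearMap.trace ℂ V (A * B) := by
  have h1 := congrArg (fun T => LinearMap.trace ℂ V (T * B)) (schur_op ρ hr A)
  simp only [Finset.sum_mul, map_sum, smul_mul_assoc, map_smul, smul_eq_mul] at h1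
  rw [← h1]
  exact Finset.sum_congr rfl fun m _ => mul_comm _ _

end

/-- character values are algebraic integers -/
lemma rep_char_int {G : Type} [Group G] [Finite G] {V : Type} [AddCommGroup V] [Module ℂ V]
    [FiniteDimensional ℂ V] (ρ : Representation ℂ G V) (g : G) :
    IsIntegral ℤ (LinearMap.trace ℂ V (ρ g)) := by
  rw [Module.End.trace_eq_sum_roots_charpoly_of_splits (IsAlgClosed.splits _)]
  have key : ∀ μ ∈ (LinearMap.charpoly (ρ g)).roots, IsIntegral ℤ μ := by
    intro μ hμ
    have h1 : (LinearMap.charpoly (ρ g)).IsRoot μ := (Polynomial.mem_roots'.mp hμ).2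
    have h2 := (Module.End.hasEigenvalue_iff_isRoot_charpoly (ρ g) μ).mpr h1
    obtain ⟨v, hv⟩ := h2.exists_hasEigenvector
    have h3 : ∀ n : ℕ, ((ρ g) ^ n) v = μ ^ n • v := fun n => by
      induction n with
      | zero => simp
      | succ n ih =>
        rw [pow_succ', Module.End.mul_apply, ih, map_smul, hv.apply_eq_smul, smul_smul, pow_succ]
    have h4 := h3 (orderOf g)
    rw [← map_pow, pow_orderOf_eq_one, map_one, Module.End.one_apply] at h4
    have h5 : μ ^ orderOf g = 1 := by
      have h6 : (μ ^ orderOf g - 1) • v = 0 := by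
        rw [sub_smul, one_smul, ← h4, sub_self]
      rcases smul_eq_zero.mp h6 with h7 | h7
      · exact sub_eq_zero.mp h7
      · exact absurd h7 hv.2
    refine ⟨Polynomial.X ^ orderOf g - 1, Polynomial.monic_X_pow_sub_C 1 (orderOf_pos g).ne' , ?_⟩
    simp [h5]
  generalize (LinearMap.charpoly (ρ g)).roots = s at key
  induction s using Multiset.induction_on with
  | empty => simpa using isIntegral_zero
  | cons a s ih =>
    rw [Multiset.sum_cons]
    exact (key a (Multiset.mem_cons_self a s)).add
      (ih (fun μ hμ => key μ (Multiset.mem_cons_of_mem hμ)))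

end Run7.h179
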