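import Mathlib
import Pool.Agent.Run7.h179.Sch

/-!
The group of Fong's second reduction.
-/

set_option autoImplicit false
set_option linter.style.haveILetI false
set_option linter.unusedSectionVars false

open scoped BigOperators Classical
open Pool.Agent.Helper884 Pool.Agent.H254R3.IN Pool.Agent.N20

noncomputable section

namespace Run7.h179

/-- composition with a surjective homomorphism preserves irreducibility -/
lemma irrep_comp {G H : Type} [Group G] [Group H] (f : G →* H) (hf : Function.Surjective f)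
    {V : Type} [AddCommGroup V] [Module ℂ V] [FiniteDimensional ℂ V] (ρ : Representation ℂ H V)
    (hr : ρ.IsIrreducible) : Representation.IsIrreducible (ρ.comp f : Representation ℂ G V) := by
  haveI := irr_nontrivial ρ hr
  haveI : Nontrivial (Subrepresentation (ρ.comp f : Representation ℂ G V)) := by
    refine ⟨⊥, ⊤, ?_⟩
    intro h
    obtain ⟨v, hv⟩ := exists_ne (0 : V)
    have h1 : (⊥ : Submodule ℂ V) = ⊤ := congrArg Subrepresentation.toSubmodule h
    have h2 : v ∈ (⊥ : Submodule ℂ V) := by rw [h1]; trivial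
    exact hv ((Submodule.mem_bot ℂ).mp h2)
  refine ⟨fun S => ?_⟩
  let S' : Subrepresentation ρ := ⟨S.toSubmodule, fun h v hv => by
    obtain ⟨g, rfl⟩ := hf h
    exact S.apply_mem_toSubmodule g hv⟩
  rcases hr.eq_bot_or_eq_top S' with h | h
  · left
    apply Subrepresentation.toSubmodule_injective
    have h1 := congrArg Subrepresentation.toSubmodule h
    exact h1
  · right
    apply Subrepresentation.toSubmodule_injective
    have h1 := congrArg Subrepresentation.toSubmodule h
    exact h1

variable {G : Type} [Group G] [Finite G] (M : Subgroup G) [hM : M.Normal] {V : Type}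
  [AddCommGroup V] [Module ℂ V] [FiniteDimensional ℂ V] (ρ : Representation ℂ M V)

/-- Fong's group: pairs of a group element and an operator inducing the same automorphism of
the image of `M`, with a determinant condition. -/
def Gam : Subgroup (G × (Module.End ℂ V)ˣ) where
  carrier := {x | (∀ m : M, (x.2 : Module.End ℂ V) * ρ m = ρ (MulAut.conjNormal x.1 m) * x.2) ∧
    (LinearMap.det (x.2 : Module.End ℂ V)) ^ (Nat.card M) = 1}
  one_mem' := by
    refine ⟨fun m => ?_, ?_⟩
    · simp
    · simp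
  mul_mem' := by
    rintro x y ⟨hx1, hx2⟩ ⟨hy1, hy2⟩
    refine ⟨fun m => ?_, ?_⟩
    · simp only [Prod.fst_mul, Prod.snd_mul, Units.val_mul, map_mul]
      rw [mul_assoc, hy1, ← mul_assoc, hx1, mul_assoc]
      rfl
    · simp only [Prod.snd_mul, Units.val_mul, map_mul, mul_pow, hx2, hy2, mul_one]
  inv_mem' := by
    rintro x ⟨hx1, hx2⟩
    refine ⟨fun m => ?_, ?_⟩
    · have h1 := hx1 (MulAut.conjNormal x.1⁻¹ m)
      have h2 : MulAut.conjNormal x.1 (MulAut.conjNormal x.1⁻¹ m) = m := by
        rw [← MulAut.mul_apply, ← map_mul, mul_inv_cancel, map_one, MulAut.one_apply]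
      rw [h2] at h1
      simp only [Prod.fst_inv, Prod.snd_inv]
      calc ((x.2⁻¹ : (Module.End ℂ V)ˣ) : Module.End ℂ V) * ρ m
          = (x.2⁻¹ : (Module.End ℂ V)ˣ) * (ρ m * x.2) * (x.2⁻¹ : (Module.End ℂ V)ˣ) := by
            rw [mul_assoc, mul_assoc, Units.mul_inv, mul_one]
        _ = (x.2⁻¹ : (Module.End ℂ V)ˣ) * (x.2 * ρ (MulAut.conjNormal x.1⁻¹ m)) *
            (x.2⁻¹ : (Module.End ℂ V)ˣ) := by rw [← h1]
        _ = ρ (MulAut.conjNormal x.1⁻¹ m) * (x.2⁻¹ : (Module.End ℂ V)ˣ) := by
            rw [← mul_assoc, Units.inv_mul, one_mul]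
    · have h1 : LinearMap.det ((x.2⁻¹ : (Module.End ℂ V)ˣ) : Module.End ℂ V) *
          LinearMap.det (x.2 : Module.End ℂ V) = 1 := by
        rw [← map_mul, Units.inv_mul, map_one]
      simp only [Prod.snd_inv]
      have h2 := congrArg (· ^ Nat.card M) h1
      simp only [mul_pow, one_pow] at h2
      rwa [hx2, mul_one] at h2

/-- the projection to `G` -/
def gpi : Gam M ρ →* G := (MonoidHom.fst G (Module.End ℂ V)ˣ).comp (Gam M ρ).subtype

/-- the operator -/
def gop : Gam M ρ →* Module.End ℂ V :=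
  (Units.coeHom (Module.End ℂ V)).comp
    ((MonoidHom.snd G (Module.End ℂ V)ˣ).comp (Gam M ρ).subtype)

/-- the trace -/
def gt (γ : Gam M ρ) : ℂ := LinearMap.trace ℂ V (gop M ρ γ)

lemma gop_conj (γ : Gam M ρ) (m : M) :
    gop M ρ γ * ρ m = ρ (MulAut.conjNormal (gpi M ρ γ) m) * gop M ρ γ := γ.2.1 m

lemma gop_inv_mul (γ : Gam M ρ) : gop M ρ γ⁻¹ * gop M ρ γ = 1 := by
  rw [← map_mul, inv_mul_cancel, map_one]

lemma gop_mul_inv (γ : Gam M ρ) : gop M ρ γ * gop M ρ γ⁻¹ = 1 := by
  rw [← map_mul, mul_inv_cancel, map_one]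

lemma gam_ext {γ δ : Gam M ρ} (h1 : gpi M ρ γ = gpi M ρ δ) (h2 : gop M ρ γ = gop M ρ δ) :
    γ = δ := by
  apply Subtype.ext
  apply Prod.ext
  · exact h1
  · exact Units.ext h2

/-- the copy of `M` -/
def gio : M →* Gam M ρ :=
  (M.subtype.prod (MonoidHom.toHomUnits ρ)).codRestrict (Gam M ρ) (by
    intro m
    refine ⟨fun k => ?_, ?_⟩
    · change ρ m * ρ k = ρ (MulAut.conjNormal (m : G) k) * ρ m
      rw [← map_mul, ← map_mul]
      congr 1
      apply Subtype.ext
      simp [MulAut.conjNormal_apply]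
    · change (LinearMap.det (ρ m)) ^ (Nat.card M) = 1
      rw [← map_pow, ← map_pow, pow_card_eq_one', map_one, map_one])

lemma gpi_gio (m : M) : gpi M ρ (gio M ρ m) = m := rfl

lemma gop_gio (m : M) : gop M ρ (gio M ρ m) = ρ m := rfl

lemma gio_conj (γ : Gam M ρ) (m : M) :
    γ * gio M ρ m * γ⁻¹ = gio M ρ (MulAut.conjNormal (gpi M ρ γ) m) := by
  apply gam_ext
  · rw [map_mul, map_mul, gpi_gio, gpi_gio, map_inv, MulAut.conjNormal_apply]
  · rw [map_mul, map_mul, gop_gio, gop_gio, gop_conj, mul_assoc, gop_mul_inv, mul_one]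

instance gio_normal : (gio M ρ).range.Normal := by
  constructor
  rintro _ ⟨m, rfl⟩ γ
  exact ⟨MulAut.conjNormal (gpi M ρ γ) m, (gio_conj M ρ γ m).symm⟩

section irr

variable (hr : ρ.IsIrreducible)

include hr in
/-- the kernel of the projection consists of scalars -/
lemma ker_scalar {γ : Gam M ρ} (hγ : gpi M ρ γ = 1) :
    ∃ c : ℂ, c ^ (Module.finrank ℂ V * Nat.card M) = 1 ∧ gop M ρ γ = c • 1 := by
  obtain ⟨c, hc⟩ := schur ρ hr (gop M ρ γ) (by
    intro m v
    have h1 := gop_conj M ρ γ m
    rw [hγ, map_one, MulAut.one_apply] at h1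
    rw [← Module.End.mul_apply, ← Module.End.mul_apply, h1])
  refine ⟨c, ?_, hc⟩
  have h1 := γ.2.2
  have h2 : LinearMap.det (gop M ρ γ) ^ Nat.card M = 1 := h1
  rw [hc, LinearMap.det_smul, LinearMap.det_id, mul_one, ← pow_mul] at h2
  exact h2

include hr in
/-- elements of the kernel of the projection are central -/
lemma ker_central {γ : Gam M ρ} (hγ : gpi M ρ γ = 1) (δ : Gam M ρ) : δ * γ = γ * δ := by
  obtain ⟨c, -, hc⟩ := ker_scalar M ρ hr hγ
  apply gam_ext
  · rw [map_mul, map_mul, hγ, mul_one, one_mul]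
  · rw [map_mul, map_mul, hc, mul_smul_comm, smul_mul_assoc, mul_one, one_mul]

include hr in
lemma ker_pow {γ : Gam M ρ} (hγ : gpi M ρ γ = 1) :
    γ ^ (Module.finrank ℂ V * Nat.card M) = 1 := by
  obtain ⟨c, hc1, hc⟩ := ker_scalar M ρ hr hγ
  apply gam_ext
  · rw [map_pow, hγ, one_pow, map_one]
  · rw [map_pow, hc, map_one, smul_pow, hc1, one_pow, one_smul]

include hr in
lemma ker_finite : Finite (gpi M ρ).ker := by
  haveI := irr_nontrivial ρ hr
  have hN : 0 < Module.finrank ℂ V * Nat.card M :=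
    Nat.mul_pos Module.finrank_pos Nat.card_pos
  have hfin : Finite {c : ℂ // c ^ (Module.finrank ℂ V * Nat.card M) = 1} := by
    have h1 : {c : ℂ | c ^ (Module.finrank ℂ V * Nat.card M) = 1} =
        ((Polynomial.X ^ (Module.finrank ℂ V * Nat.card M) - 1 : Polynomial ℂ).rootSet ℂ) := by
      ext c
      rw [Polynomial.mem_rootSet]
      constructor
      · intro h
        refine ⟨Polynomial.X_pow_sub_C_ne_zero hN 1, ?_⟩
        simp only [Set.mem_ofPred_eq] at h
        simp [h]
      · rintro ⟨_, h⟩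
        simp only [map_sub, map_pow, Polynomial.aeval_X, map_one] at h
        exact sub_eq_zero.mp h
    have h2 : Set.Finite {c : ℂ | c ^ (Module.finrank ℂ V * Nat.card M) = 1} := by
      rw [h1]
      exact Polynomial.rootSet_finite _ _
    exact h2.to_subtype
  choose c hc1 hc2 using fun γ : (gpi M ρ).ker => ker_scalar M ρ hr γ.2
  refine Finite.of_injective (fun γ => (⟨c γ, hc1 γ⟩ :
    {c : ℂ // c ^ (Module.finrank ℂ V * Nat.card M) = 1})) ?_
  intro γ δ h
  have h1 : c γ = c δ := congrArg Subtype.val h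
  apply Subtype.ext
  apply gam_ext
  · rw [γ.2, δ.2]
  · rw [hc2, hc2, h1]

include hr in
lemma gam_finite : Finite (Gam M ρ) := by
  haveI := ker_finite M ρ hr
  haveI : Finite (Gam M ρ ⧸ (gpi M ρ).ker) :=
    Finite.of_injective _ (QuotientGroup.kerLift_injective (gpi M ρ))
  exact Finite.of_equiv _ (Subgroup.groupEquivQuotientProdSubgroup (s := (gpi M ρ).ker)).symm

include hr in
/-- surjectivity of the projection for stable characters -/
lemma gpi_surj (hst : ∀ (g : G) (m : M),
    ρ.character (MulAut.conjNormal g m) = ρ.character m) :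
    Function.Surjective (gpi M ρ) := by
  haveI := irr_nontrivial ρ hr
  haveI := Fintype.ofFinite M
  intro g
  set σ : Representation ℂ M V := ρ.comp (MulAut.conjNormal g : MulAut M).toMonoidHom with hσ
  have hσr : σ.IsIrreducible :=
    irrep_comp (MulAut.conjNormal g : MulAut M).toMonoidHom
      (MulAut.conjNormal g : MulAut M).surjective ρ hr
  haveI : Invertible (Nat.card M : ℂ) := invertibleOfNonzero (by exact_mod_cast Nat.card_pos.ne')
  haveI := hr
  haveI := hσr
  have h3 := Representation.char_orthonormal σ ρ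
  have h4 := Representation.char_orthonormal ρ ρ
  rw [if_pos ⟨Representation.Equiv.refl ρ⟩] at h4
  have h5 : σ.character = ρ.character := by
    funext m
    exact hst g m
  rw [h5, h4] at h3
  have h6 : Nonempty (Representation.Equiv ρ σ) := by
    by_contra h
    rw [if_neg h] at h3
    exact one_ne_zero h3
  obtain ⟨e⟩ := h6
  set T : Module.End ℂ V := e.toLinearEquiv.toLinearMap with hT
  set T' : Module.End ℂ V := e.toLinearEquiv.symm.toLinearMap with hT'
  have hTT' : T * T' = 1 := by
    ext v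
    exact e.toLinearEquiv.apply_symm_apply v
  have hT'T : T' * T = 1 := by
    ext v
    exact e.toLinearEquiv.symm_apply_apply v
  have hint : ∀ m : M, T * ρ m = ρ (MulAut.conjNormal g m) * T := by
    intro m
    ext v
    exact Representation.IntertwiningMap.isIntertwining _ _ e.toIntertwiningMap m v
  have hdet : LinearMap.det T ≠ 0 := by
    intro h
    have := congrArg LinearMap.det hTT'
    rw [map_mul, h, zero_mul, map_one] at this
    exact zero_ne_one this
  have hn : 0 < Module.finrank ℂ V := Module.finrank_pos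
  obtain ⟨c, hc⟩ := IsAlgClosed.exists_pow_nat_eq (LinearMap.det T)⁻¹ hn
  have hc0 : c ≠ 0 := by
    rintro rfl
    rw [zero_pow hn.ne'] at hc
    exact inv_ne_zero hdet hc.symm
  let U : (Module.End ℂ V)ˣ := ⟨c • T, c⁻¹ • T', by
    rw [smul_mul_smul_comm, mul_inv_cancel₀ hc0, hTT', one_smul], by
    rw [smul_mul_smul_comm, inv_mul_cancel₀ hc0, hT'T, one_smul]⟩
  refine ⟨⟨(g, U), fun m => ?_, ?_⟩, rfl⟩
  · change (c • T) * ρ m = ρ (MulAut.conjNormal g m) * (c • T)
    rw [smul_mul_assoc, mul_smul_comm, hint]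
  · change (LinearMap.det (c • T)) ^ (Nat.card M) = 1
    rw [LinearMap.det_smul, hc, inv_mul_cancel₀ hdet, one_pow]

end irr

end Run7.h179
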