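import Mathlib
import Pool.Agent.Run7.h179.Fg1

/-!
Transport of central idempotents along Fong's second reduction.
-/

set_option autoImplicit false
set_option linter.style.haveILetI false
set_option linter.unusedSectionVars false

open scoped BigOperators Classical
open Pool.Agent.Helper884 Pool.Agent.H254R3.IN Pool.Agent.N20

noncomputable section

namespace Run7.h179

section general

variable {G : Type} [Group G] [Fintype G]

lemma Om_memO {O : ValuationSubring ℂ} {χ : G → ℂ} (hχ : IsIrr χ) {f : G → ℂ} (hf : IsCl f)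
    (hfO : ∀ g, f g ∈ O) : Om f χ ∈ O := by
  have h1 : Om f χ = ∑ K : ConjClasses G, f (rep K) * omega χ (rep K) := by
    unfold Om
    rw [sum_classes, Finset.sum_div]
    refine Finset.sum_congr rfl fun K _ => ?_
    have h2 : ∀ g ∈ Finset.univ.filter (fun g => IsConj (rep K) g),
        f g * χ g = f (rep K) * χ (rep K) := by
      intro g hg
      have hc := (Finset.mem_filter.mp hg).2
      rw [hf.isConj hc, hχ.isConj hc]
    rw [Finset.sum_congr rfl h2, Finset.sum_const, nsmul_eq_mul]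
    have h3 : (Finset.univ.filter (fun g => IsConj (rep K) g)).card =
        Nat.card {y : G // IsConj (rep K) y} := by
      rw [Nat.card_eq_fintype_card, Fintype.card_subtype]
    rw [h3]
    unfold omega
    ring
  rw [h1]
  exact sum_mem fun K _ => O.mul_mem _ _ (hfO _) (hχ.omega_mem O _)

/-- degrees of irreducible characters of `p'`-groups are prime to `p` -/
lemma deg_prime {O : ValuationSubring ℂ} {p : ℕ} [hp : Fact p.Prime]
    (hpO : (p : ℂ) ∈ O.nonunits) (hG : ¬ p ∣ Nat.card G) {χ : G → ℂ} (hχ : IsIrr χ) {n : ℕ}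
    (hn : (n : ℂ) = χ 1) : ¬ p ∣ n := by
  have hG0 : (Nat.card G : ℂ) ≠ 0 := by exact_mod_cast Nat.card_pos.ne'
  have h1 : Om (fun g => χ g⁻¹) χ ∈ O := by
    refine Om_memO hχ ?_ fun g => hχ.val_mem O _
    intro g y
    have e : (y * g * y⁻¹)⁻¹ = y * g⁻¹ * y⁻¹ := by group
    change χ (y * g * y⁻¹)⁻¹ = χ g⁻¹
    rw [e, hχ.conj]
  have h2 : Om (fun g => χ g⁻¹) χ = (Nat.card G : ℂ) / χ 1 := by
    unfold Om
    have h3 := irr_orth hχ hχ
    rw [if_pos rfl] at h3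
    have h4 : ∑ g : G, χ g * χ g⁻¹ = Nat.card G := by
      field_simp at h3
      exact h3
    rw [← h4]
    congr 1
    exact Finset.sum_congr rfl fun g _ => mul_comm _ _
  rw [h2] at h1
  have h5 : (χ 1)⁻¹ ∈ O := by
    have h6 := O.mul_mem _ _ h1 (nat_inv_mem hpO hG)
    have h7 : (Nat.card G : ℂ) / χ 1 * (Nat.card G : ℂ)⁻¹ = (χ 1)⁻¹ := by
      field_simp
    rwa [h7] at h6
  rintro ⟨k, rfl⟩
  have h8 : ((p * k : ℕ) : ℂ) * (χ 1)⁻¹ = 1 := by
    rw [hn, mul_inv_cancel₀ hχ.one_ne]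
  have h9 : (p : ℂ) * ((k : ℂ) * (χ 1)⁻¹) = 1 := by
    rw [← h8]
    push_cast
    ring
  have h10 : (k : ℂ) * (χ 1)⁻¹ ∈ O := O.mul_mem _ _ (natCast_mem O k) h5
  have h11 : O.valuation ((p : ℂ) * ((k : ℂ) * (χ 1)⁻¹)) < 1 := by
    rw [map_mul]
    have h12 : O.valuation (p : ℂ) < 1 := hpO
    have h13 : O.valuation ((k : ℂ) * (χ 1)⁻¹) ≤ 1 :=
      (ValuationSubring.valuation_le_one_iff O _).mpr h10
    exact mul_lt_one_of_lt_of_le h12 h13
  rw [h9, map_one] at h11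
  exact lt_irrefl _ h11

/-- summing a function over the fibres of a surjective homomorphism -/
lemma sum_hom {A B : Type} [Group A] [Group B] [Fintype A] [Fintype B] (q : A →* B)
    (hq : Function.Surjective q) (F : B → ℂ) :
    ∑ a : A, F (q a) = (Nat.card q.ker : ℂ) * ∑ b : B, F b := by
  rw [← Finset.sum_fiberwise Finset.univ (fun a : A => q a), Finset.mul_sum]
  refine Finset.sum_congr rfl fun b _ => ?_
  rw [Finset.sum_congr rfl (g := fun _ => F b) (fun a ha => by rw [(Finset.mem_filter.mp ha).2]),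
    Finset.sum_const, nsmul_eq_mul]
  congr 2
  rw [MonoidHom.card_fiber_eq_of_mem_range q (x := b) (y := 1) (hq b) ⟨1, map_one q⟩]
  rw [Nat.card_eq_fintype_card, Fintype.card_subtype]
  congr 1
  ext x
  simp only [Finset.mem_filter, Finset.mem_univ, true_and, MonoidHom.mem_ker]

end general

section transport

variable {G : Type} [Group G] [Fintype G] (M : Subgroup G) [hM : M.Normal] [hF : Fintype M]
  {V : Type} [AddCommGroup V] [Module ℂ V] [FiniteDimensional ℂ V] (ρ : Representation ℂ M V)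

/-- the transported function, on Fong's group -/
def gc (E : G → ℂ) (γ : Gam M ρ) : ℂ :=
  (Module.finrank ℂ V : ℂ)⁻¹ * ∑ m : M, E (gpi M ρ γ * m) * gt M ρ (γ * gio M ρ m)

lemma gt_mul_comm (γ δ : Gam M ρ) : gt M ρ (γ * δ) = gt M ρ (δ * γ) := by
  unfold gt
  rw [map_mul (gop M ρ), map_mul (gop M ρ), LinearMap.trace_mul_comm]

lemma gc_gio (E : G → ℂ) (γ : Gam M ρ) (k : M) : gc M ρ E (γ * gio M ρ k) = gc M ρ E γ := by
  unfold gc
  congr 1
  refine Fintype.sum_equiv (Equiv.mulLeft k) _ _ fun m => ?_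
  simp only [Equiv.coe_mulLeft]
  rw [map_mul, gpi_gio, mul_assoc, mul_assoc, ← map_mul]
  rfl

lemma gc_cl {E : G → ℂ} (hE : IsCl E) (γ δ : Gam M ρ) :
    gc M ρ E (δ * γ * δ⁻¹) = gc M ρ E γ := by
  unfold gc
  congr 1
  refine (Fintype.sum_equiv (MulAut.conjNormal (gpi M ρ δ)).toEquiv _ _ fun m => ?_).symm
  have e1 : ((MulAut.conjNormal (gpi M ρ δ)).toEquiv m : M) =
    MulAut.conjNormal (gpi M ρ δ) m := rfl
  rw [e1, ← gio_conj, MulAut.conjNormal_apply]
  have e2 : gpi M ρ (δ * γ * δ⁻¹) * (gpi M ρ δ * (m : G) * (gpi M ρ δ)⁻¹) =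
      gpi M ρ δ * (gpi M ρ γ * m) * (gpi M ρ δ)⁻¹ := by
    rw [map_mul, map_mul, map_inv]
    group
  have e3 : δ * γ * δ⁻¹ * (δ * gio M ρ m * δ⁻¹) = δ * (γ * gio M ρ m) * δ⁻¹ := by group
  have e4 : gt M ρ (δ * (γ * gio M ρ m) * δ⁻¹) = gt M ρ (γ * gio M ρ m) := by
    rw [gt_mul_comm, ← mul_assoc, inv_mul_cancel, one_mul]
  rw [e2, e3, hE, e4]

lemma gc_comm {E : G → ℂ} (hE : IsCl E) (γ δ : Gam M ρ) :
    gc M ρ E (γ * δ) = gc M ρ E (δ * γ) := by
  have h := gc_cl M ρ hE (γ * δ) γ⁻¹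
  rw [inv_inv] at h
  rw [← h]
  congr 1
  group

variable (hr : ρ.IsIrreducible)

include hr

/-- the idempotent is determined by the transported function -/
lemma E_eq {E : G → ℂ} (hE : IsCl E)
    (hEA : conv E (ex M (ec ({ρ.character} : Finset (M → ℂ)))) = E) (γ : Gam M ρ) :
    E (gpi M ρ γ) = (Module.finrank ℂ V : ℂ) / Nat.card M * (gc M ρ E γ * gt M ρ γ⁻¹) := by
  haveI := irr_nontrivial ρ hr
  have hn : (Module.finrank ℂ V : ℂ) ≠ 0 := by
    exact_mod_cast (Module.finrank_pos (R := ℂ) (M := V)).ne'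
  have hM0 : (Nat.card M : ℂ) ≠ 0 := by exact_mod_cast Nat.card_pos.ne'
  set g := gpi M ρ γ with hg
  have h1 : E g = (Module.finrank ℂ V : ℂ) / Nat.card M *
      ∑ m : M, E (g * m) * ρ.character m := by
    conv_lhs => rw [← hEA]
    rw [conv_swap, sum_sub M _ (fun x hx => by rw [ex_not _ hx, mul_zero]), Finset.mul_sum]
    refine Fintype.sum_equiv (Equiv.inv M) _ _ fun m => ?_
    rw [ex_coe]
    unfold ec SJ
    rw [Finset.sum_singleton, ρ.char_one]
    simp only [Equiv.inv_apply, Subgroup.coe_inv]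
    ring
  have h2 : ∀ k : M, ∑ m : M, E (g * m) * ρ.character m = ∑ m : M, E (g * m) *
      LinearMap.trace ℂ V (gop M ρ γ⁻¹ * (ρ k⁻¹ * (gop M ρ γ * ρ m) * ρ k)) := by
    intro k
    refine Fintype.sum_equiv
      ((Equiv.mulLeft (MulAut.conjNormal g⁻¹ k)).trans (Equiv.mulRight k⁻¹)) _ _ fun m => ?_
    simp only [Equiv.trans_apply, Equiv.coe_mulLeft, Equiv.coe_mulRight]
    have e1 : g * ((MulAut.conjNormal g⁻¹ k * m * k⁻¹ : M) : G) = k * (g * m) * (k : G)⁻¹ := by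
      simp only [Subgroup.coe_mul, MulAut.conjNormal_apply, Subgroup.coe_inv]
      group
    have e2 : ρ k * gop M ρ γ = gop M ρ γ * ρ (MulAut.conjNormal g⁻¹ k) := by
      rw [gop_conj, ← hg, ← MulAut.mul_apply, ← map_mul, mul_inv_cancel, map_one,
        MulAut.one_apply]
    have e3 : ρ k⁻¹ * (gop M ρ γ * ρ (MulAut.conjNormal g⁻¹ k)) = gop M ρ γ := by
      rw [← e2, ← mul_assoc, ← map_mul, inv_mul_cancel, map_one, one_mul]
    have e4 : ρ k⁻¹ * (gop M ρ γ * ρ (MulAut.conjNormal g⁻¹ k * m * k⁻¹)) * ρ k =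
        gop M ρ γ * ρ m := by
      rw [map_mul, map_mul, ← mul_assoc, ← mul_assoc, ← mul_assoc,
        mul_assoc (ρ k⁻¹) (gop M ρ γ) (ρ (MulAut.conjNormal g⁻¹ k)), e3, mul_assoc, ← map_mul,
        inv_mul_cancel, map_one, mul_one]
    rw [e1, hE, e4, ← mul_assoc, gop_inv_mul, one_mul]
    rfl
  have h3 : (Nat.card M : ℂ) * ∑ m : M, E (g * m) * ρ.character m =
      (Nat.card M : ℂ) * (gc M ρ E γ * gt M ρ γ⁻¹) := by
    have h4 : (Nat.card M : ℂ) * ∑ m : M, E (g * m) * ρ.character m =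
        ∑ _k : M, ∑ m : M, E (g * m) * ρ.character m := by
      rw [Finset.sum_const, Finset.card_univ, nsmul_eq_mul, Nat.card_eq_fintype_card]
    rw [h4, Finset.sum_congr rfl (fun k _ => h2 k), Finset.sum_comm]
    unfold gc
    rw [Finset.mul_sum, Finset.sum_mul, Finset.mul_sum]
    refine Finset.sum_congr rfl fun m _ => ?_
    rw [← Finset.mul_sum, ← map_sum, ← Finset.mul_sum, avg ρ hr]
    rw [mul_smul_comm, mul_one, map_smul, smul_eq_mul]
    unfold gt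
    rw [map_mul (gop M ρ), gop_gio, ← hg]
    field_simp
  rw [h1, mul_left_cancel₀ hM0 h3]

/-- nonvanishing of the trace somewhere on each coset of `M` -/
lemma gt_ne (γ : Gam M ρ) : ∃ m : M, gt M ρ (γ * gio M ρ m)⁻¹ ≠ 0 := by
  haveI := irr_nontrivial ρ hr
  have hn : (Module.finrank ℂ V : ℂ) ≠ 0 := by
    exact_mod_cast (Module.finrank_pos (R := ℂ) (M := V)).ne'
  have hM0 : (Nat.card M : ℂ) ≠ 0 := by exact_mod_cast Nat.card_pos.ne'
  by_contra hcon
  push Not at hcon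
  have h1 := schur_orth ρ hr (gop M ρ γ) (gop M ρ γ⁻¹)
  rw [Finset.sum_eq_zero] at h1
  · rw [gop_mul_inv, LinearMap.trace_one, div_mul_cancel₀ _ hn] at h1
    exact hM0 h1.symm
  · intro m _
    have h2 := hcon m
    unfold gt at h2
    rw [mul_inv_rev, ← map_inv (gio M ρ), map_mul, gop_gio] at h2
    rw [h2, zero_mul]

/-- the transported function is idempotent up to a factor -/
lemma gc_idem [Fintype (Gam M ρ)] (hsurj : Function.Surjective (gpi M ρ)) {E : G → ℂ}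
    (hE : IsCl E) (hEE : conv E E = E)
    (hEA : conv E (ex M (ec ({ρ.character} : Finset (M → ℂ)))) = E) (γ : Gam M ρ) :
    ∑ x : Gam M ρ, gc M ρ E x * gc M ρ E (x⁻¹ * γ) =
      ((Nat.card (gpi M ρ).ker : ℂ) * Nat.card M) * gc M ρ E γ := by
  haveI := irr_nontrivial ρ hr
  have hn : (Module.finrank ℂ V : ℂ) ≠ 0 := by
    exact_mod_cast (Module.finrank_pos (R := ℂ) (M := V)).ne'
  have hM0 : (Nat.card M : ℂ) ≠ 0 := by exact_mod_cast Nat.card_pos.ne'
  have hK0 : (Nat.card (gpi M ρ).ker : ℂ) ≠ 0 := by exact_mod_cast Nat.card_pos.ne'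
  -- for `γ` with nonvanishing trace
  have key : ∀ γ : Gam M ρ, gt M ρ γ⁻¹ ≠ 0 →
      ∑ x : Gam M ρ, gc M ρ E x * gc M ρ E (x⁻¹ * γ) =
      ((Nat.card (gpi M ρ).ker : ℂ) * Nat.card M) * gc M ρ E γ := by
    intro γ hγ
    have h1 : (Nat.card (gpi M ρ).ker : ℂ) * E (gpi M ρ γ) =
        ∑ x : Gam M ρ, E (gpi M ρ x) * E (gpi M ρ (x⁻¹ * γ)) := by
      conv_lhs => rw [← hEE]
      unfold conv
      rw [← sum_hom (gpi M ρ) hsurj (fun y => E y * E (y⁻¹ * gpi M ρ γ))]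
      refine Finset.sum_congr rfl fun x _ => ?_
      rw [map_mul, map_inv]
    have h2 : ∀ x : Gam M ρ, E (gpi M ρ x) * E (gpi M ρ (x⁻¹ * γ)) =
        ((Module.finrank ℂ V : ℂ) / Nat.card M) ^ 2 * (gc M ρ E x * gc M ρ E (x⁻¹ * γ) *
          (gt M ρ x⁻¹ * gt M ρ (γ⁻¹ * x))) := by
      intro x
      rw [E_eq M ρ hr hE hEA x, E_eq M ρ hr hE hEA (x⁻¹ * γ), mul_inv_rev, inv_inv]
      ring
    have h3 : (Nat.card M : ℂ) * ∑ x : Gam M ρ, (gc M ρ E x * gc M ρ E (x⁻¹ * γ) *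
        (gt M ρ x⁻¹ * gt M ρ (γ⁻¹ * x))) =
        (Nat.card M : ℂ) / Module.finrank ℂ V * gt M ρ γ⁻¹ *
          ∑ x : Gam M ρ, gc M ρ E x * gc M ρ E (x⁻¹ * γ) := by
      have h4 : ∀ m : M, ∑ x : Gam M ρ, (gc M ρ E x * gc M ρ E (x⁻¹ * γ) *
          (gt M ρ x⁻¹ * gt M ρ (γ⁻¹ * x))) =
          ∑ x : Gam M ρ, gc M ρ E x * gc M ρ E (x⁻¹ * γ) *
            (LinearMap.trace ℂ V (ρ m⁻¹ * gop M ρ x⁻¹) *
              LinearMap.trace ℂ V (gop M ρ (γ⁻¹ * x) * ρ m)) := by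
        intro m
        refine (Fintype.sum_equiv (Equiv.mulRight (gio M ρ m)) _ _ fun x => ?_).symm
        simp only [Equiv.coe_mulRight]
        have e1 : gc M ρ E ((x * gio M ρ m)⁻¹ * γ) = gc M ρ E (x⁻¹ * γ) := by
          rw [mul_inv_rev, ← map_inv (gio M ρ), mul_assoc, gc_comm M ρ hE, gc_gio]
        rw [gc_gio, e1]
        unfold gt
        rw [mul_inv_rev, ← map_inv (gio M ρ), map_mul (gop M ρ) (gio M ρ m⁻¹), gop_gio,
          ← mul_assoc γ⁻¹ x, map_mul (gop M ρ) (γ⁻¹ * x), gop_gio]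
      have h5 : (Nat.card M : ℂ) * ∑ x : Gam M ρ, (gc M ρ E x * gc M ρ E (x⁻¹ * γ) *
          (gt M ρ x⁻¹ * gt M ρ (γ⁻¹ * x))) = ∑ _m : M, ∑ x : Gam M ρ,
          (gc M ρ E x * gc M ρ E (x⁻¹ * γ) * (gt M ρ x⁻¹ * gt M ρ (γ⁻¹ * x))) := by
        rw [Finset.sum_const, Finset.card_univ, nsmul_eq_mul, Nat.card_eq_fintype_card]
      rw [h5, Finset.sum_congr rfl (fun m _ => h4 m), Finset.sum_comm, Finset.mul_sum]
      refine Finset.sum_congr rfl fun x _ => ?_
      rw [← Finset.mul_sum, schur_orth ρ hr, ← map_mul, mul_assoc γ⁻¹, mul_inv_cancel, mul_one]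
      unfold gt
      ring
    have h6 : (Nat.card (gpi M ρ).ker : ℂ) * E (gpi M ρ γ) =
        ((Module.finrank ℂ V : ℂ) / Nat.card M) ^ 2 * ∑ x : Gam M ρ,
          (gc M ρ E x * gc M ρ E (x⁻¹ * γ) * (gt M ρ x⁻¹ * gt M ρ (γ⁻¹ * x))) := by
      rw [h1, Finset.mul_sum]
      exact Finset.sum_congr rfl fun x _ => h2 x
    rw [E_eq M ρ hr hE hEA γ] at h6
    have h7 : gt M ρ γ⁻¹ * ((Nat.card (gpi M ρ).ker : ℂ) * Nat.card M * gc M ρ E γ) =
        gt M ρ γ⁻¹ * ∑ x : Gam M ρ, gc M ρ E x * gc M ρ E (x⁻¹ * γ) := by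
      field_simp at h6 h3
      linear_combination h6 + h3
    exact (mul_left_cancel₀ hγ h7).symm
  obtain ⟨m, hm⟩ := gt_ne M ρ hr γ
  have h8 := key (γ * gio M ρ m) hm
  rw [gc_gio] at h8
  rw [← h8]
  refine Finset.sum_congr rfl fun x _ => ?_
  rw [← mul_assoc, gc_gio]

end transport

end Run7.h179
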