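import Mathlib
import Pool.Agent.Run7.h179.Fg2

/-!
Fong's second reduction for Harada's conjecture.
-/

set_option autoImplicit false
set_option linter.style.haveILetI false
set_option linter.unusedSectionVars false

open scoped BigOperators Classical
open Pool.Agent.Helper884 Pool.Agent.H254R3.IN Pool.Agent.N20

noncomputable section

namespace Run7.h179

variable {G : Type} [Group G] [Fintype G] (M : Subgroup G) [hM : M.Normal] [hF : Fintype M]
  {V : Type} [AddCommGroup V] [Module ℂ V] [FiniteDimensional ℂ V] (ρ : Representation ℂ M V)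
  (hr : ρ.IsIrreducible)

/-- Fong's quotient group -/
abbrev GQ : Type := Gam M ρ ⧸ (gio M ρ).range

/-- the transported function on the quotient -/
def gh (E : G → ℂ) (x : GQ M ρ) : ℂ := (Nat.card (gpi M ρ).ker : ℂ)⁻¹ * gc M ρ E x.out

lemma gh_mk (E : G → ℂ) (γ : Gam M ρ) :
    gh M ρ E (QuotientGroup.mk γ) = (Nat.card (gpi M ρ).ker : ℂ)⁻¹ * gc M ρ E γ := by
  unfold gh
  obtain ⟨h, hh⟩ := QuotientGroup.mk_out_eq_mul (gio M ρ).range γ
  obtain ⟨m, hm⟩ := h.2
  rw [hh, ← hm, gc_gio]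

lemma card_ker_mk : Nat.card (QuotientGroup.mk' (gio M ρ).range).ker = Nat.card M := by
  rw [QuotientGroup.ker_mk']
  refine (Nat.card_congr (MonoidHom.ofInjective (f := gio M ρ) ?_).toEquiv).symm
  intro a b h
  have h1 := congrArg (gpi M ρ) h
  rw [gpi_gio, gpi_gio] at h1
  exact Subtype.ext h1

include hr

/-- the order of an element of Fong's quotient group -/
lemma gq_order {O : ValuationSubring ℂ} {p : ℕ} [hp : Fact p.Prime]
    (hpO : (p : ℂ) ∈ O.nonunits) (hMp : ¬ p ∣ Nat.card M) (γ : Gam M ρ)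
    (h : p ∣ orderOf (QuotientGroup.mk γ : GQ M ρ)) : p ∣ orderOf (gpi M ρ γ) := by
  have hn : ¬ p ∣ Module.finrank ℂ V :=
    deg_prime hpO hMp (χ := ρ.character) ⟨V, _, _, inferInstance, ρ, hr, rfl⟩ ρ.char_one.symm
  by_contra hcon
  have h1 : gpi M ρ (γ ^ orderOf (gpi M ρ γ)) = 1 := by rw [map_pow, pow_orderOf_eq_one]
  have h2 := ker_pow M ρ hr h1
  rw [← pow_mul] at h2
  have h3 : orderOf (QuotientGroup.mk γ : GQ M ρ) ∣ orderOf γ :=
    orderOf_map_dvd (QuotientGroup.mk' (gio M ρ).range) γ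
  have h4 := (h.trans h3).trans (orderOf_dvd_of_pow_eq_one h2)
  rcases hp.out.dvd_mul.mp h4 with h5 | h5
  · exact hcon h5
  · rcases hp.out.dvd_mul.mp h5 with h6 | h6
    · exact hn h6
    · exact hMp h6

/-- **Fong's second reduction.** -/
theorem fong_int {O : ValuationSubring ℂ} {p : ℕ} [hp : Fact p.Prime]
    (hpO : (p : ℂ) ∈ O.nonunits) (hMp : ¬ p ∣ Nat.card M)
    (hsurj : Function.Surjective (gpi M ρ)) [Fintype (GQ M ρ)] (hHI : HI O p (GQ M ρ))
    {E : G → ℂ} (hE : IsCl E) (hEE : conv E E = E) (hv : ∀ g : G, p ∣ orderOf g → E g = 0)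
    (hEA : conv E (ex M (ec ({ρ.character} : Finset (M → ℂ)))) = E) (g : G) : E g ∈ O := by
  haveI := gam_finite M ρ hr
  haveI := Fintype.ofFinite (Gam M ρ)
  have hM0 : (Nat.card M : ℂ) ≠ 0 := by exact_mod_cast Nat.card_pos.ne'
  have hK0 : (Nat.card (gpi M ρ).ker : ℂ) ≠ 0 := by exact_mod_cast Nat.card_pos.ne'
  have h1 : IsCl (gh M ρ E) := by
    intro x y
    obtain ⟨γ, rfl⟩ := QuotientGroup.mk_surjective x
    obtain ⟨δ, rfl⟩ := QuotientGroup.mk_surjective y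
    rw [← QuotientGroup.mk_inv, ← QuotientGroup.mk_mul, ← QuotientGroup.mk_mul, gh_mk, gh_mk,
      gc_cl M ρ hE]
  have h2 : conv (gh M ρ E) (gh M ρ E) = gh M ρ E := by
    funext x
    obtain ⟨γ, rfl⟩ := QuotientGroup.mk_surjective x
    have h3 := sum_hom (QuotientGroup.mk' (gio M ρ).range) (QuotientGroup.mk'_surjective _)
      (fun y : GQ M ρ => gh M ρ E y * gh M ρ E (y⁻¹ * QuotientGroup.mk γ))
    rw [card_ker_mk] at h3
    have h4 : ∑ a : Gam M ρ, gh M ρ E (QuotientGroup.mk' (gio M ρ).range a) *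
        gh M ρ E ((QuotientGroup.mk' (gio M ρ).range a)⁻¹ * QuotientGroup.mk γ) =
        ((Nat.card (gpi M ρ).ker : ℂ)⁻¹) ^ 2 *
          ∑ a : Gam M ρ, gc M ρ E a * gc M ρ E (a⁻¹ * γ) := by
      rw [Finset.mul_sum]
      refine Finset.sum_congr rfl fun a _ => ?_
      rw [QuotientGroup.mk'_apply, ← QuotientGroup.mk_inv, ← QuotientGroup.mk_mul, gh_mk, gh_mk]
      ring
    rw [h4, gc_idem M ρ hr hsurj hE hEE hEA] at h3
    change ∑ y : GQ M ρ, gh M ρ E y * gh M ρ E (y⁻¹ * QuotientGroup.mk γ) = _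
    rw [gh_mk]
    field_simp at h3
    field_simp
    rw [mul_comm]
    exact h3.symm
  have h3 : ∀ x : GQ M ρ, p ∣ orderOf x → gh M ρ E x = 0 := by
    intro x hx
    obtain ⟨γ, rfl⟩ := QuotientGroup.mk_surjective x
    rw [gh_mk]
    unfold gc
    rw [Finset.sum_eq_zero, mul_zero, mul_zero]
    intro m _
    have h4 : (QuotientGroup.mk (γ * gio M ρ m) : GQ M ρ) = QuotientGroup.mk γ :=
      QuotientGroup.mk_mul_of_mem γ ⟨m, rfl⟩
    have h5 := gq_order M ρ hr hpO hMp (γ * gio M ρ m) (by rw [h4]; exact hx)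
    rw [map_mul, gpi_gio] at h5
    rw [hv _ h5, zero_mul]
  have h4 := hHI (gh M ρ E) h1 h2 h3
  obtain ⟨γ, rfl⟩ := hsurj g
  rw [E_eq M ρ hr hE hEA γ]
  have h5 : gc M ρ E γ ∈ O := by
    have h6 := O.mul_mem _ _ (natCast_mem O (Nat.card (gpi M ρ).ker)) (h4 (QuotientGroup.mk γ))
    rw [gh_mk, ← mul_assoc, mul_inv_cancel₀ hK0, one_mul] at h6
    exact h6
  have h6 : gt M ρ γ⁻¹ ∈ O := mem_of_isIntegral (rep_char_int (gop M ρ) γ⁻¹)
  rw [div_eq_mul_inv]
  exact O.mul_mem _ _ (O.mul_mem _ _ (natCast_mem O _) (nat_inv_mem hpO hMp))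
    (O.mul_mem _ _ h5 h6)

end Run7.h179
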