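import Mathlib
import Pool.Agent.Run7.h179.Fg3

/-!
Group theory for the minimal counterexample.
-/

set_option autoImplicit false
set_option linter.style.haveILetI false
set_option linter.unusedSectionVars false

open scoped BigOperators Classical
open Pool.Agent.Helper884 Pool.Agent.H254R3.IN Pool.Agent.N20

noncomputable section

namespace Run7.h179

section groups

variable {G : Type} [Group G] [Finite G]

/-- `Y` is isomorphic to a section of `G`: a homomorphic image of a subgroup -/
def IsSec (Y G : Type) [Group Y] [Group G] : Prop :=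
  ∃ (H : Subgroup G) (f : H →* Y), Function.Surjective f

lemma isSec_of {Y G A : Type} [Group Y] [Group G] [Group A] (i : A →* G) (f : A →* Y)
    (hf : Function.Surjective f) (hk : i.ker ≤ f.ker) : IsSec Y G := by
  have h1 : Function.Surjective i.rangeRestrict := i.rangeRestrict_surjective
  have h2 : i.rangeRestrict.ker ≤ f.ker := by rw [MonoidHom.ker_rangeRestrict]; exact hk
  refine ⟨i.range, (i.rangeRestrict.liftOfRightInverse (Function.surjInv h1)
    (Function.rightInverse_surjInv h1)) ⟨f, h2⟩, fun y => ?_⟩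
  obtain ⟨a, rfl⟩ := hf y
  exact ⟨i.rangeRestrict a, MonoidHom.liftOfRightInverse_comp_apply _ _ _ _ _⟩

lemma isSec_sub {Y : Type} [Group Y] {N : Subgroup G} (h : IsSec Y N) : IsSec Y G := by
  obtain ⟨H, f, hf⟩ := h
  refine isSec_of (N.subtype.comp H.subtype) f hf ?_
  intro a ha
  have h1 : a = 1 := by
    apply Subtype.ext
    apply Subtype.ext
    exact ha
  rw [h1]
  exact f.ker.one_mem

lemma isSec_quot {Y : Type} [Group Y] (Q : Subgroup G) [Q.Normal] (h : IsSec Y (G ⧸ Q)) :
    IsSec Y G := by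
  obtain ⟨H, f, hf⟩ := h
  let q : (H.comap (QuotientGroup.mk' Q)) →* H := (QuotientGroup.mk' Q).subgroupComap H
  have hq : Function.Surjective q := by
    rintro ⟨x, hx⟩
    obtain ⟨g, rfl⟩ := QuotientGroup.mk_surjective x
    exact ⟨⟨g, hx⟩, rfl⟩
  refine isSec_of (H.comap (QuotientGroup.mk' Q)).subtype (f.comp q) (hf.comp hq) ?_
  rw [Subgroup.ker_subtype]
  exact bot_le

lemma isSec_self (Q : Subgroup G) [Q.Normal] : IsSec (G ⧸ Q) G := by
  refine isSec_of (MonoidHom.id G) (QuotientGroup.mk' Q) (QuotientGroup.mk'_surjective Q) ?_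
  rw [MonoidHom.ker_id]
  exact bot_le

lemma index_center_sub (N : Subgroup G) :
    (Subgroup.center N).index ≤ (Subgroup.center G).index := by
  have h1 : (Subgroup.center G).subgroupOf N ≤ Subgroup.center N := by
    intro n hn
    rw [Subgroup.mem_center_iff]
    intro m
    apply Subtype.ext
    exact Subgroup.mem_center_iff.mp hn (m : G)
  have h2 : (Subgroup.center N).index ≤ ((Subgroup.center G).subgroupOf N).index :=
    Subgroup.index_antitone h1
  refine h2.trans ?_
  exact Nat.le_of_dvd (Nat.pos_of_ne_zero Subgroup.index_ne_zero_of_finite)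
    (Subgroup.relIndex_dvd_index_of_normal _ _)

lemma index_center_quot (Q : Subgroup G) [Q.Normal] :
    (Subgroup.center (G ⧸ Q)).index ≤ (Subgroup.center G).index := by
  rw [← Subgroup.index_comap_of_surjective (Subgroup.center (G ⧸ Q))
    (QuotientGroup.mk'_surjective Q)]
  apply Subgroup.index_antitone
  intro g hg
  rw [Subgroup.mem_comap, Subgroup.mem_center_iff]
  intro x
  obtain ⟨y, rfl⟩ := QuotientGroup.mk_surjective x
  rw [QuotientGroup.mk'_apply, ← QuotientGroup.mk_mul, ← QuotientGroup.mk_mul,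
    Subgroup.mem_center_iff.mp hg y]

lemma card_quot_lt (Q : Subgroup G) [Q.Normal] (hQ : Q ≠ ⊥) : Nat.card (G ⧸ Q) < Nat.card G := by
  have h1 := Subgroup.card_eq_card_quotient_mul_card_subgroup Q
  have h2 : 1 < Nat.card Q := by
    rw [Subgroup.one_lt_card_iff_ne_bot]
    exact hQ
  have h3 : 0 < Nat.card (G ⧸ Q) := Nat.card_pos
  rw [h1]
  exact (Nat.lt_mul_iff_one_lt_right h3).mpr h2

lemma card_sub_lt (N : Subgroup G) (hN : N ≠ ⊤) : Nat.card N < Nat.card G := by
  have h1 := Subgroup.card_mul_index N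
  have h2 : 1 < N.index := by
    have h3 : N.index ≠ 1 := fun h => hN (Subgroup.index_eq_one.mp h)
    have h4 : N.index ≠ 0 := Subgroup.index_ne_zero_of_finite
    omega
  have h3 : 0 < Nat.card N := Nat.card_pos
  rw [← h1]
  exact (Nat.lt_mul_iff_one_lt_right h3).mpr h2

/-- no normal `p`-subgroup, normal `p'`-subgroups central: the center of `G / Z(G)` is trivial -/
lemma center_quot_bot {p : ℕ} [hp : Fact p.Prime]
    (h1 : ∀ Q : Subgroup G, Q.Normal → IsPGroup p Q → Q = ⊥)
    (h2 : ∀ M : Subgroup G, M.Normal → ¬ p ∣ Nat.card M → M ≤ Subgroup.center G) :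
    Subgroup.center (G ⧸ Subgroup.center G) = ⊥ := by
  set Z := Subgroup.center G with hZ
  set Z2 : Subgroup G := (Subgroup.center (G ⧸ Z)).comap (QuotientGroup.mk' Z) with hZ2
  have hZ2n : Z2.Normal := by rw [hZ2]; infer_instance
  -- commutators with elements of `Z2` are central
  have hcomm : ∀ x ∈ Z2, ∀ g : G, x * g * x⁻¹ * g⁻¹ ∈ Z := by
    intro x hx g
    rw [hZ2, Subgroup.mem_comap, Subgroup.mem_center_iff] at hx
    have h3 := hx (QuotientGroup.mk' Z g)
    rw [← QuotientGroup.eq_one_iff]
    have h4 : ((x * g * x⁻¹ * g⁻¹ : G) : G ⧸ Z) =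
      QuotientGroup.mk' Z x * QuotientGroup.mk' Z g * (QuotientGroup.mk' Z x)⁻¹ *
        (QuotientGroup.mk' Z g)⁻¹ := rfl
    rw [h4, ← h3]
    group
  -- the center has no element of order `p`
  have hZp : ¬ p ∣ Nat.card Z := by
    intro hdvd
    obtain ⟨z, hz⟩ := exists_prime_orderOf_dvd_card' p hdvd
    have h3 : Subgroup.zpowers (z : G) = ⊥ := by
      apply h1
      · constructor
        rintro n hn g
        have h4 : n ∈ Z := by
          obtain ⟨k, rfl⟩ := Subgroup.mem_zpowers_iff.mp hn
          exact Z.zpow_mem z.2 k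
        rw [Subgroup.mem_center_iff.mp h4 g, mul_inv_cancel_right]
        exact hn
      · apply IsPGroup.of_card (n := 1)
        rw [Nat.card_zpowers, Subgroup.orderOf_coe, hz, pow_one]
    rw [Subgroup.zpowers_eq_bot] at h3
    have h4 : z = 1 := Subtype.ext h3
    rw [h4, orderOf_one] at hz
    exact hp.out.one_lt.ne hz
  -- `Z2` has no element of order `p`
  have hZ2p : ¬ p ∣ Nat.card Z2 := by
    intro hdvd
    obtain ⟨x, hx⟩ := exists_prime_orderOf_dvd_card' p hdvd
    have hxp : (x : G) ^ p = 1 := by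
      rw [← hx, ← Subgroup.orderOf_coe, pow_orderOf_eq_one]
    have h3 : (x : G) ∈ Z := by
      rw [Subgroup.mem_center_iff]
      intro g
      have h4 := hcomm x x.2 g
      set cm : G := (x : G) * g * (x : G)⁻¹ * g⁻¹ with hcm
      -- `[x, g]` commutes with `x`
      have h5 : ∀ n : ℕ, (g * (x : G) * g⁻¹) ^ n = (cm⁻¹) ^ n * (x : G) ^ n := by
        intro n
        have h6 : g * (x : G) * g⁻¹ = cm⁻¹ * x := by
          rw [hcm]
          group
        rw [h6]
        refine Commute.mul_pow ?_ n
        exact (Subgroup.mem_center_iff.mp (Z.inv_mem h4) x).symm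
      have h6 := h5 p
      rw [hxp, mul_one, conj_pow, hxp, mul_one, mul_inv_cancel] at h6
      have h7 : (⟨cm⁻¹, Z.inv_mem h4⟩ : Z) ^ p = 1 := by
        apply Subtype.ext
        exact h6.symm
      have h8 : orderOf (⟨cm⁻¹, Z.inv_mem h4⟩ : Z) = 1 := by
        rcases (Nat.dvd_prime hp.out).mp (orderOf_dvd_of_pow_eq_one h7) with h9 | h9
        · exact h9
        · exfalso
          apply hZp
          rw [← h9]
          exact orderOf_dvd_natCard _
      rw [orderOf_eq_one_iff] at h8
      have h9 : cm⁻¹ = 1 := congrArg Subtype.val h8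
      rw [inv_eq_one, hcm, mul_inv_eq_one, mul_inv_eq_iff_eq_mul] at h9
      exact h9.symm
    apply hZp
    have h4 : orderOf (⟨(x : G), h3⟩ : Z) = p := by
      rw [Subgroup.orderOf_mk, Subgroup.orderOf_coe, hx]
    rw [← h4]
    exact orderOf_dvd_natCard _
  have h3 := h2 Z2 hZ2n hZ2p
  rw [eq_bot_iff]
  intro y hy
  obtain ⟨g, rfl⟩ := QuotientGroup.mk_surjective y
  rw [Subgroup.mem_bot, QuotientGroup.eq_one_iff]
  exact h3 hy

end groups

end Run7.h179
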