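import Mathlib
import Pool.Agent.Run7.h179.Min1

/-!
Index and sections for Fong's group; quotients by the kernel of a central character.
-/

set_option autoImplicit false
set_option linter.style.haveILetI false
set_option linter.unusedSectionVars false

open scoped BigOperators Classical
open Pool.Agent.Helper884 Pool.Agent.H254R3.IN Pool.Agent.N20

noncomputable section

namespace Run7.h179

section fong

variable {G : Type} [Group G] [Finite G] (M : Subgroup G) [hM : M.Normal]
  {V : Type} [AddCommGroup V] [Module ℂ V] [FiniteDimensional ℂ V] (ρ : Representation ℂ M V)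
  (hr : ρ.IsIrreducible)

include hr in
/-- elements over the center are central -/
lemma gam_central {γ : Gam M ρ} (hγ : gpi M ρ γ ∈ Subgroup.center G) (δ : Gam M ρ) :
    δ * γ = γ * δ := by
  obtain ⟨c, hc⟩ := schur ρ hr (gop M ρ γ) (by
    intro m v
    have h1 := gop_conj M ρ γ m
    have h2 : MulAut.conjNormal (gpi M ρ γ) m = m := by
      apply Subtype.ext
      rw [MulAut.conjNormal_apply, ← Subgroup.mem_center_iff.mp hγ (m : G), mul_inv_cancel_right]
    rw [h2] at h1
    rw [← Module.End.mul_apply, ← Module.End.mul_apply, h1])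
  have hc' : gop M ρ γ = c • (1 : Module.End ℂ V) := hc
  apply gam_ext
  · rw [map_mul, map_mul]
    exact Subgroup.mem_center_iff.mp hγ _
  · rw [map_mul, map_mul, hc', mul_smul_comm, smul_mul_assoc, mul_one, one_mul]

include hr in
/-- the index of the center decreases -/
lemma gq_index (hsurj : Function.Surjective (gpi M ρ)) (hMZ : ¬ M ≤ Subgroup.center G) :
    (Subgroup.center (GQ M ρ)).index < (Subgroup.center G).index := by
  haveI := gam_finite M ρ hr
  have h1 : (Subgroup.center G ⊔ M).comap (gpi M ρ) ≤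
      (Subgroup.center (GQ M ρ)).comap (QuotientGroup.mk' (gio M ρ).range) := by
    intro γ hγ
    rw [Subgroup.mem_comap, Subgroup.mem_sup_of_normal_right] at hγ
    obtain ⟨z, hz, m, hm, hzm⟩ := hγ
    set γ' : Gam M ρ := γ * (gio M ρ ⟨m, hm⟩)⁻¹ with hγ'
    have h2 : gpi M ρ γ' = z := by
      rw [hγ', map_mul, map_inv, gpi_gio, ← hzm, mul_inv_cancel_right]
    have h3 : (QuotientGroup.mk γ : GQ M ρ) = QuotientGroup.mk γ' := by
      rw [hγ']
      exact (QuotientGroup.mk_mul_of_mem γ ((gio M ρ).range.inv_mem ⟨_, rfl⟩)).symm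
    rw [Subgroup.mem_comap, Subgroup.mem_center_iff]
    intro x
    obtain ⟨δ, rfl⟩ := QuotientGroup.mk_surjective x
    rw [QuotientGroup.mk'_apply, h3, ← QuotientGroup.mk_mul, ← QuotientGroup.mk_mul,
      gam_central M ρ hr (by rw [h2]; exact hz) δ]
  rw [← Subgroup.index_comap_of_surjective (Subgroup.center (GQ M ρ))
    (QuotientGroup.mk'_surjective (gio M ρ).range)]
  refine (Subgroup.index_antitone h1).trans_lt ?_
  rw [Subgroup.index_comap_of_surjective _ hsurj]
  apply Subgroup.index_strictAnti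
  refine lt_of_le_of_ne le_sup_left fun h => hMZ ?_
  rw [h]
  exact le_sup_right

include hr in
/-- sections of Fong's group with trivial center are sections of the group -/
lemma gq_sec {Y : Type} [Group Y] (hY : Subgroup.center Y = ⊥) (h : IsSec Y (GQ M ρ)) :
    IsSec Y G := by
  obtain ⟨H, f, hf⟩ := h
  let mk := QuotientGroup.mk' (gio M ρ).range
  let q : (H.comap mk) →* H := mk.subgroupComap H
  have hq : Function.Surjective q := by
    rintro ⟨x, hx⟩
    obtain ⟨g, rfl⟩ := QuotientGroup.mk_surjective x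
    exact ⟨⟨g, hx⟩, rfl⟩
  refine isSec_of ((gpi M ρ).comp (H.comap mk).subtype) (f.comp q) (hf.comp hq) ?_
  intro γ hγ
  have h1 : gpi M ρ (γ : Gam M ρ) = 1 := hγ
  rw [MonoidHom.mem_ker, MonoidHom.comp_apply]
  have h2 : f (q γ) ∈ Subgroup.center Y := by
    rw [Subgroup.mem_center_iff]
    intro y
    obtain ⟨a, rfl⟩ := hf y
    obtain ⟨δ, rfl⟩ := hq a
    rw [← map_mul, ← map_mul, ← map_mul, ← map_mul]
    congr 2
    apply Subtype.ext
    exact ker_central M ρ hr h1 (δ : Gam M ρ)
  rw [hY] at h2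
  exact h2

end fong

section kernel

variable {G : Type} [Group G] [Fintype G]

/-- idempotents that are constant on the cosets of a normal `p'`-subgroup -/
theorem quot_int {O : ValuationSubring ℂ} {p : ℕ} [hp : Fact p.Prime]
    (hpO : (p : ℂ) ∈ O.nonunits) (K : Subgroup G) [hK : K.Normal] (hKp : ¬ p ∣ Nat.card K)
    [Fintype (G ⧸ K)] (hHI : HI O p (G ⧸ K)) {E : G → ℂ} (hE : IsCl E) (hEE : conv E E = E)
    (hv : ∀ g : G, p ∣ orderOf g → E g = 0) (hEK : ∀ g : G, ∀ k ∈ K, E (g * k) = E g) (g : G) :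
    E g ∈ O := by
  have hK0 : (Nat.card K : ℂ) ≠ 0 := by exact_mod_cast Nat.card_pos.ne'
  set F : G ⧸ K → ℂ := fun x => (Nat.card K : ℂ) * E x.out with hF
  have hmk : ∀ g : G, F (QuotientGroup.mk g) = (Nat.card K : ℂ) * E g := by
    intro g
    obtain ⟨k, hk⟩ := QuotientGroup.mk_out_eq_mul K g
    rw [hF]
    simp only [hk]
    rw [hEK g k k.2]
  have h1 : IsCl F := by
    intro x y
    obtain ⟨a, rfl⟩ := QuotientGroup.mk_surjective x
    obtain ⟨b, rfl⟩ := QuotientGroup.mk_surjective y
    rw [← QuotientGroup.mk_inv, ← QuotientGroup.mk_mul, ← QuotientGroup.mk_mul, hmk, hmk, hE]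
  have h2 : conv F F = F := by
    funext x
    obtain ⟨a, rfl⟩ := QuotientGroup.mk_surjective x
    have h3 := sum_hom (QuotientGroup.mk' K) (QuotientGroup.mk'_surjective _)
      (fun y : G ⧸ K => F y * F (y⁻¹ * QuotientGroup.mk a))
    rw [QuotientGroup.ker_mk'] at h3
    have h4 : ∑ b : G, F (QuotientGroup.mk' K b) *
        F ((QuotientGroup.mk' K b)⁻¹ * QuotientGroup.mk a) = (Nat.card K : ℂ) ^ 2 * E a := by
      have h5 := congrFun hEE a
      rw [← h5]
      unfold conv
      rw [Finset.mul_sum]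
      refine Finset.sum_congr rfl fun b _ => ?_
      rw [QuotientGroup.mk'_apply, ← QuotientGroup.mk_inv, ← QuotientGroup.mk_mul, hmk, hmk]
      ring
    rw [h4] at h3
    change ∑ y : G ⧸ K, F y * F (y⁻¹ * QuotientGroup.mk a) = _
    rw [hmk]
    apply mul_left_cancel₀ hK0
    rw [← h3]
    ring
  have h3 : ∀ x : G ⧸ K, p ∣ orderOf x → F x = 0 := by
    intro x hx
    obtain ⟨a, rfl⟩ := QuotientGroup.mk_surjective x
    rw [hmk, hv a, mul_zero]
    exact hx.trans (orderOf_map_dvd (QuotientGroup.mk' K) a)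
  have h4 := O.mul_mem _ _ (nat_inv_mem hpO hKp) (hHI F h1 h2 h3 (QuotientGroup.mk g))
  rwa [hmk, ← mul_assoc, inv_mul_cancel₀ hK0, one_mul] at h4

/-- the part over a character is constant on the cosets of the kernel -/
lemma conv_ker (M : Subgroup G) [Fintype M] {V : Type} [AddCommGroup V] [Module ℂ V]
    [FiniteDimensional ℂ V] (ρ : Representation ℂ M V) {E : G → ℂ}
    (hEA : conv E (ex M (ec ({ρ.character} : Finset (M → ℂ)))) = E) (g : G) (k : M)
    (hk : ρ k = 1) : E (g * k) = E g := by
  conv_lhs => rw [← hEA]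
  conv_rhs => rw [← hEA]
  unfold conv
  refine Finset.sum_congr rfl fun x _ => ?_
  congr 1
  have h1 : x⁻¹ * (g * (k : G)) = x⁻¹ * g * k := by group
  rw [h1]
  by_cases h : x⁻¹ * g ∈ M
  · have h2 : x⁻¹ * g * (k : G) ∈ M := M.mul_mem h k.2
    rw [ex_mem _ h, ex_mem _ h2]
    unfold ec SJ
    rw [Finset.sum_singleton, Finset.sum_singleton]
    congr 2
    have h3 : (⟨x⁻¹ * g * (k : G), h2⟩ : M)⁻¹ = k⁻¹ * (⟨x⁻¹ * g, h⟩ : M)⁻¹ := by
      rw [← mul_inv_rev]
      rfl
    have h4 : ρ k⁻¹ = 1 := by
      have h5 : ρ k⁻¹ * ρ k = 1 := by rw [← map_mul, inv_mul_cancel, map_one]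
      rwa [hk, mul_one] at h5
    rw [h3]
    unfold Representation.character
    rw [map_mul, h4, one_mul]
  · have h2 : x⁻¹ * g * (k : G) ∉ M := by
      intro h'
      apply h
      have := M.mul_mem h' (M.inv_mem k.2)
      rwa [mul_inv_cancel_right] at this
    rw [ex_not _ h, ex_not _ h2]

/-- an abelian group with a faithful irreducible representation is cyclic -/
lemma cyclic_of_faithful {M : Type} [Group M] [Finite M] (hc : ∀ a b : M, a * b = b * a)
    {V : Type} [AddCommGroup V] [Module ℂ V] [FiniteDimensional ℂ V] (ρ : Representation ℂ M V)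
    (hr : ρ.IsIrreducible) (hf : ∀ m, ρ m = 1 → m = 1) : IsCyclic M := by
  haveI := irr_nontrivial ρ hr
  choose c hcρ using fun m : M => schur ρ hr (ρ m) (by
    intro h v
    rw [← Module.End.mul_apply, ← Module.End.mul_apply, ← map_mul, ← map_mul, hc])
  let f : M →* ℂ :=
    { toFun := c
      map_one' := by
        apply scalar_inj (V := V)
        rw [← hcρ, map_one, one_smul]
        rfl
      map_mul' := by
        intro a b
        apply scalar_inj (V := V)
        rw [← hcρ, map_mul, hcρ a, hcρ b]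
        ext v
        simp only [Module.End.mul_apply, LinearMap.smul_apply, LinearMap.id_apply, map_smul,
          mul_smul]
        rw [smul_comm] }
  refine isCyclic_of_injective_ringHom f ?_
  intro a b hab
  have h1 : ρ (a * b⁻¹) = 1 := by
    have h2 : ρ a = ρ b := by
      rw [hcρ a, hcρ b]
      congr 1
    rw [map_mul, h2, ← map_mul, mul_inv_cancel, map_one]
  have h2 := hf _ h1
  exact mul_inv_eq_one.mp h2

end kernel

end Run7.h179
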