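import Mathlib
import Pool.Agent.Run7.h179.Min2

/-!
Direct and central products.
-/

set_option autoImplicit false
set_option linter.style.haveILetI false
set_option linter.unusedSectionVars false

open scoped BigOperators Classical
open Pool.Agent.Helper884 Pool.Agent.H254R3.IN Pool.Agent.N20

noncomputable section

namespace Run7.h179

/-- a class function is the sum of its components -/
lemma expand_ec {G : Type} [Group G] [Fintype G] {f : G → ℂ} (hf : IsCl f) (g : G) :
    f g = ∑ θ ∈ IC.Irr G, Om f θ * ec ({θ} : Finset (G → ℂ)) g := by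
  have hi : ∀ θ ∈ IC.Irr G, ∀ φ ∈ ({θ} : Finset (G → ℂ)), IsIrr φ := by
    intro θ hθ φ hφ
    rw [Finset.mem_singleton.mp hφ]
    exact mem_Irr.mp hθ
  have key : f = fun g => ∑ θ ∈ IC.Irr G, Om f θ * ec ({θ} : Finset (G → ℂ)) g := by
    refine eq_of_Om hf ?_ fun χ hχ => ?_
    · intro g y
      refine Finset.sum_congr rfl fun θ hθ => ?_
      rw [ec_cl (hi θ hθ)]
    · have h1 : Om (fun g => ∑ θ ∈ IC.Irr G, Om f θ * ec ({θ} : Finset (G → ℂ)) g) χ =
          ∑ θ ∈ IC.Irr G, Om f θ * Om (ec ({θ} : Finset (G → ℂ))) χ := by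
        have h2 : ∑ g : G, (∑ θ ∈ IC.Irr G, Om f θ * ec ({θ} : Finset (G → ℂ)) g) * χ g =
            ∑ θ ∈ IC.Irr G, Om f θ * ∑ g : G, ec ({θ} : Finset (G → ℂ)) g * χ g := by
          simp_rw [Finset.sum_mul]
          rw [Finset.sum_comm]
          refine Finset.sum_congr rfl fun θ _ => ?_
          rw [Finset.mul_sum]
          exact Finset.sum_congr rfl fun g _ => by ring
        have h3 : ∀ θ : G → ℂ, Om (ec ({θ} : Finset (G → ℂ))) χ =
            (∑ g : G, ec ({θ} : Finset (G → ℂ)) g * χ g) / χ 1 := fun _ => rfl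
        have h4 : Om (fun g => ∑ θ ∈ IC.Irr G, Om f θ * ec ({θ} : Finset (G → ℂ)) g) χ =
            (∑ g : G, (∑ θ ∈ IC.Irr G, Om f θ * ec ({θ} : Finset (G → ℂ)) g) * χ g) / χ 1 := rfl
        rw [h4, h2, Finset.sum_div]
        refine Finset.sum_congr rfl fun θ _ => ?_
        rw [h3, mul_div_assoc]
      rw [h1, Finset.sum_eq_single χ]
      · rw [Om_ec (hi χ (mem_Irr.mpr hχ)) hχ, if_pos (Finset.mem_singleton_self χ), mul_one]
      · intro θ hθ hne
        rw [Om_ec (hi θ hθ) hχ, if_neg (fun h => hne (Finset.mem_singleton.mp h).symm), mul_zero]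
      · intro h
        exact absurd (mem_Irr.mpr hχ) h
  conv_lhs => rw [key]

section prod

variable {A B : Type} [Group A] [Group B] [Fintype A] [Fintype B]

/-- evaluating the second factor in an irreducible character -/
def psiL (E : A × B → ℂ) (θ : B → ℂ) (a : A) : ℂ := Om (fun b => E (a, b)) θ

lemma sliceL_cl {E : A × B → ℂ} (hE : IsCl E) (a : A) : IsCl (fun b => E (a, b)) := by
  intro b y
  have := hE (a, b) (1, y)
  simpa using this

lemma psiL_cl {E : A × B → ℂ} (hE : IsCl E) (θ : B → ℂ) : IsCl (psiL E θ) := by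
  intro a y
  unfold psiL
  congr 1
  funext b
  have := hE (a, b) (y, 1)
  simpa using this

lemma psiL_conv {E : A × B → ℂ} (hE : IsCl E) (hEE : conv E E = E) {θ : B → ℂ}
    (hθ : IsIrr θ) : conv (psiL E θ) (psiL E θ) = psiL E θ := by
  funext a
  have h1 : ∀ b : B, E (a, b) = ∑ x : A, conv (fun b => E (x, b)) (fun b => E (x⁻¹ * a, b)) b := by
    intro b
    conv_lhs => rw [← hEE]
    unfold conv
    rw [Fintype.sum_prod_type]
    refine Finset.sum_congr rfl fun x _ => Finset.sum_congr rfl fun y _ => ?_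
    simp
  have h2 : psiL E θ a = ∑ x : A, Om (conv (fun b => E (x, b)) (fun b => E (x⁻¹ * a, b))) θ := by
    unfold psiL Om
    rw [← Finset.sum_div]
    congr 1
    rw [Finset.sum_comm]
    refine Finset.sum_congr rfl fun b _ => ?_
    simp only []
    rw [h1 b, Finset.sum_mul]
  rw [h2]
  unfold conv
  refine Finset.sum_congr rfl fun x _ => ?_
  exact (Om_conv hθ (sliceL_cl hE x) (sliceL_cl hE (x⁻¹ * a))).symm

lemma psiL_van {p : ℕ} {E : A × B → ℂ} (hv : ∀ g : A × B, p ∣ orderOf g → E g = 0) (θ : B → ℂ)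
    (a : A) (ha : p ∣ orderOf a) : psiL E θ a = 0 := by
  unfold psiL Om
  rw [Finset.sum_eq_zero, zero_div]
  intro b _
  simp only []
  rw [hv (a, b), zero_mul]
  rw [Prod.orderOf]
  exact ha.trans (Nat.dvd_lcm_left _ _)

/-- Harada's conjecture for direct products -/
theorem HI_prod {O : ValuationSubring ℂ} {p : ℕ}
    (hA : HI O p A) (hB : HI O p B) : HI O p (A × B) := by
  intro E hE hEE hv
  -- the swapped function
  set E' : B × A → ℂ := fun x => E x.swap with hE'
  have hE'cl : IsCl E' := by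
    intro x y
    have := hE x.swap y.swap
    exact this
  have hE'E' : conv E' E' = E' := by
    funext x
    have h1 := congrFun hEE x.swap
    change _ = E x.swap
    rw [← h1]
    unfold conv
    exact Fintype.sum_equiv (Equiv.prodComm B A) _ _ fun y => rfl
  have hE'v : ∀ g : B × A, p ∣ orderOf g → E' g = 0 := by
    intro g hg
    refine hv g.swap ?_
    have : orderOf g.swap = orderOf g := by
      rw [Prod.orderOf, Prod.orderOf, Nat.lcm_comm]
      rfl
    rwa [this]
  have hFO : ∀ θ : B → ℂ, IsIrr θ → ∀ a, psiL E θ a ∈ O := fun θ hθ =>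
    hA _ (psiL_cl hE θ) (psiL_conv hE hEE hθ) (fun a ha => psiL_van hv θ a ha)
  have hGO : ∀ η : A → ℂ, IsIrr η → ∀ b, psiL E' η b ∈ O := fun η hη =>
    hB _ (psiL_cl hE'cl η) (psiL_conv hE'cl hE'E' hη) (fun b hb => psiL_van hE'v η b hb)
  have heps : ∀ (θ : B → ℂ) (η : A → ℂ), Om (psiL E θ) η = Om (psiL E' η) θ := by
    intro θ η
    unfold psiL Om
    rw [hE']
    simp only [Finset.sum_mul, Finset.sum_div, Prod.swap_prod_mk, div_mul_eq_mul_div]
    rw [Finset.sum_comm]
    refine Finset.sum_congr rfl fun b _ => Finset.sum_congr rfl fun a _ => ?_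
    ring
  -- constancy on blocks
  have hconst : ∀ b : Set (B → ℂ), IsBlock O b → ∀ θ ∈ b, ∀ θ' ∈ b, psiL E θ = psiL E θ' := by
    intro b hb θ hθ θ' hθ'
    refine eq_of_Om (psiL_cl hE θ) (psiL_cl hE θ') fun η hη => ?_
    rw [heps, heps]
    obtain ⟨H, hHi, hHe, hH⟩ := exists_union (psiL_cl hE'cl η) (psiL_conv hE'cl hE'E' hη)
      (hGO η hη)
    rw [← hHe, Om_ec hHi (hb.irr θ hθ), Om_ec hHi (hb.irr θ' hθ')]
    have h1 : θ ∈ H ↔ θ' ∈ H := ⟨fun h => hH b hb ⟨θ, hθ, h⟩ θ' hθ',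
      fun h => hH b hb ⟨θ', hθ', h⟩ θ hθ⟩
    simp only [h1]
  have key : ∀ I : Finset (B → ℂ), (∀ χ ∈ I, IsIrr χ) →
      (∀ b : Set (B → ℂ), IsBlock O b → (∃ η ∈ b, η ∈ I) → ∀ η ∈ b, η ∈ I) →
      ∀ (a : A) (y : B), ∑ θ ∈ I, psiL E θ a * ec ({θ} : Finset (B → ℂ)) y ∈ O := by
    intro I hIi hI
    induction' hn : I.card using Nat.strong_induction_on with n ih generalizing I
    rcases I.eq_empty_or_nonempty with rfl | ⟨η, hη⟩
    · intro a y
      simp
    · obtain ⟨b, hb, hηb⟩ := exists_block O (hIi η hη)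
      have hbI : ∀ φ ∈ b, φ ∈ I := hI b hb ⟨η, hηb, hη⟩
      have hXI : XB b ⊆ I := fun φ hφ => hbI φ ((mem_XB hb.irr).mp hφ)
      intro a y
      rw [← Finset.sum_sdiff hXI]
      refine O.add_mem _ _ ?_ ?_
      · refine ih (I \ XB b).card ?_ (I \ XB b) (fun χ hχ => hIi χ (Finset.mem_sdiff.mp hχ).1) ?_
          rfl a y
        · rw [← hn]
          refine Finset.card_lt_card (Finset.ssubset_iff_subset_ne.mpr ⟨Finset.sdiff_subset, ?_⟩)
          intro h
          rw [← h] at hη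
          exact (Finset.mem_sdiff.mp hη).2 ((mem_XB hb.irr).mpr hηb)
        · rintro b' hb' ⟨φ, hφb', hφ⟩ ψ hψ
          obtain ⟨hφI, hφb⟩ := Finset.mem_sdiff.mp hφ
          refine Finset.mem_sdiff.mpr ⟨hI b' hb' ⟨φ, hφb', hφI⟩ ψ hψ, fun hψb => hφb ?_⟩
          rw [mem_XB hb.irr] at hψb ⊢
          obtain ⟨χ₀, h0, rfl⟩ := hb
          refine ⟨hb'.irr φ hφb', fun x => ?_⟩
          have h2 := hb'.red_eq hφb' hψ x
          have h3 := hψb.2 x
          have hφi := hb'.irr φ hφb'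
          have hψi := hb'.irr ψ hψ
          rw [← red_eq_iff (hψi.omega_mem O x) (h0.omega_mem O x)] at h3
          rw [← red_eq_iff (hφi.omega_mem O x) (h0.omega_mem O x), h2, h3]
      · have h1 : ∑ θ ∈ XB b, psiL E θ a * ec ({θ} : Finset (B → ℂ)) y =
            psiL E η a * ec (XB b) y := by
          have h2 : ec (XB b) y = ∑ θ ∈ XB b, ec ({θ} : Finset (B → ℂ)) y := by
            unfold ec SJ
            rw [Finset.mul_sum]
            exact Finset.sum_congr rfl fun θ _ => by rw [Finset.sum_singleton]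
          rw [h2, Finset.mul_sum]
          refine Finset.sum_congr rfl fun θ hθ => ?_
          rw [hconst b hb θ ((mem_XB hb.irr).mp hθ) η hηb]
        rw [h1]
        exact O.mul_mem _ _ (hFO η (hIi η hη) a) (ec_block_mem hb y)
  rintro ⟨a, y⟩
  have h1 := key (IC.Irr B) (fun χ hχ => mem_Irr.mp hχ)
    (fun b hb _ η hη => mem_Irr.mpr (hb.irr η hη)) a y
  have h2 := expand_ec (sliceL_cl hE a) y
  have h3 : E (a, y) = ∑ θ ∈ IC.Irr B, psiL E θ a * ec ({θ} : Finset (B → ℂ)) y := h2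
  rw [h3]
  exact h1

end prod

/-- a surjective image with kernel a `p'`-group -/
theorem HI_lift {Y X : Type} [Group Y] [Group X] [Fintype Y] [Fintype X]
    {O : ValuationSubring ℂ} {p : ℕ} [hp : Fact p.Prime] (q : Y →* X)
    (hq : Function.Surjective q) (hk : ¬ p ∣ Nat.card q.ker) (hY : HI O p Y) : HI O p X := by
  intro E hE hEE hv x
  have hK0 : (Nat.card q.ker : ℂ) ≠ 0 := by exact_mod_cast Nat.card_pos.ne'
  set F : Y → ℂ := fun y => (Nat.card q.ker : ℂ)⁻¹ * E (q y) with hF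
  have h1 : IsCl F := by
    intro g y
    rw [hF]
    simp only [map_mul, map_inv]
    rw [hE]
  have h2 : conv F F = F := by
    funext g
    have h3 := sum_hom q hq (fun y => E y * E (y⁻¹ * q g))
    have h4 := congrFun hEE (q g)
    unfold conv at h4
    rw [h4] at h3
    unfold conv
    rw [hF]
    simp only [map_mul, map_inv]
    have h5 : ∑ a : Y, (Nat.card q.ker : ℂ)⁻¹ * E (q a) *
        ((Nat.card q.ker : ℂ)⁻¹ * E ((q a)⁻¹ * q g)) =
        ((Nat.card q.ker : ℂ)⁻¹) ^ 2 * ∑ a : Y, E (q a) * E ((q a)⁻¹ * q g) := by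
      rw [Finset.mul_sum]
      exact Finset.sum_congr rfl fun a _ => by ring
    rw [h5, h3]
    field_simp
  have h3 : ∀ y : Y, p ∣ orderOf y → F y = 0 := by
    intro y hy
    rw [hF]
    simp only []
    rw [hv (q y), mul_zero]
    by_contra hcon
    have h4 : q (y ^ orderOf (q y)) = 1 := by rw [map_pow, pow_orderOf_eq_one]
    have h5 : (y ^ orderOf (q y)) ^ Nat.card q.ker = 1 := by
      have h6 : (⟨y ^ orderOf (q y), h4⟩ : q.ker) ^ Nat.card q.ker = 1 := pow_card_eq_one'
      exact congrArg Subtype.val h6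
    rw [← pow_mul] at h5
    rcases hp.out.dvd_mul.mp (hy.trans (orderOf_dvd_of_pow_eq_one h5)) with h6 | h6
    · exact hcon h6
    · exact hk h6
  obtain ⟨y, rfl⟩ := hq x
  have h4 := O.mul_mem _ _ (natCast_mem O (Nat.card q.ker)) (hY F h1 h2 h3 y)
  rw [hF] at h4
  simp only [] at h4
  rwa [← mul_assoc, mul_inv_cancel₀ hK0, one_mul] at h4

/-- Harada's conjecture for central products -/
theorem HI_central {X : Type} [Group X] [Fintype X] {O : ValuationSubring ℂ} {p : ℕ}
    [hp : Fact p.Prime] (hZ : ¬ p ∣ Nat.card (Subgroup.center X)) (X₁ X₂ : Subgroup X)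
    [Fintype X₁] [Fintype X₂] (hc : ∀ a ∈ X₁, ∀ b ∈ X₂, a * b = b * a) (hs : X₁ ⊔ X₂ = ⊤)
    (h₁ : HI O p X₁) (h₂ : HI O p X₂) : HI O p X := by
  have hcomm : ∀ (a : X₁) (b : X₂), Commute (X₁.subtype a) (X₂.subtype b) := fun a b =>
    hc a a.2 b b.2
  set q : X₁ × X₂ →* X := (X₁.subtype).noncommCoprod (X₂.subtype) hcomm with hq
  have hqa : ∀ a b, q (a, b) = (a : X) * (b : X) := fun a b => rfl
  have hsurj : Function.Surjective q := by
    rw [← MonoidHom.range_eq_top, eq_top_iff, ← hs]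
    refine sup_le ?_ ?_
    · intro a ha
      exact ⟨(⟨a, ha⟩, 1), by rw [hqa]; simp⟩
    · intro b hb
      exact ⟨(1, ⟨b, hb⟩), by rw [hqa]; simp⟩
  refine HI_lift q hsurj ?_ (HI_prod h₁ h₂)
  -- the kernel embeds into the center
  have hcen : ∀ k : q.ker, ((k : X₁ × X₂).1 : X) ∈ Subgroup.center X := by
    rintro ⟨⟨a, b⟩, hk⟩
    have h3 : (a : X) * (b : X) = 1 := by rw [← hqa]; exact hk
    have h4 : (a : X) = (b : X)⁻¹ := eq_inv_of_mul_eq_one_left h3
    rw [Subgroup.mem_center_iff]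
    intro g
    obtain ⟨⟨c, d⟩, rfl⟩ := hsurj g
    rw [hqa]
    change (c : X) * d * a = a * (c * d)
    have h5 : (a : X) * c = c * a := by
      rw [h4]
      have := hc c c.2 (b : X)⁻¹ (X₂.inv_mem b.2)
      exact this.symm
    have h6 : (a : X) * d = d * a := hc a a.2 d d.2
    rw [mul_assoc, ← h6, ← mul_assoc, ← mul_assoc, h5]
  intro hdvd
  apply hZ
  refine hdvd.trans ?_
  let f : q.ker →* Subgroup.center X :=
    { toFun := fun k => ⟨((k : X₁ × X₂).1 : X), hcen k⟩
      map_one' := rfl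
      map_mul' := fun a b => rfl }
  have hf : Function.Injective f := by
    rintro ⟨⟨a, b⟩, hk⟩ ⟨⟨a', b'⟩, hk'⟩ h
    have h3 : (a : X) * (b : X) = 1 := by rw [← hqa]; exact hk
    have h3' : (a' : X) * (b' : X) = 1 := by rw [← hqa]; exact hk'
    have h4 : (a : X) = a' := congrArg (fun z : Subgroup.center X => (z : X)) h
    have h5 : (b : X) = b' := by
      rw [h4] at h3
      rw [← mul_left_cancel_iff (a := (a' : X)), h3, h3']
    apply Subtype.ext
    exact Prod.ext (Subtype.ext h4) (Subtype.ext h5)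
  exact Subgroup.card_dvd_of_injective f hf

end Run7.h179
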