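import Mathlib
import Pool.Agent.Run7.h179.Prd

/-!
Multiplication by linear characters.
-/

set_option autoImplicit false
set_option linter.style.haveILetI false
set_option linter.unusedSectionVars false

open scoped BigOperators Classical
open Pool.Agent.Helper884 Pool.Agent.H254R3.IN Pool.Agent.N20

noncomputable section

namespace Run7.h179

variable {G : Type} [Group G] [Fintype G]

/-- multiplication by a linear character -/
def tw (l : G →* ℂˣ) (χ : G → ℂ) (g : G) : ℂ := (l g : ℂ) * χ g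

lemma tw_one (χ : G → ℂ) : tw 1 χ = χ := by
  funext g
  unfold tw
  simp

lemma tw_mul (l m : G →* ℂˣ) (χ : G → ℂ) : tw (l * m) χ = tw l (tw m χ) := by
  funext g
  unfold tw
  simp [mul_assoc]

lemma tw_deg (l : G →* ℂˣ) (χ : G → ℂ) : tw l χ 1 = χ 1 := by
  unfold tw
  simp

lemma tw_inj (l : G →* ℂˣ) : Function.Injective (tw l) := by
  intro χ ψ h
  rw [← tw_one χ, ← tw_one ψ, ← inv_mul_cancel l, tw_mul, tw_mul, h]

lemma tw_irr (l : G →* ℂˣ) {χ : G → ℂ} (hχ : IsIrr χ) : IsIrr (tw l χ) := by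
  obtain ⟨V, _, _, _, ρ, hr, rfl⟩ := hχ
  haveI := irr_nontrivial ρ hr
  let ρ' : Representation ℂ G V :=
    { toFun := fun g => (l g : ℂ) • ρ g
      map_one' := by simp
      map_mul' := by
        intro a b
        rw [map_mul, map_mul, smul_mul_smul_comm]
        rfl }
  refine ⟨V, inferInstance, inferInstance, inferInstance, ρ', ?_, ?_⟩
  · haveI : Nontrivial (Subrepresentation ρ') := by
      refine ⟨⊥, ⊤, ?_⟩
      intro h
      obtain ⟨v, hv⟩ := exists_ne (0 : V)
      have h1 : (⊥ : Submodule ℂ V) = ⊤ := congrArg Subrepresentation.toSubmodule h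
      have h2 : v ∈ (⊥ : Submodule ℂ V) := by rw [h1]; trivial
      exact hv ((Submodule.mem_bot ℂ).mp h2)
    refine ⟨fun S => ?_⟩
    let S' : Subrepresentation ρ := ⟨S.toSubmodule, fun g v hv => by
      have h1 : (l g : ℂ) • ρ g v ∈ S.toSubmodule := S.apply_mem_toSubmodule g hv
      have h2 := S.toSubmodule.smul_mem (l g : ℂ)⁻¹ h1
      rwa [smul_smul, inv_mul_cancel₀ (l g).ne_zero, one_smul] at h2⟩
    rcases hr.eq_bot_or_eq_top S' with h | h
    · left
      apply Subrepresentation.toSubmodule_injective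
      have h1 := congrArg Subrepresentation.toSubmodule h
      exact h1
    · right
      apply Subrepresentation.toSubmodule_injective
      have h1 := congrArg Subrepresentation.toSubmodule h
      exact h1
  · funext g
    change (l g : ℂ) * LinearMap.trace ℂ V (ρ g) = LinearMap.trace ℂ V ((l g : ℂ) • ρ g)
    rw [map_smul, smul_eq_mul]

lemma omega_tw (l : G →* ℂˣ) (χ : G → ℂ) (x : G) :
    omega (tw l χ) x = (l x : ℂ) * omega χ x := by
  unfold omega
  rw [tw_deg]
  unfold tw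
  ring

lemma lin_mem (O : ValuationSubring ℂ) (l : G →* ℂˣ) (x : G) : (l x : ℂ) ∈ O := by
  have h1 := (tw_irr l (χ := fun _ : G => (1 : ℂ)) ?_).val_mem O x
  · unfold tw at h1
    rwa [mul_one] at h1
  · -- the trivial character
    refine ⟨ℂ, inferInstance, inferInstance, inferInstance, Representation.trivial ℂ G ℂ, ?_, ?_⟩
    · haveI : Nontrivial (Subrepresentation (Representation.trivial ℂ G ℂ)) := by
        refine ⟨⊥, ⊤, ?_⟩
        intro h
        have h1 : (⊥ : Submodule ℂ ℂ) = ⊤ := congrArg Subrepresentation.toSubmodule h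
        have h2 : (1 : ℂ) ∈ (⊥ : Submodule ℂ ℂ) := by rw [h1]; trivial
        exact one_ne_zero ((Submodule.mem_bot ℂ).mp h2)
      refine ⟨fun S => ?_⟩
      rcases eq_bot_or_eq_top S.toSubmodule with h | h
      · left
        exact Subrepresentation.toSubmodule_injective h
      · right
        exact Subrepresentation.toSubmodule_injective h
    · funext g
      simp [Representation.character, Representation.trivial]

/-- if one character of a block stays in the block, so do all -/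
lemma tw_block {O : ValuationSubring ℂ} {B : Set (G → ℂ)} (hB : IsBlock O B) (l : G →* ℂˣ)
    {χ : G → ℂ} (hχ : χ ∈ B) (hlχ : tw l χ ∈ B) {ψ : G → ℂ} (hψ : ψ ∈ B) : tw l ψ ∈ B := by
  obtain ⟨χ₀, h0, rfl⟩ := id hB
  have hχi := hB.irr χ hχ
  have hψi := hB.irr ψ hψ
  refine ⟨tw_irr l hψi, fun x => ?_⟩
  have h4 := hlχ.2 x
  rw [← red_eq_iff ((tw_irr l hχi).omega_mem O x) (h0.omega_mem O x)] at h4
  rw [← red_eq_iff ((tw_irr l hψi).omega_mem O x) (h0.omega_mem O x), ← h4, omega_tw, omega_tw,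
    red_mul (lin_mem O l x) (hψi.omega_mem O x), red_mul (lin_mem O l x) (hχi.omega_mem O x),
    hB.red_eq hψ hχ]

/-- powers of a linear character -/
def lp (l : G →* ℂˣ) (i : ℕ) : G →* ℂˣ := (powMonoidHom i).comp l

lemma lp_apply (l : G →* ℂˣ) (i : ℕ) (g : G) : lp l i g = l g ^ i := rfl

lemma lp_zero (l : G →* ℂˣ) : lp l 0 = 1 := by
  ext g
  rw [lp_apply, pow_zero]
  rfl

lemma lp_succ (l : G →* ℂˣ) (i : ℕ) : lp l (i + 1) = lp l i * l := by
  ext g
  rw [lp_apply, pow_succ, MonoidHom.mul_apply, lp_apply]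

lemma lp_add (l : G →* ℂˣ) (i j : ℕ) : lp l (i + j) = lp l i * lp l j := by
  ext g
  rw [lp_apply, pow_add, MonoidHom.mul_apply, lp_apply, lp_apply]

lemma lp_mul (l : G →* ℂˣ) (i j : ℕ) : lp l (i * j) = lp (lp l i) j := by
  ext g
  rw [lp_apply, pow_mul, lp_apply, lp_apply]

/-- **Blocks moved by a linear character of prime order.** -/
theorem tw_har {O : ValuationSubring ℂ} {p : ℕ} [hp : Fact p.Prime]
    {B : Set (G → ℂ)} (hB : IsBlock O B) (l : G →* ℂˣ) (q : ℕ) (hl : q.Prime)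
    (hlq' : ∀ g, l g ^ q = 1)
    [Fintype l.ker] (hHI : HI O p l.ker) {χ₁ : G → ℂ} (hχ₁ : χ₁ ∈ B) (hlχ : tw l χ₁ ∉ B)
    {J : Finset (G → ℂ)} (hJn : J.Nonempty) (hJB : ∀ χ ∈ J, χ ∈ B)
    (hJ : ∀ g : G, p ∣ orderOf g → SJ J g = 0) : ∀ ψ ∈ B, ψ ∈ J := by
  have hJi : ∀ χ ∈ J, IsIrr χ := fun χ hχ => hB.irr χ (hJB χ hχ)
  -- proper powers move `B` off itself
  have hmove : ∀ i : ℕ, ¬ q ∣ i → ∀ χ ∈ B, tw (lp l i) χ ∉ B := by
    intro i hi χ hχ hcon
    have hst : ∀ ψ ∈ B, tw (lp l i) ψ ∈ B := fun ψ hψ => tw_block hB (lp l i) hχ hcon hψ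
    have hst' : ∀ n : ℕ, ∀ ψ ∈ B, tw (lp (lp l i) n) ψ ∈ B := by
      intro n
      induction n with
      | zero =>
        intro ψ hψ
        rw [lp_zero, tw_one]
        exact hψ
      | succ n ih =>
        intro ψ hψ
        rw [lp_succ, tw_mul]
        exact ih _ (hst ψ hψ)
    have hcop : Nat.Coprime i q := ((Nat.Prime.coprime_iff_not_dvd hl).mpr hi).symm
    obtain ⟨j, hj⟩ := Nat.exists_mul_mod_eq_one_of_coprime hcop hl.one_lt
    apply hlχ
    have h1 : lp (lp l i) j = l := by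
      ext g
      rw [lp_apply, lp_apply, ← pow_mul]
      conv_lhs => rw [← Nat.div_add_mod (i * j) q]
      rw [hj.2, pow_add, pow_mul, hlq', one_pow, one_mul, pow_one]
    have h2 := hst' j χ₁ hχ₁
    rwa [h1] at h2
  set K : Finset (G → ℂ) := (Finset.range q).biUnion (fun i => J.image (tw (lp l i))) with hK
  have hKi : ∀ χ ∈ K, IsIrr χ := by
    intro χ hχ
    obtain ⟨i, -, hi⟩ := Finset.mem_biUnion.mp hχ
    obtain ⟨ψ, hψ, rfl⟩ := Finset.mem_image.mp hi
    exact tw_irr _ (hJi ψ hψ)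
  have hdisj : Set.PairwiseDisjoint (↑(Finset.range q)) (fun i => J.image (tw (lp l i))) := by
    intro i hi j hj hij
    have key : ∀ i j : ℕ, i < q → j < q → i < j →
        Disjoint (J.image (tw (lp l i))) (J.image (tw (lp l j))) := by
      intro i j hi hj hlt
      rw [Finset.disjoint_left]
      rintro χ h1 h2
      obtain ⟨ψ, hψ, rfl⟩ := Finset.mem_image.mp h1
      obtain ⟨φ, hφ, h3⟩ := Finset.mem_image.mp h2
      have h4 : lp l j = lp l i * lp l (j - i) := by rw [← lp_add]; congr 1; omega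
      rw [h4, tw_mul] at h3
      have h5 := tw_inj _ h3
      refine hmove (j - i) (fun h => ?_) φ (hJB φ hφ) (by rw [h5]; exact hJB ψ hψ)
      have := Nat.le_of_dvd (by omega) h
      omega
    have hi' := Finset.mem_range.mp (Finset.mem_coe.mp hi)
    have hj' := Finset.mem_range.mp (Finset.mem_coe.mp hj)
    rcases lt_or_gt_of_ne hij with h | h
    · exact key i j hi' hj' h
    · exact (key j i hj' hi' h).symm
  have hKe : ∀ g : G, ec K g = (∑ i ∈ Finset.range q, ((l g⁻¹ : ℂˣ) : ℂ) ^ i) * ec J g := by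
    intro g
    unfold ec SJ
    rw [hK, Finset.sum_biUnion hdisj]
    have h1 : ∀ i ∈ Finset.range q, ∑ χ ∈ J.image (tw (lp l i)), χ 1 * χ g⁻¹ =
        ((l g⁻¹ : ℂˣ) : ℂ) ^ i * ∑ χ ∈ J, χ 1 * χ g⁻¹ := by
      intro i _
      rw [Finset.sum_image (fun a _ b _ h => tw_inj _ h), Finset.mul_sum]
      refine Finset.sum_congr rfl fun χ _ => ?_
      rw [tw_deg]
      unfold tw
      rw [lp_apply, Units.val_pow_eq_pow_val]
      ring
    rw [Finset.sum_congr rfl h1, ← Finset.sum_mul]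
    ring
  have hlq : ∀ g : G, ((l g : ℂˣ) : ℂ) ^ q = 1 := by
    intro g
    rw [← Units.val_pow_eq_pow_val, hlq', Units.val_one]
  have hsupp : ∀ g : G, g ∉ l.ker → ec K g = 0 := by
    intro g hg
    rw [hKe]
    have h1 : ((l g⁻¹ : ℂˣ) : ℂ) ≠ 1 := by
      intro h
      apply hg
      rw [MonoidHom.mem_ker]
      have h2 : l g⁻¹ = 1 := Units.ext h
      rw [map_inv, inv_eq_one] at h2
      exact h2
    have h2 : (∑ i ∈ Finset.range q, ((l g⁻¹ : ℂˣ) : ℂ) ^ i) = 0 := by
      have h3 := geom_sum_mul ((l g⁻¹ : ℂˣ) : ℂ) q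
      rw [hlq, sub_self] at h3
      exact (mul_eq_zero.mp h3).resolve_right (sub_ne_zero.mpr h1)
    rw [h2, zero_mul]
  have hvan : ∀ g : G, p ∣ orderOf g → ec K g = 0 := by
    intro g hg
    rw [hKe, ec_van hJ g hg, mul_zero]
  have hO : ∀ g, ec K g ∈ O := by
    intro g
    by_cases hg : g ∈ l.ker
    · have hex : ex l.ker (fun t : l.ker => ec K t) = ec K := ex_res l.ker hsupp
      have h1 : conv (fun t : l.ker => ec K t) (fun t : l.ker => ec K t) =
          fun t : l.ker => ec K t := by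
        apply ex_inj (N := l.ker)
        rw [← conv_ex, hex, ec_conv hKi]
      refine hHI (fun t : l.ker => ec K t) (fun g y => ec_cl hKi (g : G) (y : G)) h1 ?_ ⟨g, hg⟩
      intro t ht
      refine hvan t ?_
      rw [Subgroup.orderOf_coe]
      exact ht
    · rw [hsupp g hg]
      exact O.zero_mem
  intro ψ hψ
  obtain ⟨χ, hχ⟩ := hJn
  have hχK : χ ∈ K := by
    rw [hK]
    refine Finset.mem_biUnion.mpr ⟨0, Finset.mem_range.mpr hl.pos, ?_⟩
    refine Finset.mem_image.mpr ⟨χ, hχ, ?_⟩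
    rw [lp_zero, tw_one]
  have hψK := union_of_mem hKi hO hB (hJB χ hχ) hψ hχK
  obtain ⟨i, hi, h1⟩ := Finset.mem_biUnion.mp hψK
  obtain ⟨φ, hφ, h2⟩ := Finset.mem_image.mp h1
  by_cases hi0 : i = 0
  · rw [hi0, lp_zero, tw_one] at h2
    rw [← h2]
    exact hφ
  · exfalso
    refine hmove i (fun h => ?_) φ (hJB φ hφ) (by rw [h2]; exact hψ)
    have := Nat.le_of_dvd (Nat.pos_of_ne_zero hi0) h
    have := Finset.mem_range.mp hi
    omega

end Run7.h179
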