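import Mathlib
import Pool.Agent.Run7.h179.Tw

/-!
The structure of a minimal counterexample to Harada's conjecture.
-/

set_option autoImplicit false
set_option linter.style.haveILetI false
set_option linter.unusedSectionVars false

open scoped BigOperators Classical
open Pool.Agent.Helper884 Pool.Agent.H254R3.IN Pool.Agent.N20

noncomputable section

namespace Run7.h179

/-- the properties of a minimal counterexample -/
def Red (p : ℕ) (X : Type) [Group X] [Fintype X] (ψ₀ : X → ℂ) : Prop :=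
  SimpleChar ψ₀ ∧ ¬ HaradaAt p ψ₀ ∧
  (∀ Q : Subgroup X, Q.Normal → IsPGroup p Q → Q = ⊥) ∧
  (∀ M : Subgroup X, M.Normal → ¬ p ∣ Nat.card M → M ≤ Subgroup.center X) ∧
  IsCyclic (Subgroup.center X) ∧
  (∀ N : Subgroup X, (∀ x : X, ¬ p ∣ orderOf x → x ∈ N) → N = ⊤) ∧
  (∀ N : Subgroup X, N.Normal → ∀ χ ∈ Blk p ψ₀, ∀ χ' ∈ Blk p ψ₀, ∀ η η' : N → ℂ,
    SimpleChar η → SimpleChar η' → ∑ᶠ n : N, χ n * η n⁻¹ ≠ 0 → ∑ᶠ n : N, χ' n * η' n⁻¹ ≠ 0 →
    letI := Fintype.ofFinite N; η' ∈ Blk p η) ∧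
  (∀ (l : X →* ℂˣ) (q : ℕ), q.Prime → (∀ x, l x ^ q = 1) → ∀ χ ∈ Blk p ψ₀,
    (fun x => (l x : ℂ) * χ x) ∈ Blk p ψ₀) ∧
  (∀ X₁ X₂ : Subgroup X, (∀ a ∈ X₁, ∀ b ∈ X₂, a * b = b * a) → X₁ ⊔ X₂ = ⊤ →
    X₁ ≤ Subgroup.center X ∨ X₂ ≤ Subgroup.center X)

theorem min_aux {p : ℕ} [hp : Fact p.Prime] {O : ValuationSubring ℂ}
    (hpO : (p : ℂ) ∈ O.nonunits) (a b : ℕ) :
    ∀ (G : Type) [Group G] [Fintype G], (Subgroup.center G).index = a → Nat.card G = b →
      ∀ χ₀ : G → ℂ, SimpleChar χ₀ → ¬ HaradaAt p χ₀ →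
      ∃ (X : Type) (_ : Group X) (_ : Fintype X) (ψ₀ : X → ℂ), Red p X ψ₀ ∧
        IsSec (X ⧸ Subgroup.center X) G := by
  induction' a using Nat.strong_induction_on with a iha generalizing b
  induction' b using Nat.strong_induction_on with b ihb
  intro G _ _ ha hb χ₀ h₀ hnot
  by_contra hno
  push Not at hno
  -- smaller groups
  have small : ∀ (G' : Type) [Group G'] [Fintype G'],
      ((Subgroup.center G').index < a ∨
        ((Subgroup.center G').index ≤ a ∧ Nat.card G' < b)) →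
      (∀ (Y : Type) [Group Y], Subgroup.center Y = ⊥ → IsSec Y G' → IsSec Y G) → HI O p G' := by
    intro G' _ _ hsm htr
    apply HI_of_harada hpO
    intro ψ hψ
    by_contra hnψ
    have key : ∃ (X : Type) (_ : Group X) (_ : Fintype X) (ψ₀ : X → ℂ), Red p X ψ₀ ∧
        IsSec (X ⧸ Subgroup.center X) G' := by
      rcases hsm with h | ⟨h1, h2⟩
      · exact iha _ h _ G' rfl rfl ψ hψ hnψ
      · rcases h1.lt_or_eq with h | h
        · exact iha _ h _ G' rfl rfl ψ hψ hnψ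
        · exact ihb _ h2 G' h rfl ψ hψ hnψ
    obtain ⟨X, _, _, ψ₀, hX, hs⟩ := key
    exact hno X _ _ ψ₀ hX (htr _ (center_quot_bot hX.2.2.1 hX.2.2.2.1) hs)
  have hsub : ∀ (N : Subgroup G) [Fintype N], N ≠ ⊤ → HI O p N := by
    intro N _ hN
    refine small N (Or.inr ⟨?_, ?_⟩) (fun Y _ _ h => isSec_sub h)
    · rw [← ha]
      exact index_center_sub N
    · rw [← hb]
      exact card_sub_lt N hN
  have hquot : ∀ (Q : Subgroup G) [Q.Normal] [Fintype (G ⧸ Q)], Q ≠ ⊥ → HI O p (G ⧸ Q) := by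
    intro Q _ _ hQ
    refine small (G ⧸ Q) (Or.inr ⟨?_, ?_⟩) (fun Y _ _ h => isSec_quot Q h)
    · rw [← ha]
      exact index_center_quot Q
    · rw [← hb]
      exact card_quot_lt Q hQ
  obtain ⟨B, hB, hχ₀⟩ := exists_block O (simple_iff.mp h₀)
  have hBe : Blk p χ₀ = B := blk_eq hpO hB hχ₀
  obtain ⟨J, hJn, hJB, hJ, ψ, hψ, hψJ⟩ : ∃ J : Finset (G → ℂ), J.Nonempty ∧ (∀ χ ∈ J, χ ∈ B) ∧
      (∀ g : G, p ∣ orderOf g → SJ J g = 0) ∧ ∃ ψ ∈ B, ψ ∉ J := by
    unfold HaradaAt at hnot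
    rw [hBe] at hnot
    push Not at hnot
    exact hnot
  have hJi : ∀ χ ∈ J, IsIrr χ := fun χ hχ => hB.irr χ (hJB χ hχ)
  have hcl := ec_cl hJi
  have hcc := ec_conv hJi
  have hvan := ec_van hJ
  have hnO : ∃ g, ec J g ∉ O := by
    by_contra hcon
    push Not at hcon
    obtain ⟨χ, hχ⟩ := hJn
    exact hψJ (union_of_mem hJi hcon hB (hJB χ hχ) hψ hχ)
  -- for each normal subgroup there is a stable block over which the idempotent is not integral
  have hst : ∀ (N : Subgroup G) [N.Normal] [Fintype N], ∃ b : Set (N → ℂ), IsBlock O b ∧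
      stab (ex N (ec (XB b))) = ⊤ ∧ ∃ g, conv (ec J) (ex N (ec (XB b))) g ∉ O := by
    intro N _ _
    by_contra hcon
    push Not at hcon
    obtain ⟨g, hg⟩ := hnO
    refine hg (fr_sum N (fun b hb x => ?_) g)
    by_cases h : stab (ex N (ec (XB b))) = ⊤
    · exact hcon b hb h x
    · haveI := Fintype.ofFinite (stab (ex N (ec (XB b))))
      exact fr_int hpO N hb hcl hcc hvan _ rfl (hsub _ h) x
  have p1 : ∀ Q : Subgroup G, Q.Normal → IsPGroup p Q → Q = ⊥ := by
    intro Q hQn hQ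
    by_contra hQ1
    haveI := Fintype.ofFinite (G ⧸ Q)
    have h1 := hquot Q hQ1
    exact hnot (red_quot hp.out Q hQ h₀ fun η hη _ => harada_of_HI hpO h1 hη)
  -- normal `p'`-subgroups: the idempotent lies over a stable character
  have hover : ∀ (M : Subgroup G) [M.Normal] [Fintype M], ¬ p ∣ Nat.card M →
      ∃ (V : Type) (_ : AddCommGroup V) (_ : Module ℂ V) (_ : FiniteDimensional ℂ V)
        (ρ : Representation ℂ M V) (E : G → ℂ), ρ.IsIrreducible ∧ IsCl E ∧ conv E E = E ∧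
        (∀ g : G, p ∣ orderOf g → E g = 0) ∧
        conv E (ex M (ec ({ρ.character} : Finset (M → ℂ)))) = E ∧ (∃ g, E g ∉ O) ∧
        ∀ (g : G) (m : M), ρ.character (MulAut.conjNormal g m) = ρ.character m := by
    intro M _ _ hMp
    obtain ⟨b, hb, hbs, x, hx⟩ := hst M
    obtain ⟨η, hη⟩ := hb.nonempty
    have hsing := block_single hpO hMp hb hη
    obtain ⟨V, _, _, _, ρ, hr, rfl⟩ := hb.irr η hη
    have hbi : ∀ χ ∈ XB b, IsIrr χ := fun χ hχ => hb.irr χ ((mem_XB hb.irr).mp hχ)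
    have hclA : IsCl (ex M (ec (XB b))) := by
      intro g y
      have : y ∈ stab (ex M (ec (XB b))) := by rw [hbs]; trivial
      exact mem_stab.mp this g
    have hAA : conv (ex M (ec (XB b))) (ex M (ec (XB b))) = ex M (ec (XB b)) := by
      rw [conv_ex, ec_conv hbi]
    refine ⟨V, _, _, inferInstance, ρ, conv (ec J) (ex M (ec (XB b))), hr, hcl.conv hclA, ?_, ?_,
      ?_, ⟨x, hx⟩, ?_⟩
    · rw [conv_assoc, ← conv_assoc (ex M (ec (XB b))) (ec J), ← conv_comm hcl
        (h := ex M (ec (XB b))), conv_assoc (ec J), hAA, ← conv_assoc, hcc]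
    · intro g hg
      exact conv_van hpO hcl hvan hclA hAA (ex_O (ec_block_mem hb)) hg
    · rw [← hsing, conv_assoc, hAA]
    · intro g m
      have h1 : ex M (ec (XB b)) (g * (m⁻¹ : M) * g⁻¹) = ex M (ec (XB b)) (m⁻¹ : M) :=
        hclA (m⁻¹ : M) g
      have h2 : g * ((m⁻¹ : M) : G) * g⁻¹ = ((MulAut.conjNormal g m)⁻¹ : M) := by
        rw [← map_inv, MulAut.conjNormal_apply]
      rw [h2, ex_coe, ex_coe, hsing] at h1
      unfold ec SJ at h1
      rw [Finset.sum_singleton, Finset.sum_singleton, inv_inv, inv_inv] at h1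
      have hM0 : (Nat.card M : ℂ) ≠ 0 := by exact_mod_cast Nat.card_pos.ne'
      have h3 := mul_left_cancel₀ (inv_ne_zero hM0) h1
      exact mul_left_cancel₀ (hb.irr _ hη).one_ne h3
  have p2 : ∀ M : Subgroup G, M.Normal → ¬ p ∣ Nat.card M → M ≤ Subgroup.center G := by
    intro M hMn hMp
    by_contra hMZ
    haveI := Fintype.ofFinite M
    obtain ⟨V, _, _, _, ρ, E, hr, hEcl, hEE, hEv, hEA, ⟨x, hx⟩, hstab⟩ := hover M hMp
    have hsurj := gpi_surj M ρ hr hstab
    haveI := gam_finite M ρ hr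
    haveI := Fintype.ofFinite (GQ M ρ)
    have hH : HI O p (GQ M ρ) := by
      refine small (GQ M ρ) (Or.inl ?_) (fun Y _ hY h => gq_sec M ρ hr hY h)
      rw [← ha]
      exact gq_index M ρ hr hsurj hMZ
    exact hx (fong_int M ρ hr hpO hMp hsurj hH hEcl hEE hEv hEA x)
  have hZp : ¬ p ∣ Nat.card (Subgroup.center G) := by
    intro hdvd
    obtain ⟨z, hz⟩ := exists_prime_orderOf_dvd_card' p hdvd
    have h3 : Subgroup.zpowers (z : G) = ⊥ := by
      apply p1
      · constructor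
        rintro n hn g
        have h4 : n ∈ Subgroup.center G := by
          obtain ⟨k, rfl⟩ := Subgroup.mem_zpowers_iff.mp hn
          exact (Subgroup.center G).zpow_mem z.2 k
        rw [Subgroup.mem_center_iff.mp h4 g, mul_inv_cancel_right]
        exact hn
      · apply IsPGroup.of_card (n := 1)
        rw [Nat.card_zpowers, Subgroup.orderOf_coe, hz, pow_one]
    rw [Subgroup.zpowers_eq_bot] at h3
    have h4 : z = 1 := Subtype.ext h3
    rw [h4, orderOf_one] at hz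
    exact hp.out.one_lt.ne hz
  have p3 : IsCyclic (Subgroup.center G) := by
    haveI := Fintype.ofFinite (Subgroup.center G)
    obtain ⟨V, _, _, _, ρ, E, hr, hEcl, hEE, hEv, hEA, ⟨x, hx⟩, hstab⟩ :=
      hover (Subgroup.center G) hZp
    refine cyclic_of_faithful (fun a b => Subtype.ext (Subgroup.mem_center_iff.mp b.2 a)) ρ hr ?_
    -- the kernel is trivial
    set K : Subgroup G := (ρ.ker).map (Subgroup.center G).subtype with hK
    have hKZ : K ≤ Subgroup.center G := by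
      rintro _ ⟨k, -, rfl⟩
      exact k.2
    have hKn : K.Normal := by
      constructor
      intro n hn g
      rw [Subgroup.mem_center_iff.mp (hKZ hn) g, mul_inv_cancel_right]
      exact hn
    have hKp : ¬ p ∣ Nat.card K := fun h => hZp (h.trans (Subgroup.card_dvd_of_le hKZ))
    have hK1 : K = ⊥ := by
      by_contra hK1
      haveI := Fintype.ofFinite (G ⧸ K)
      refine hx (quot_int hpO K hKp (hquot K hK1) hEcl hEE hEv ?_ x)
      rintro g _ ⟨k, hk, rfl⟩
      exact conv_ker (Subgroup.center G) ρ hEA g k hk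
    intro m hm
    have h1 : (m : G) ∈ K := ⟨m, hm, rfl⟩
    rw [hK1, Subgroup.mem_bot] at h1
    exact Subtype.ext h1
  have p4 : ∀ N : Subgroup G, (∀ x : G, ¬ p ∣ orderOf x → x ∈ N) → N = ⊤ := by
    intro N hN
    by_contra hN1
    haveI := Fintype.ofFinite N
    have h1 := hsub N hN1
    refine hnot (red_normal hp.out ⊥ N IsPGroup.of_bot ?_ h₀
      fun η hη _ => harada_of_HI hpO h1 hη)
    intro g hg _
    refine hN g ?_
    rw [← hp.out.coprime_iff_not_dvd, Nat.coprime_comm]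
    exact hg
  have p5 : ∀ N : Subgroup G, N.Normal → ∀ χ ∈ Blk p χ₀, ∀ χ' ∈ Blk p χ₀, ∀ η η' : N → ℂ,
      SimpleChar η → SimpleChar η' → ∑ᶠ n : N, χ n * η n⁻¹ ≠ 0 → ∑ᶠ n : N, χ' n * η' n⁻¹ ≠ 0 →
      letI := Fintype.ofFinite N; η' ∈ Blk p η := by
    intro N hNn χ hχ χ' hχ' η η' hη hη' h1 h2
    letI := Fintype.ofFinite N
    rw [hBe] at hχ hχ'
    obtain ⟨b, hb, hbs, x, hx⟩ := hst N
    have hne : conv (ec J) (ex N (ec (XB b))) ≠ fun _ => 0 := by
      intro h
      rw [h] at hx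
      exact hx O.zero_mem
    have hN0 : (Nat.card N : ℂ)⁻¹ ≠ 0 := inv_ne_zero (by exact_mod_cast Nat.card_pos.ne')
    have h3 : η ∈ b := cover N hb hbs hB hJB hne hχ (simple_iff.mp hη) (by
      unfold IC.B
      rw [finsum_eq_sum_of_fintype] at h1
      exact mul_ne_zero hN0 h1)
    have h4 : η' ∈ b := cover N hb hbs hB hJB hne hχ' (simple_iff.mp hη') (by
      unfold IC.B
      rw [finsum_eq_sum_of_fintype] at h2
      exact mul_ne_zero hN0 h2)
    change η' ∈ Blk p η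
    rw [blk_eq hpO hb h3]
    exact h4
  have p6 : ∀ (l : G →* ℂˣ) (q : ℕ), q.Prime → (∀ x, l x ^ q = 1) → ∀ χ ∈ Blk p χ₀,
      (fun x => (l x : ℂ) * χ x) ∈ Blk p χ₀ := by
    intro l q hq hlq χ hχ
    rw [hBe] at hχ ⊢
    change tw l χ ∈ B
    by_contra hcon
    by_cases hl : l.ker = ⊤
    · apply hcon
      have h1 : l = 1 := by
        ext x
        have h2 : x ∈ l.ker := by rw [hl]; trivial
        rw [MonoidHom.mem_ker.mp h2]
        rfl
      rw [h1, tw_one]
      exact hχ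
    · haveI := Fintype.ofFinite l.ker
      exact hψJ (tw_har hB l q hq hlq (hsub _ hl) hχ hcon hJn hJB hJ ψ hψ)
  have p7 : ∀ X₁ X₂ : Subgroup G, (∀ a ∈ X₁, ∀ b ∈ X₂, a * b = b * a) → X₁ ⊔ X₂ = ⊤ →
      X₁ ≤ Subgroup.center G ∨ X₂ ≤ Subgroup.center G := by
    intro X₁ X₂ hc hs
    by_cases h1 : X₁ = ⊤
    · right
      intro b hb
      rw [Subgroup.mem_center_iff]
      intro a
      exact hc a (by rw [h1]; trivial) b hb
    · by_cases h2 : X₂ = ⊤
      · left
        intro a ha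
        rw [Subgroup.mem_center_iff]
        intro b
        exact (hc a ha b (by rw [h2]; trivial)).symm
      · exfalso
        haveI := Fintype.ofFinite X₁
        haveI := Fintype.ofFinite X₂
        exact hnot (harada_of_HI hpO (HI_central hZp X₁ X₂ hc hs (hsub _ h1) (hsub _ h2)) h₀)
  exact hno G _ _ χ₀ ⟨h₀, hnot, p1, p2, p3, p4, p5, p6, p7⟩ (isSec_self _)

end Run7.h179
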