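import Mathlib
import Pool.Agent.Run7.h179.KbI

/-!
The bound for the number of all characters of a block.
-/

set_option autoImplicit false
set_option linter.style.haveILetI false
set_option linter.unusedSectionVars false

open scoped BigOperators Classical
open Pool.Agent.Helper884 Pool.Agent.H254R3.IN

noncomputable section

namespace Run7.h179.Kb

open Pool.Agent.N20

variable {G : Type} [Group G] [Fintype G]

section thm

variable {p a : ℕ} (hp : p.Prime) (ha : 2 ≤ a) {O : ValuationSubring ℂ}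
  (hpO : (p : ℂ) ∈ O.nonunits) {D : Subgroup G} {B : Set (G → ℂ)} (hB : IsBlock O B)
  (hD : IsDefectGroup p O B D) {u : G} {k : ℕ} (hu : orderOf u = p ^ k)
  {b : Set (CC u → ℂ)} (hb : IsBlock O b) {D' : Subgroup (CC u)}
  (hD' : IsDefectGroup p O b D') (hbB : Induces O B (CC u) b)
  (hmin : MinorsDvd p b (Nat.card D') (p ^ a))

include hp ha hpO hB hD hu hb hD' hbB hmin in
/-- **All characters, major subsections.** -/
theorem all_heights (hcard : Nat.card D' = Nat.card D) (hdvd : p ^ a ∣ Nat.card D) :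
    p ^ a * Nat.card B ≤ Nat.card D * max (p ^ a) (lB p b + p ^ (a - 2) - 1) := by
  haveI : Fact p.Prime := ⟨hp⟩
  haveI := charP_RF hpO
  have hmem : ∀ θ : {θ // θ ∈ XB b}, (θ : CC u → ℂ) ∈ b := fun θ => (mem_XB hb.irr).mp θ.2
  have hirr : ∀ θ : {θ // θ ∈ XB b}, IsIrr (θ : CC u → ℂ) := fun θ => hb.irr _ (hmem θ)
  obtain ⟨X⟩ := sub_data hp hpO hu hb hD' B hB.irr
  letI := X.fQ
  rw [← hcard] at hdvd ⊢
  obtain ⟨d, hd⟩ := IsPGroup.iff_card.mp (Pool.Agent.N20.defect_pgroup hD')
  have had : a ≤ d := by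
    rw [hd] at hdvd
    exact (Nat.pow_dvd_pow_iff_le_right hp.one_lt).mp hdvd
  refine matD hp ha X.sym (minors_M hb hmin X) X.i₀_ne X.sq X.tr X.f X.N₀_pos X.fr
    hd had (fun z hz => ?_)
  let g : ({θ // θ ∈ XB b} → ℤ) →+ ℚ := (bil 1 X.M).flip z
  have hg : ∀ x, g x = (mf X.M x z : ℚ) := by
    intro x
    change bil 1 X.M x z = _
    rw [bil_mf]
    simp
  have h1 := X.count g ?_
  · refine h1.trans (le_of_eq ?_)
    congr 1
    ext s
    simp only [Finset.mem_filter, Finset.mem_univ, true_and, hg, ne_eq, Int.cast_eq_zero]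
  · intro χ hχ h0
    have hX := hB.irr χ hχ
    -- reduction
    have hzr : (∑ θ, (z θ : RF O) * red O (uu D' (θ : CC u → ℂ))) ≠ 0 := by
      intro h
      apply hz
      rw [← CharP.intCast_eq_zero_iff (RF O) p]
      have h2 : ((mf X.M z z : ℤ) : RF O) = (∑ θ, (z θ : RF O) * red O (uu D' (θ : CC u → ℂ))) *
          (∑ η : {θ // θ ∈ XB b}, (z η : RF O) * sr p O (X.i₀ : CC u → ℂ) (η : CC u → ℂ)) :=
        red_bil (p := p) X.M (fun θ => red O (uu D' (θ : CC u → ℂ)))
          (fun η => sr p O (X.i₀ : CC u → ℂ) (η : CC u → ℂ)) X.redM z z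
      rw [h2, h, zero_mul]
    have h0' : ∑ θ : {θ // θ ∈ XB b}, (z θ : ℂ) * ((Nat.card D' : ℂ) * JJ p u 1 θ χ) = 0 := by
      rw [← h0]
      have h3 : ∀ η : {θ // θ ∈ XB b}, (g (Pi.single η 1) : ℂ) =
          ∑ θ : {θ // θ ∈ XB b}, (z θ : ℂ) * (X.M θ η : ℂ) := by
        intro η
        rw [hg, mf_single]
        push_cast
        refine Finset.sum_congr rfl fun θ _ => ?_
        rw [X.sym η θ]
        ring
      simp only [h3, Finset.mul_sum]
      rw [Finset.sum_comm]
      refine Finset.sum_congr rfl fun θ _ => ?_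
      rw [X.JM _ _ hX, Finset.mul_sum]
      refine Finset.sum_congr rfl fun η _ => ?_
      ring
    rw [hcard] at h0'
    have h1 : uu D χ * ∑ θ : {θ // θ ∈ XB b}, (z θ : ℂ) * TG p u χ θ = 0 := by
      rw [← h0', Finset.mul_sum]
      refine Finset.sum_congr rfl fun θ _ => ?_
      rw [card_JJ hu D hX (hirr θ)]
      ring
    have h2 := (mul_eq_zero.mp h1).resolve_left (uu_ne hX)
    have h3 := congrArg (red O) h2
    rw [red_zero, red_sum _ _ (fun θ _ => O.mul_mem _ _ (intCast_mem' _)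
      (TG_mem hX (hirr θ)))] at h3
    have h4 : (∑ θ, (z θ : RF O) * red O (uu D' (θ : CC u → ℂ))) * ccG O p D χ = 0 := by
      rw [← h3, Finset.sum_mul]
      refine Finset.sum_congr rfl fun θ _ => ?_
      rw [red_mul (intCast_mem' _) (TG_mem hX (hirr θ)), red_intCast,
        red_TG hpO hB hD hu hb hD' hcard hbB hχ (hmem θ)]
      ring
    exact (mul_ne_zero hzr (cc_ne hpO hB hD hχ)) h4

end thm

end Run7.h179.Kb
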