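import Mathlib
import Pool.Agent.Run7.h179.Har4

/-!
Blocks with at most three irreducible Brauer characters: the main argument.
-/

set_option autoImplicit false
set_option linter.style.haveILetI false
set_option linter.unusedSectionVars false

open scoped BigOperators Classical
open Pool.Agent.Helper884 Pool.Agent.H254R3.IN Pool.Agent.N20

noncomputable section

namespace Run7.h179

variable {G : Type} [Group G] [Fintype G]

/-- The main argument, in terms of the two parts `J₁` and `J₂` of the block. -/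
theorem no_split {p : ℕ} [hp : Fact p.Prime] {O : ValuationSubring ℂ}
    (hpO : (p : ℂ) ∈ O.nonunits) {D : Subgroup G} {B : Set (G → ℂ)} (hB : IsBlock O B)
    (hD : IsDefectGroup p O B D) (hl : lB p B ≤ 3) {J₁ J₂ : Finset (G → ℂ)}
    (hun : J₁ ∪ J₂ = XB B) (hdis : Disjoint J₁ J₂)
    (h₁ : ∀ g : G, p ∣ orderOf g → SJ J₁ g = 0) (h₂ : ∀ g : G, p ∣ orderOf g → SJ J₂ g = 0)
    {χ₀ : G → ℂ} (hχ₀ : χ₀ ∈ J₁) (hχ₀u : red O (uu D χ₀) ≠ 0) (hne : J₂.Nonempty) : False := by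
  haveI := charP_RF hpO
  obtain ⟨d, hd⟩ := IsPGroup.iff_card.mp (Pool.Agent.N20.defect_pgroup hD)
  have hD0 : (Nat.card D : ℂ) ≠ 0 := by exact_mod_cast Nat.card_pos.ne'
  have hDR : (0 : ℝ) < Nat.card D := by exact_mod_cast Nat.card_pos
  have hG0 : (Nat.card G : ℂ) ≠ 0 := by exact_mod_cast Nat.card_pos.ne'
  have hX : ∀ χ ∈ XB B, χ ∈ B := fun χ hχ => (mem_XB hB.irr).mp hχ
  have hXi : ∀ χ ∈ XB B, IsIrr χ := fun χ hχ => hB.irr χ (hX χ hχ)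
  have hJ1X : J₁ ⊆ XB B := by rw [← hun]; exact Finset.subset_union_left
  have hJ2X : J₂ ⊆ XB B := by rw [← hun]; exact Finset.subset_union_right
  have hsplit : ∀ f : (G → ℂ) → ℝ, ∑ η ∈ XB B, f η = ∑ η ∈ J₁, f η + ∑ η ∈ J₂, f η := by
    intro f
    rw [← hun, Finset.sum_union hdis]
  have hnot : ∀ η ∈ J₂, η ∉ J₁ := fun η h2 h1 => (Finset.disjoint_left.mp hdis) h1 h2
  have hnot' : ∀ η ∈ J₁, η ∉ J₂ := fun η h1 h2 => (Finset.disjoint_left.mp hdis) h1 h2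
  choose! M hM using fun (χ : G → ℂ) (hχ : χ ∈ XB B) (ψ : G → ℂ) (hψ : ψ ∈ XB B) =>
    contr_int hpO hB hD (hX χ hχ) (hX ψ hψ)
  -- the real matrix
  set P : (G → ℂ) → (G → ℂ) → ℝ := fun χ ψ => (M χ ψ : ℝ) / Nat.card D with hPd
  have hP : ∀ χ ∈ XB B, ∀ ψ ∈ XB B, ((P χ ψ : ℝ) : ℂ) = IC.B (cut p χ) ψ := by
    intro χ hχ ψ hψ
    rw [hPd]
    push_cast
    rw [hM χ hχ ψ hψ]
    field_simp
  have hPsym : ∀ χ ∈ XB B, ∀ ψ ∈ XB B, P χ ψ = P ψ χ := by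
    intro χ hχ ψ hψ
    have : ((P χ ψ : ℝ) : ℂ) = ((P ψ χ : ℝ) : ℂ) := by
      rw [hP χ hχ ψ hψ, hP ψ hψ χ hχ, B_cut_comm]
    exact_mod_cast this
  have hPid : ∀ χ ∈ XB B, ∀ ψ ∈ XB B, ∑ η ∈ XB B, P χ η * P η ψ = P χ ψ := by
    intro χ hχ ψ hψ
    have : ((∑ η ∈ XB B, P χ η * P η ψ : ℝ) : ℂ) = ((P χ ψ : ℝ) : ℂ) := by
      rw [hP χ hχ ψ hψ, ← B_cut_idem hpO hB (hX χ hχ)]
      push_cast
      exact Finset.sum_congr rfl fun η hη => by rw [hP χ hχ η hη, hP η hη ψ hψ]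
    exact_mod_cast this
  have hPtr : ∑ χ ∈ XB B, P χ χ = lB p B := by
    have : ((∑ χ ∈ XB B, P χ χ : ℝ) : ℂ) = ((lB p B : ℝ) : ℂ) := by
      push_cast
      rw [← trace_eq hpO hB]
      exact Finset.sum_congr rfl fun η hη => by rw [hP η hη η hη]
    exact_mod_cast this
  -- degrees
  choose! n hn0 hn using fun (χ : G → ℂ) (hχ : χ ∈ XB B) => (hXi χ hχ).deg
  set a₁ : (G → ℂ) → ℝ := fun χ => if χ ∈ J₁ then n χ else 0 with ha₁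
  set a₂ : (G → ℂ) → ℝ := fun χ => if χ ∈ J₂ then n χ else 0 with ha₂
  have hPa : ∀ (J : Finset (G → ℂ)), J ⊆ XB B → (∀ g : G, p ∣ orderOf g → SJ J g = 0) →
      ∀ χ ∈ XB B, ∑ η ∈ XB B, P χ η * (if η ∈ J then (n η : ℝ) else 0) =
        if χ ∈ J then (n χ : ℝ) else 0 := by
    intro J hJX hJ χ hχ
    have h1 := B_cut_J (fun η hη => hXi η (hJX hη)) hJ (hXi χ hχ)
    have h2 : ∑ η ∈ XB B, P χ η * (if η ∈ J then (n η : ℝ) else 0) =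
        ∑ η ∈ J, P χ η * n η := by
      simp only [mul_ite, mul_zero]
      rw [← Finset.sum_filter]
      congr 1
      ext η
      rw [Finset.mem_filter]
      exact ⟨fun h => h.2, fun h => ⟨hJX h, h⟩⟩
    rw [h2]
    have h3 : ((∑ η ∈ J, P χ η * n η : ℝ) : ℂ) =
        (((if χ ∈ J then (n χ : ℝ) else 0) : ℝ) : ℂ) := by
      have h4 : (((if χ ∈ J then (n χ : ℝ) else 0) : ℝ) : ℂ) = if χ ∈ J then χ 1 else 0 := by
        split_ifs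
        · rw [← hn χ hχ]
          push_cast
          rfl
        · push_cast
          rfl
      rw [h4, ← h1]
      push_cast
      exact Finset.sum_congr rfl fun η hη => by rw [hP χ hχ η (hJX hη), hn η (hJX hη)]
    exact_mod_cast h3
  have hPa₁ : ∀ χ ∈ XB B, ∑ η ∈ XB B, P χ η * a₁ η = a₁ χ := hPa J₁ hJ1X h₁
  have hPa₂ : ∀ χ ∈ XB B, ∑ η ∈ XB B, P χ η * a₂ η = a₂ χ := hPa J₂ hJ2X h₂
  have h12 : ∀ η, a₁ η * a₂ η = 0 := by
    intro η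
    rw [ha₁, ha₂]
    by_cases h1 : η ∈ J₁
    · simp [hnot' η h1]
    · simp [h1]
  set n₁ : ℝ := ∑ η ∈ XB B, a₁ η * a₁ η with hn₁
  set n₂ : ℝ := ∑ η ∈ XB B, a₂ η * a₂ η with hn₂
  have hn₁0 : 0 < n₁ := by
    refine lt_of_lt_of_le ?_ (Finset.single_le_sum (fun η _ => mul_self_nonneg (a₁ η)) (hJ1X hχ₀))
    rw [ha₁]
    simp only [hχ₀, if_true]
    have := hn0 χ₀ (hJ1X hχ₀)
    positivity
  have hn₂0 : 0 < n₂ := by
    obtain ⟨ψ, hψ⟩ := hne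
    refine lt_of_lt_of_le ?_ (Finset.single_le_sum (fun η _ => mul_self_nonneg (a₂ η)) (hJ2X hψ))
    rw [ha₂]
    simp only [hψ, if_true]
    have := hn0 ψ (hJ2X hψ)
    positivity
  -- the projection onto the rest
  set R : (G → ℂ) → (G → ℂ) → ℝ := fun χ ψ =>
    P χ ψ - a₁ χ * a₁ ψ / n₁ - a₂ χ * a₂ ψ / n₂ with hR
  have hRsym : ∀ χ ∈ XB B, ∀ ψ ∈ XB B, R χ ψ = R ψ χ := by
    intro χ hχ ψ hψ
    rw [hR]
    simp only []
    rw [hPsym χ hχ ψ hψ]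
    ring
  have hRa₁ : ∀ χ ∈ XB B, ∑ η ∈ XB B, R χ η * a₁ η = 0 := by
    intro χ hχ
    have h1 : ∀ η, R χ η * a₁ η = P χ η * a₁ η - a₁ χ / n₁ * (a₁ η * a₁ η) -
        a₂ χ / n₂ * (a₁ η * a₂ η) := by
      intro η; rw [hR]; ring
    simp only [h1, h12, mul_zero, sub_zero]
    rw [Finset.sum_sub_distrib, ← Finset.mul_sum, hPa₁ χ hχ, ← hn₁]
    field_simp
    ring
  have hRa₂ : ∀ χ ∈ XB B, ∑ η ∈ XB B, R χ η * a₂ η = 0 := by
    intro χ hχ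
    have h1 : ∀ η, R χ η * a₂ η = P χ η * a₂ η - a₁ χ / n₁ * (a₁ η * a₂ η) -
        a₂ χ / n₂ * (a₂ η * a₂ η) := by
      intro η; rw [hR]; ring
    simp only [h1, h12, mul_zero, sub_zero]
    rw [Finset.sum_sub_distrib, ← Finset.mul_sum, hPa₂ χ hχ, ← hn₂]
    field_simp
    ring
  have hRid : ∀ χ ∈ XB B, ∀ ψ ∈ XB B, ∑ η ∈ XB B, R χ η * R η ψ = R χ ψ := by
    intro χ hχ ψ hψ
    have h1 : ∀ η ∈ XB B, R χ η * R η ψ = R χ η * P η ψ - (R χ η * a₁ η) * (a₁ ψ / n₁) -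
        (R χ η * a₂ η) * (a₂ ψ / n₂) := by
      intro η hη
      conv_lhs => rw [hR]
      simp only [hR]
      ring
    rw [Finset.sum_congr rfl h1, Finset.sum_sub_distrib, Finset.sum_sub_distrib,
      ← Finset.sum_mul, ← Finset.sum_mul, hRa₁ χ hχ, hRa₂ χ hχ, zero_mul, zero_mul, sub_zero,
      sub_zero]
    have h2 : ∀ η ∈ XB B, R χ η * P η ψ = P χ η * P η ψ - a₁ χ / n₁ * (P ψ η * a₁ η) -
        a₂ χ / n₂ * (P ψ η * a₂ η) := by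
      intro η hη
      rw [hR, hPsym ψ hψ η hη]
      ring
    rw [Finset.sum_congr rfl h2, Finset.sum_sub_distrib, Finset.sum_sub_distrib,
      ← Finset.mul_sum, ← Finset.mul_sum, hPid χ hχ ψ hψ, hPa₁ ψ hψ, hPa₂ ψ hψ]
    rw [hR]
    ring
  have hRtr : ∑ χ ∈ XB B, R χ χ = lB p B - 2 := by
    have h1 : ∀ χ, R χ χ = P χ χ - a₁ χ * a₁ χ / n₁ - a₂ χ * a₂ χ / n₂ := fun χ => rfl
    have e1 : ∑ χ ∈ XB B, a₁ χ * a₁ χ / n₁ = 1 := by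
      rw [← Finset.sum_div, ← hn₁, div_self hn₁0.ne']
    have e2 : ∑ χ ∈ XB B, a₂ χ * a₂ χ / n₂ = 1 := by
      rw [← Finset.sum_div, ← hn₂, div_self hn₂0.ne']
    simp only [h1]
    rw [Finset.sum_sub_distrib, Finset.sum_sub_distrib, hPtr, e1, e2]
    ring
  have hRtr1 : ∑ χ ∈ XB B, R χ χ ≤ 1 := by
    rw [hRtr]
    have : (lB p B : ℝ) ≤ 3 := by exact_mod_cast hl
    linarith
  have hrel := fun {i j k : G → ℂ} (hi : i ∈ XB B) (hj : j ∈ XB B) (hk : k ∈ XB B) =>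
    rank_le_one (XB B) R hRsym hRid hRtr1 hi hj hk
  have hRnn : ∀ χ ∈ XB B, 0 ≤ R χ χ := fun χ hχ => diag_nonneg (XB B) R hRsym hRid hχ
  -- off-diagonal entries
  have hRoff : ∀ χ ∈ J₁, ∀ ψ ∈ J₂, R χ ψ = P χ ψ := by
    intro χ hχ ψ hψ
    rw [hR, ha₁, ha₂]
    simp [hnot ψ hψ, hnot' χ hχ]
  -- the character of least degree in `J₂`
  obtain ⟨ψ₀, hψ₀, hmin⟩ := exists_min (O := O) hne (fun η hη => hXi η (hJ2X hη))
  have hχ₀X := hJ1X hχ₀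
  have hψ₀X := hJ2X hψ₀
  have hψ₀1 : ψ₀ 1 ≠ 0 := (hXi ψ₀ hψ₀X).one_ne
  set μ : ℝ := ∑ η ∈ J₂, R η η with hμ
  have hkey : ∑ η ∈ J₂, P χ₀ η * P η ψ₀ = μ * P χ₀ ψ₀ := by
    have h1 : ∀ η ∈ J₂, P χ₀ η * P η ψ₀ = R η η * R χ₀ ψ₀ + R χ₀ η * a₂ η * (a₂ ψ₀ / n₂) := by
      intro η hη
      have h2 : P η ψ₀ = R η ψ₀ + a₂ η * a₂ ψ₀ / n₂ := by
        have : a₁ η = 0 := by rw [ha₁]; simp [hnot η hη]
        rw [hR]
        simp only [this]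
        ring
      rw [← hRoff χ₀ hχ₀ η hη, h2, hrel (hJ2X hη) hχ₀X hψ₀X, hRsym η (hJ2X hη) χ₀ hχ₀X]
      ring
    rw [Finset.sum_congr rfl h1, Finset.sum_add_distrib, ← Finset.sum_mul, ← Finset.sum_mul,
      hRoff χ₀ hχ₀ ψ₀ hψ₀]
    have h3 : ∑ η ∈ J₂, R χ₀ η * a₂ η = 0 := by
      have h4 := hRa₂ χ₀ hχ₀X
      rw [hsplit] at h4
      have h5 : ∑ η ∈ J₁, R χ₀ η * a₂ η = 0 := by
        refine Finset.sum_eq_zero fun η hη => ?_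
        have : a₂ η = 0 := by rw [ha₂]; simp [hnot' η hη]
        rw [this, mul_zero]
      rw [h5, zero_add] at h4
      exact h4
    rw [h3, zero_mul, add_zero]
  -- the unit
  have hcard : (Nat.card D : ℂ) * IC.B (cut p ψ₀) χ₀ = uu D ψ₀ * SS p ψ₀ χ₀ :=
    card_mul_B D (hXi ψ₀ hψ₀X) (fun g y => (hXi χ₀ hχ₀X).conj g y)
  have hunit : red O (SS p ψ₀ χ₀) ≠ 0 := by
    rw [red_SS (hXi ψ₀ hψ₀X) (hXi χ₀ hχ₀X), sr_eq hpO hB hD (hX ψ₀ hψ₀X) (hX χ₀ hχ₀X)]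
    exact mul_ne_zero hχ₀u (Pool.Agent.N20.cc_ne hpO hB hD (hX ψ₀ hψ₀X))
  obtain ⟨hSO, hSiO, hS0⟩ := inv_mem_of_red_ne hunit
  have hPSS : IC.B (cut p ψ₀) χ₀ * Nat.card G / ψ₀ 1 = SS p ψ₀ χ₀ := by
    have h1 : IC.B (cut p ψ₀) χ₀ = uu D ψ₀ * SS p ψ₀ χ₀ / Nat.card D := by
      rw [← hcard]
      field_simp
    rw [h1]
    unfold uu
    field_simp
  have hP0 : P χ₀ ψ₀ ≠ 0 := by
    intro h0
    apply hS0
    rw [← hPSS, ← B_cut_comm, ← hP χ₀ hχ₀X ψ₀ hψ₀X, h0]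
    simp
  have hμO : (μ : ℂ) ∈ O := by
    have h1 := pair2 hpO (fun η hη => hXi η (hJ2X hη)) h₂ hψ₀1 hmin (hXi χ₀ hχ₀X) (hXi ψ₀ hψ₀X)
    have h2 : ∑ η ∈ J₂, IC.B (cut p χ₀) η * IC.B (cut p η) ψ₀ = (μ : ℂ) * IC.B (cut p ψ₀) χ₀ := by
      rw [← B_cut_comm, ← hP χ₀ hχ₀X ψ₀ hψ₀X]
      have h3 : ((∑ η ∈ J₂, P χ₀ η * P η ψ₀ : ℝ) : ℂ) = ((μ * P χ₀ ψ₀ : ℝ) : ℂ) := by rw [hkey]
      rw [Complex.ofReal_mul] at h3
      rw [← h3]
      push_cast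
      exact Finset.sum_congr rfl fun η hη => by
        rw [hP χ₀ hχ₀X η (hJ2X hη), hP η (hJ2X hη) ψ₀ hψ₀X]
    rw [h2, mul_assoc, mul_div_assoc, hPSS] at h1
    have h3 : (μ : ℂ) = (μ : ℂ) * SS p ψ₀ χ₀ * (SS p ψ₀ χ₀)⁻¹ := by
      field_simp
    rw [h3]
    exact O.mul_mem _ _ h1 hSiO
  have hμ0 : 0 ≤ μ := Finset.sum_nonneg fun η hη => hRnn η (hJ2X hη)
  -- `|D| μ` is an integer
  have hμint : ∃ m : ℤ, (m : ℝ) = Nat.card D * μ := by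
    refine ⟨∑ η ∈ J₂, M η η - Nat.card D, ?_⟩
    have h1 : μ = ∑ η ∈ J₂, P η η - 1 := by
      have h2 : ∀ η ∈ J₂, R η η = P η η - a₂ η * a₂ η / n₂ := by
        intro η hη
        have : a₁ η = 0 := by rw [ha₁]; simp [hnot η hη]
        rw [hR]
        simp only [this]
        ring
      have h3 : ∑ η ∈ J₂, a₂ η * a₂ η = n₂ := by
        rw [hn₂, hsplit]
        have h5 : ∑ η ∈ J₁, a₂ η * a₂ η = 0 := by
          refine Finset.sum_eq_zero fun η hη => ?_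
          have : a₂ η = 0 := by rw [ha₂]; simp [hnot' η hη]
          rw [this, mul_zero]
        rw [h5, zero_add]
      have h4 : ∑ η ∈ J₂, a₂ η * a₂ η / n₂ = 1 := by
        rw [← Finset.sum_div, h3, div_self hn₂0.ne']
      rw [hμ, Finset.sum_congr rfl h2, Finset.sum_sub_distrib, h4]
    rw [h1]
    push_cast
    rw [mul_sub, Finset.mul_sum, mul_one]
    congr 1
    refine Finset.sum_congr rfl fun η _ => ?_
    rw [hPd]
    field_simp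
  obtain ⟨m, hm⟩ := hμint
  have hm0 : 0 ≤ m := by
    have : (0 : ℝ) ≤ m := by rw [hm]; positivity
    exact_mod_cast this
  obtain ⟨m', rfl⟩ := Int.eq_ofNat_of_zero_le hm0
  have hdvd : p ^ d ∣ m' := by
    apply dvd_of_div_mem hpO
    have h1 : (m' : ℂ) / (p : ℂ) ^ d = (μ : ℂ) := by
      have h2 : (Nat.card D : ℂ) = (p : ℂ) ^ d := by rw [hd]; push_cast; rfl
      rw [← h2]
      have h3 : (((m' : ℤ) : ℝ) : ℂ) = ((Nat.card D * μ : ℝ) : ℂ) := by rw [hm]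
      rw [Complex.ofReal_mul] at h3
      have h4 : (m' : ℂ) = (Nat.card D : ℂ) * (μ : ℂ) := by
        rw [← Complex.ofReal_natCast (Nat.card D), ← h3]
        simp
      rw [h4]
      field_simp
    rw [h1]
    exact hμO
  obtain ⟨c, hc⟩ := hdvd
  have hμc : μ = c := by
    have h1 : ((m' : ℤ) : ℝ) = Nat.card D * c := by
      rw [hc, hd]
      push_cast
      ring
    rw [h1] at hm
    exact (mul_left_cancel₀ hDR.ne' hm).symm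
  have hμ1 : μ ≤ 1 := by
    have h1 : μ ≤ ∑ χ ∈ XB B, R χ χ := by
      rw [hsplit]
      have : 0 ≤ ∑ χ ∈ J₁, R χ χ := Finset.sum_nonneg fun η hη => hRnn η (hJ1X hη)
      linarith
    linarith
  have hc1 : c ≤ 1 := by
    rw [hμc] at hμ1
    exact_mod_cast hμ1
  interval_cases c
  · -- `μ = 0`
    have h1 : ∑ η ∈ J₂, R η η = 0 := by rw [← hμ, hμc]; simp
    rw [Finset.sum_eq_zero_iff_of_nonneg (fun η hη => hRnn η (hJ2X hη))] at h1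
    apply hP0
    rw [← hRoff χ₀ hχ₀ ψ₀ hψ₀, hRsym χ₀ hχ₀X ψ₀ hψ₀X]
    exact diag_zero (XB B) R hRsym hRid hψ₀X (h1 ψ₀ hψ₀) hχ₀X
  · -- `μ = 1`
    have h1 : ∑ η ∈ J₁, R η η = 0 := by
      have h2 : ∑ χ ∈ XB B, R χ χ = ∑ η ∈ J₁, R η η + μ := by rw [hsplit]
      have h3 : 0 ≤ ∑ χ ∈ J₁, R χ χ := Finset.sum_nonneg fun η hη => hRnn η (hJ1X hη)
      have h4 : μ = 1 := by rw [hμc]; simp
      linarith
    rw [Finset.sum_eq_zero_iff_of_nonneg (fun η hη => hRnn η (hJ1X hη))] at h1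
    apply hP0
    rw [← hRoff χ₀ hχ₀ ψ₀ hψ₀]
    exact diag_zero (XB B) R hRsym hRid hχ₀X (h1 χ₀ hχ₀) hψ₀X

/-- **Harada's conjecture for blocks with at most three irreducible Brauer characters.** -/
theorem har_le_three {p : ℕ} (hp : p.Prime) {O : ValuationSubring ℂ}
    (hpO : (p : ℂ) ∈ O.nonunits) {D : Subgroup G} {B : Set (G → ℂ)} (hB : IsBlock O B)
    (hD : IsDefectGroup p O B D) (hl : lB p B ≤ 3)
    {J : Finset (G → ℂ)} (hJn : J.Nonempty) (hJB : ∀ χ ∈ J, χ ∈ B)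
    (hJ : ∀ g : G, p ∣ orderOf g → SJ J g = 0) : ∀ χ ∈ B, χ ∈ J := by
  haveI : Fact p.Prime := ⟨hp⟩
  by_contra hcon
  push Not at hcon
  obtain ⟨ψ, hψ, hψJ⟩ := hcon
  have hJX : J ⊆ XB B := fun χ hχ => (mem_XB hB.irr).mpr (hJB χ hχ)
  have hJ' : ∀ g : G, p ∣ orderOf g → SJ (XB B \ J) g = 0 := by
    intro g hg
    rw [SJ_sdiff hJX, SJ_block hpO hB g hg, hJ g hg, sub_zero]
  have hne : (XB B \ J).Nonempty :=
    ⟨ψ, Finset.mem_sdiff.mpr ⟨(mem_XB hB.irr).mpr hψ, hψJ⟩⟩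
  have hun : J ∪ (XB B \ J) = XB B := Finset.union_sdiff_of_subset hJX
  have hdis : Disjoint J (XB B \ J) := Finset.disjoint_sdiff
  obtain ⟨χ₀, hχ₀, hχ₀u⟩ := exists_uu_ne hpO hB hD
  by_cases h : χ₀ ∈ J
  · exact no_split hpO hB hD hl hun hdis hJ hJ' h hχ₀u hne
  · exact no_split hpO hB hD hl (by rw [Finset.union_comm]; exact hun) hdis.symm hJ' hJ
      (Finset.mem_sdiff.mpr ⟨(mem_XB hB.irr).mpr hχ₀, h⟩) hχ₀u hJn

end Run7.h179
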